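import Pool.Agent.H85.Cake.Force

/-!
# Cutting into equal parts   (JOB CAKE-CUTEQ)

`takePart`: induction on `M` (generalizing `r`): `M = v ::ₘ M'`; if `v c ≤ r` use the induction
hypothesis for `M'` and `r - v c` and put `v` into `A` (frame rule with `K = {v}`); otherwise
`0 ≤ r < v c`: split `v` at `r`, `A = {v'}`, `B = v'' ::ₘ M'`.  (`M = 0`: `r = 0`, `A = B = 0`.)

`cutEqual`: induction on `n` for the statement: if `M.sum c = n * r` then in `n` moves one gets `n`
parts of value `r` (for `n + 1`: `takePart` of value `r`, then the rest has value `n * r`; frame rule;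
for the last part the rest is exactly of value `r` or use one more move, `n` moves are allowed).
-/

namespace H85.Cake

variable {G : Type}

theorem takePart (c : G) (r : ℝ) {M : Multiset (G → ℝ)} (hM : NN M) (h0 : 0 ≤ r)
    (h1 : r ≤ M.sum c) :
    Force (fun M' => ∃ A B : Multiset (G → ℝ), M' = A + B ∧ A.sum c = r) 1 M := by
  induction M using Multiset.induction_on generalizing r with
  | empty =>
    have hr : r = 0 := le_antisymm (by simpa using h1) h0
    exact Force.done ⟨0, 0, by simp, by rw [hr]; simp⟩
  | cons v M ih =>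
    have hM' : NN M := fun x hx => hM x (Multiset.mem_cons_of_mem hx)
    rw [Multiset.sum_cons, Pi.add_apply] at h1
    by_cases hv : v c ≤ r
    · have h2 := (ih (r - v c) hM' (by linarith) (by linarith)).frame {v}
      have e : M + {v} = v ::ₘ M := by rw [add_comm, Multiset.singleton_add]
      rw [e] at h2
      refine h2.mono le_rfl ?_
      rintro M₂ ⟨M₁, ⟨A, B, rfl, hA⟩, rfl⟩
      refine ⟨v ::ₘ A, B, ?_, ?_⟩
      · rw [add_comm (A + B), Multiset.singleton_add, Multiset.cons_add]
      · rw [Multiset.sum_cons, Pi.add_apply, hA]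
        ring
    · push Not at hv
      refine Force.move v c r h0 hv.le fun v' v'' _ _ _ hd => Force.done ⟨{v'}, v'' ::ₘ M, ?_, ?_⟩
      · rw [Multiset.singleton_add]
      · rw [Multiset.sum_singleton, hd]

private theorem cutEq_aux (c : G) (r : ℝ) (hr : 0 ≤ r) (s : Finset G) (hs : s.Nonempty) :
    ∀ M : Multiset (G → ℝ), NN M → M.sum c = s.card * r →
      Force (fun M' => ∃ P : G → Multiset (G → ℝ), M' = ∑ b ∈ s, P b ∧
        ∀ b ∈ s, (P b).sum c = r) s.card M := by
  classical
  induction hs using Finset.Nonempty.cons_induction with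
  | singleton a =>
    intro M _ hS
    refine Force.done ⟨fun _ => M, by simp, fun b _ => ?_⟩
    simpa using hS
  | cons a s ha hs ih =>
    intro M hM hS
    rw [Finset.card_cons] at hS ⊢
    push_cast at hS
    have hsr : 0 ≤ (s.card : ℝ) * r := mul_nonneg (Nat.cast_nonneg _) hr
    have h1 := takePart c r hM hr (by rw [hS]; nlinarith)
    have h2 := h1.bind_inv (Q := fun M' => ∃ P : G → Multiset (G → ℝ),
      M' = ∑ b ∈ Finset.cons a s ha, P b ∧ ∀ b ∈ Finset.cons a s ha, (P b).sum c = r)
      (N' := s.card) hM (by
        rintro M₁ ⟨A, B, rfl, hA⟩ hN hS1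
        have hB : NN B := fun x hx => hN x (Multiset.mem_add.2 (Or.inr hx))
        have hBS : B.sum c = s.card * r := by
          have h3 := congrFun hS1 c
          rw [Multiset.sum_add, Pi.add_apply, hA, hS] at h3
          linarith
        have h4 := (ih B hB hBS).frame A
        rw [add_comm B] at h4
        refine h4.mono le_rfl ?_
        rintro M₂ ⟨M₁, ⟨P, rfl, hP⟩, rfl⟩
        refine ⟨Function.update P a A, ?_, ?_⟩
        · rw [Finset.sum_cons, Function.update_self, add_comm]
          congr 1
          refine Finset.sum_congr rfl fun b hb => ?_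
          rw [Function.update_of_ne]
          rintro rfl
          exact ha hb
        · intro b hb
          rcases Finset.mem_cons.1 hb with h5 | h5
          · rw [h5, Function.update_self]
            exact hA
          · have h6 : b ≠ a := fun h7 => ha (h7 ▸ h5)
            rw [Function.update_of_ne h6]
            exact hP b h5)
    rw [add_comm] at h2
    exact h2

theorem cutEqual [Fintype G] [Nonempty G] (c : G) {M : Multiset (G → ℝ)} (hM : NN M) :
    Force (fun M' => ∃ P : G → Multiset (G → ℝ), M' = ∑ b, P b ∧
      ∀ b, (P b).sum c = M.sum c / Fintype.card G) (Fintype.card G) M := by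
  have hn : (0 : ℝ) < Fintype.card G := by exact_mod_cast Fintype.card_pos
  have h0 : 0 ≤ M.sum c := (Multiset.sum_nonneg hM : (0 : G → ℝ) ≤ M.sum) c
  have h := cutEq_aux c (M.sum c / Fintype.card G) (by positivity) Finset.univ
    Finset.univ_nonempty M hM (by
      rw [Finset.card_univ]
      field_simp)
  rw [Finset.card_univ] at h
  refine h.mono le_rfl ?_
  rintro M' ⟨P, h1, h2⟩
  exact ⟨P, h1, fun b => h2 b (Finset.mem_univ b)⟩

end H85.Cake
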