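import Mathlib

/-!
# Lifting a decomposition of a multiset along a map   (JOB CAKE-LIFT)

`lift_add`: by induction on `A`: if `L.map f = a ::ₘ A' + B` then `a = f x` with `x ∈ L`,
`L = x ::ₘ L'` (`Multiset.exists_cons_of_mem`), `L'.map f = A' + B`.
`lift_sum`: by induction over the finset sum (state it for `∑ k ∈ s, Y k`, `s : Finset ι`).
-/

namespace H85.Cake

theorem lift_add {α β : Type*} (f : α → β) (L : Multiset α) (A B : Multiset β)
    (h : L.map f = A + B) : ∃ L1 L2 : Multiset α, L = L1 + L2 ∧ L1.map f = A ∧ L2.map f = B := by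
  induction A using Multiset.induction_on generalizing L with
  | empty => exact ⟨0, L, by simp, by simp, by simpa using h⟩
  | cons a A ih =>
    have ha : a ∈ L.map f := by
      rw [h, Multiset.cons_add]
      exact Multiset.mem_cons_self _ _
    obtain ⟨x, hx, rfl⟩ := Multiset.mem_map.1 ha
    obtain ⟨L', rfl⟩ := Multiset.exists_cons_of_mem hx
    rw [Multiset.map_cons, Multiset.cons_add, Multiset.cons_inj_right] at h
    obtain ⟨L1, L2, rfl, rfl, rfl⟩ := ih L' h
    exact ⟨x ::ₘ L1, L2, by rw [Multiset.cons_add], by rw [Multiset.map_cons], rfl⟩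

theorem lift_sum_finset {α β ι : Type*} (f : α → β) (s : Finset ι) (Y : ι → Multiset β) :
    ∀ L : Multiset α, L.map f = ∑ k ∈ s, Y k →
      ∃ Z : ι → Multiset α, L = ∑ k ∈ s, Z k ∧ ∀ k ∈ s, (Z k).map f = Y k := by
  classical
  induction s using Finset.induction_on with
  | empty =>
    intro L h
    rw [Finset.sum_empty, Multiset.map_eq_zero] at h
    exact ⟨fun _ => 0, by simp [h], by simp⟩
  | insert k s hk ih =>
    intro L h
    rw [Finset.sum_insert hk] at h
    obtain ⟨L1, L2, rfl, h1, h2⟩ := lift_add f L _ _ h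
    obtain ⟨Z, rfl, hZ⟩ := ih L2 h2
    refine ⟨Function.update Z k L1, ?_, ?_⟩
    · rw [Finset.sum_insert hk, Function.update_self]
      congr 1
      refine Finset.sum_congr rfl fun j hj => ?_
      rw [Function.update_of_ne]
      rintro rfl
      exact hk hj
    · intro j hj
      rcases Finset.mem_insert.1 hj with h3 | h3
      · rw [h3, Function.update_self, h1]
      · rw [Function.update_of_ne, hZ j h3]
        intro h4
        rw [h4] at h3
        exact hk h3

theorem lift_sum {α β ι : Type*} [Fintype ι] (f : α → β) (L : Multiset α) (Y : ι → Multiset β)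
    (h : L.map f = ∑ k, Y k) :
    ∃ Z : ι → Multiset α, L = ∑ k, Z k ∧ ∀ k, (Z k).map f = Y k := by
  obtain ⟨Z, hZ, hZ2⟩ := lift_sum_finset f Finset.univ Y L h
  exact ⟨Z, hZ, fun k => hZ2 k (Finset.mem_univ k)⟩

end H85.Cake
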