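import Pool.Agent.H85.Cake.Model

/-!
# Basic facts on pieces and valuations   (JOB CAKE-VAL)

Everything is for `V` with `IsValuation V`.

* `isPiece_ordConnected`: an interval (order-connected subset of `[0,1]`) is a piece (`m = 1`).
* `isPiece_union`: union of two pieces (`Fin.append`, or go through `Finset`/`Fin (m+m')`).
* `isPiece_diff_interval`: `X ∖ I` is a piece for a piece `X` and an order-connected `I`
  (each interval minus an interval is the union of the two order-connected sets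
  `{x ∈ J | ∀ y ∈ I, x < y}` and `{x ∈ J | x ∉ I ∧ ¬ ∀ y ∈ I, x < y}`; if `I` is empty trivial).
* `val_empty`: `V ∅ = 0` from `V (∅ ∪ ∅) = V ∅ + V ∅`.
* `val_mono_interval`: `I ⊆ X`, `I` order-connected, `X` a piece: `V I ≤ V X`
  (`X = I ∪ (X ∖ I)`).
* `val_singleton`: points are null: by divisibility there is a piece `Y ⊆ {x}` with
  `V Y = V {x} / 2`, `Y = ∅` or `Y = {x}`, in both cases `V {x} = 0`.
* `val_Icc_add`: `V [a,b] = V [a,y] + V [y,b]` for `0 ≤ a ≤ y ≤ b ≤ 1`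
  (`[a,b] = [a,y] ∪ (y,b]`, `[y,b] = {y} ∪ (y,b]`).
* `val_Ico`: `V [a,b) = V [a,b]` for `0 ≤ a ≤ b ≤ 1`.
-/

namespace H85.Cake

open Set

theorem isPiece_iUnion {ι : Type*} [Finite ι] (I : ι → Set ℝ)
    (h : ∀ a, (I a).OrdConnected ∧ I a ⊆ Icc (0:ℝ) 1) : IsPiece (⋃ a, I a) := by
  obtain ⟨m, ⟨e⟩⟩ := Finite.exists_equiv_fin ι
  refine ⟨m, fun a => I (e.symm a), fun a => h _, ?_⟩
  exact (e.symm.surjective.iUnion_comp I).symm

theorem IsPiece.subset_Icc {X : Set ℝ} (hX : IsPiece X) : X ⊆ Icc (0:ℝ) 1 := by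
  obtain ⟨m, I, hI, rfl⟩ := hX
  exact iUnion_subset fun a => (hI a).2

theorem isPiece_ordConnected {I : Set ℝ} (h : I.OrdConnected) (h' : I ⊆ Icc (0:ℝ) 1) :
    IsPiece I :=
  ⟨1, fun _ => I, fun _ => ⟨h, h'⟩, (iUnion_const I).symm⟩

theorem isPiece_union {X Y : Set ℝ} (hX : IsPiece X) (hY : IsPiece Y) : IsPiece (X ∪ Y) := by
  obtain ⟨m, I, hI, rfl⟩ := hX
  obtain ⟨m', J, hJ, rfl⟩ := hY
  have h := isPiece_iUnion (ι := Fin m ⊕ Fin m') (Sum.elim I J) (by
    rintro (a | a)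
    · exact hI a
    · exact hJ a)
  rw [iUnion_sum] at h
  exact h

theorem isPiece_diff_interval {X I : Set ℝ} (hX : IsPiece X) (hI : I.OrdConnected) :
    IsPiece (X \ I) := by
  obtain ⟨m, J, hJ, rfl⟩ := hX
  have h := isPiece_iUnion (ι := Fin m ⊕ Fin m)
    (Sum.elim (fun a => {x | x ∈ J a ∧ ∀ y ∈ I, x < y})
      (fun a => {x | x ∈ J a ∧ x ∉ I ∧ ¬ ∀ y ∈ I, x < y})) (by
    rintro (a | a)
    · refine ⟨⟨fun x hx z hz y hy => ?_⟩, fun x hx => (hJ a).2 hx.1⟩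
      exact ⟨(hJ a).1.out hx.1 hz.1 hy, fun w hw => hy.2.trans_lt (hz.2 w hw)⟩
    · refine ⟨⟨fun x hx z hz y hy => ?_⟩, fun x hx => (hJ a).2 hx.1⟩
      obtain ⟨hx1, hx2, hx3⟩ := hx
      push Not at hx3
      obtain ⟨w, hw, hwx⟩ := hx3
      refine ⟨(hJ a).1.out hx1 hz.1 hy, fun hyI => hx2 (hI.out hw hyI ⟨hwx, hy.1⟩), fun hcon => ?_⟩
      exact absurd (hcon w hw) (not_lt.2 (hwx.trans hy.1)))
  rw [iUnion_sum] at h
  convert h using 1
  ext x
  simp only [mem_sdiff, mem_iUnion, mem_union, Sum.elim_inl, Sum.elim_inr, mem_ofPred_eq]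
  constructor
  · rintro ⟨⟨a, ha⟩, hx⟩
    by_cases hc : ∀ y ∈ I, x < y
    · exact Or.inl ⟨a, ha, hc⟩
    · exact Or.inr ⟨a, ha, hx, hc⟩
  · rintro (⟨a, ha, hc⟩ | ⟨a, ha, hx, hc⟩)
    · exact ⟨⟨a, ha⟩, fun hx => lt_irrefl _ (hc x hx)⟩
    · exact ⟨⟨a, ha⟩, hx⟩

theorem isPiece_empty : IsPiece (∅ : Set ℝ) :=
  isPiece_ordConnected ordConnected_empty (empty_subset _)

variable {V : Set ℝ → ℝ}

theorem val_empty (hV : IsValuation V) : V ∅ = 0 := by
  have h := hV.add ∅ ∅ isPiece_empty isPiece_empty (disjoint_bot_left)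
  rw [union_self] at h
  linarith

theorem val_mono_interval (hV : IsValuation V) {I X : Set ℝ} (hI : I.OrdConnected)
    (hX : IsPiece X) (h : I ⊆ X) : V I ≤ V X := by
  have h1 := hV.add I (X \ I) (isPiece_ordConnected hI (h.trans hX.subset_Icc))
    (isPiece_diff_interval hX hI) disjoint_sdiff_right
  rw [union_sdiff_cancel h] at h1
  have h2 := hV.nonneg _ (isPiece_diff_interval hX hI)
  linarith

theorem val_singleton (hV : IsValuation V) {x : ℝ} (hx : x ∈ Icc (0:ℝ) 1) : V {x} = 0 := by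
  have hp : IsPiece ({x} : Set ℝ) :=
    isPiece_ordConnected ordConnected_singleton (singleton_subset_iff.2 hx)
  obtain ⟨Y, _, hY, hYV⟩ := hV.divisible {x} hp (1/2) ⟨by norm_num, by norm_num⟩
  rcases subset_singleton_iff_eq.1 hY with h | h
  · rw [h, val_empty hV] at hYV
    linarith
  · rw [h] at hYV
    linarith

theorem val_Icc_add (hV : IsValuation V) {a y b : ℝ} (h0 : 0 ≤ a) (h1 : a ≤ y) (h2 : y ≤ b)
    (h3 : b ≤ 1) : V (Icc a b) = V (Icc a y) + V (Icc y b) := by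
  have p1 : IsPiece (Icc a y) :=
    isPiece_ordConnected ordConnected_Icc (Icc_subset_Icc h0 (h2.trans h3))
  have p2 : IsPiece (Ioc y b) :=
    isPiece_ordConnected ordConnected_Ioc fun z hz => ⟨(h0.trans h1).trans hz.1.le, hz.2.trans h3⟩
  have hy : y ∈ Icc (0:ℝ) 1 := ⟨h0.trans h1, h2.trans h3⟩
  have p3 : IsPiece ({y} : Set ℝ) :=
    isPiece_ordConnected ordConnected_singleton (singleton_subset_iff.2 hy)
  have e1 := hV.add _ _ p1 p2 (by
    rw [Set.disjoint_left]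
    intro z hz hz'
    exact absurd hz.2 (not_le.2 hz'.1))
  have e2 := hV.add _ _ p3 p2 (by
    rw [Set.disjoint_singleton_left]
    exact fun h => lt_irrefl _ h.1)
  rw [Icc_union_Ioc_eq_Icc h1 h2] at e1
  have e3 : ({y} : Set ℝ) ∪ Ioc y b = Icc y b := by
    ext z
    simp only [mem_union, mem_singleton_iff, mem_Ioc, mem_Icc]
    constructor
    · rintro (rfl | h)
      · exact ⟨le_rfl, h2⟩
      · exact ⟨h.1.le, h.2⟩
    · rintro ⟨h4, h5⟩
      rcases h4.eq_or_lt with h | h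
      · exact Or.inl h.symm
      · exact Or.inr ⟨h, h5⟩
  rw [e3, val_singleton hV hy] at e2
  linarith

theorem val_Ico (hV : IsValuation V) {a b : ℝ} (h0 : 0 ≤ a) (h1 : a ≤ b) (h2 : b ≤ 1) :
    V (Ico a b) = V (Icc a b) := by
  have p2 : IsPiece (Ico a b) :=
    isPiece_ordConnected ordConnected_Ico fun z hz => ⟨h0.trans hz.1, hz.2.le.trans h2⟩
  have hb : b ∈ Icc (0:ℝ) 1 := ⟨h0.trans h1, h2⟩
  have p3 : IsPiece ({b} : Set ℝ) :=
    isPiece_ordConnected ordConnected_singleton (singleton_subset_iff.2 hb)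
  have e1 := hV.add _ _ p2 p3 (by
    rw [Set.disjoint_singleton_right]
    exact fun h => lt_irrefl _ h.2)
  have e3 : Ico a b ∪ {b} = Icc a b := by
    ext z
    simp only [mem_union, mem_singleton_iff, mem_Ico, mem_Icc]
    constructor
    · rintro (h | rfl)
      · exact ⟨h.1, h.2.le⟩
      · exact ⟨h1, le_rfl⟩
    · rintro ⟨h4, h5⟩
      rcases h5.eq_or_lt with h | h
      · exact Or.inr h
      · exact Or.inl ⟨h4, h⟩
  rw [e3, val_singleton hV hb] at e1
  linarith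

end H85.Cake
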