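import Pool.Agent.H85.Cake.Defs
import Pool.Agent.H85.Cake.Val
import Pool.Agent.H85.Cake.Lift

/-!
# The output of the protocol   (JOB CAKE-LEAF)

`leafProto`: if the atoms (intervals `[a,b)` with value vectors) can be distributed without envy
then there is an allocation of `[0,1]` such that every agent `i` whose recorded values are true
for his valuation `V` does not envy.

PROOF.  Let `L.map vec = ∑ k, Y k`.
(1) `lift_sum` (file `Lift`, already stated) gives `Lk : Fin n → Multiset _` with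
`L = ∑ k, Lk k` and `(Lk k).map vec = Y k`.
(2) Let `B k = {x | 0 < cnt (Lk k) x}` and `A k = B k`, except `A k0 = B k0 ∪ {1}` for
`k0 = ⟨0, _⟩`.  `∑ k, cnt (Lk k) x = cnt L x` (`Multiset.countP_add`, map_sum), which is `1` on
`[0,1)` and `0` outside.  So the `B k` are disjoint with union `[0,1)`, and the `A k` partition
`[0,1]`.  Each `B k` is the finite union of the intervals `[a,b)`, `(a,b,v) ∈ Lk k` (subsets of
`[0,1]`), so it is a piece (induction on the multiset, `isPiece_union`).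
(3) If `V` is a valuation with `Knows L i V` then `V (B k) = ((Lk k).map (vec · i)).sum = (Y k).sum i`:
by induction on the multiset `S = Lk k`: `{0 < cnt (s ::ₘ S)} = Ico s.1 s.2.1 ∪ {0 < cnt S}`
disjointly because `cnt (s ::ₘ S) x ≤ 1`, and `V (Ico a b) = V (Icc a b)` (`val_Ico`).
`V (A k0) = V (B k0) + V {1} = V (B k0)` (`val_singleton`).
So `V (A j) = (Y j).sum i ≤ (Y i).sum i = V (A i)`.
-/

namespace H85.Cake

open Set

section

variable {α : Type}

theorem cnt_zero (x : ℝ) : cnt (0 : Multiset (ℝ × ℝ × α)) x = 0 := by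
  classical
  simp [cnt]

theorem cnt_cons_of_mem {s : ℝ × ℝ × α} {S : Multiset (ℝ × ℝ × α)} {x : ℝ}
    (h : x ∈ Ico s.1 s.2.1) : cnt (s ::ₘ S) x = cnt S x + 1 := by
  classical
  exact Multiset.countP_cons_of_pos (p := fun a : ℝ × ℝ × α => x ∈ Ico a.1 a.2.1) S h

theorem cnt_cons_of_notMem {s : ℝ × ℝ × α} {S : Multiset (ℝ × ℝ × α)} {x : ℝ}
    (h : x ∉ Ico s.1 s.2.1) : cnt (s ::ₘ S) x = cnt S x := by
  classical
  exact Multiset.countP_cons_of_neg (p := fun a : ℝ × ℝ × α => x ∈ Ico a.1 a.2.1) S h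

theorem cnt_add (S T : Multiset (ℝ × ℝ × α)) (x : ℝ) : cnt (S + T) x = cnt S x + cnt T x := by
  classical
  unfold cnt
  rw [Multiset.countP_add]

theorem cnt_sum {ι : Type*} (s : Finset ι) (Z : ι → Multiset (ℝ × ℝ × α)) (x : ℝ) :
    cnt (∑ k ∈ s, Z k) x = ∑ k ∈ s, cnt (Z k) x := by
  classical
  induction s using Finset.induction_on with
  | empty => simp [cnt_zero]
  | insert a s ha ih => rw [Finset.sum_insert ha, Finset.sum_insert ha, cnt_add, ih]

/-- the union of the half-open intervals of the list -/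
def bSet (S : Multiset (ℝ × ℝ × α)) : Set ℝ := {x | 0 < cnt S x}

theorem mem_bSet {S : Multiset (ℝ × ℝ × α)} {x : ℝ} : x ∈ bSet S ↔ 0 < cnt S x := Iff.rfl

theorem bSet_zero : bSet (0 : Multiset (ℝ × ℝ × α)) = ∅ := by
  ext x
  simp [mem_bSet, cnt_zero]

theorem bSet_cons (s : ℝ × ℝ × α) (S : Multiset (ℝ × ℝ × α)) :
    bSet (s ::ₘ S) = Ico s.1 s.2.1 ∪ bSet S := by
  ext x
  rw [mem_union, mem_bSet, mem_bSet]
  by_cases h : x ∈ Ico s.1 s.2.1
  · rw [cnt_cons_of_mem h]
    exact ⟨fun _ => Or.inl h, fun _ => Nat.succ_pos _⟩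
  · rw [cnt_cons_of_notMem h]
    exact ⟨Or.inr, fun h' => h'.resolve_left h⟩

theorem isPiece_Ico {a b : ℝ} (h0 : 0 ≤ a) (h1 : b ≤ 1) : IsPiece (Ico a b) :=
  isPiece_ordConnected ordConnected_Ico fun _ hz => ⟨h0.trans hz.1, hz.2.le.trans h1⟩

theorem isPiece_bSet (S : Multiset (ℝ × ℝ × α))
    (h : ∀ a ∈ S, 0 ≤ a.1 ∧ a.1 ≤ a.2.1 ∧ a.2.1 ≤ 1) : IsPiece (bSet S) := by
  induction S using Multiset.induction_on with
  | empty => rw [bSet_zero]; exact isPiece_empty
  | cons s S ih =>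
    rw [bSet_cons]
    have hs := h s (Multiset.mem_cons_self _ _)
    exact isPiece_union (isPiece_Ico hs.1 hs.2.2) (ih fun a ha => h a (Multiset.mem_cons_of_mem ha))

end

theorem val_bSet {n : ℕ} {i : Fin n} {V : Set ℝ → ℝ} (hV : IsValuation V)
    (S : Multiset (ℝ × ℝ × (Fin n → ℝ)))
    (h : ∀ a ∈ S, 0 ≤ a.1 ∧ a.1 ≤ a.2.1 ∧ a.2.1 ≤ 1) (hc : ∀ x, cnt S x ≤ 1)
    (hK : Knows S i V) : V (bSet S) = (S.map (fun a => a.2.2)).sum i := by
  induction S using Multiset.induction_on with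
  | empty => rw [bSet_zero, val_empty hV]; simp
  | cons s S ih =>
    have hs := h s (Multiset.mem_cons_self _ _)
    have h' : ∀ a ∈ S, 0 ≤ a.1 ∧ a.1 ≤ a.2.1 ∧ a.2.1 ≤ 1 :=
      fun a ha => h a (Multiset.mem_cons_of_mem ha)
    have hc' : ∀ x, cnt S x ≤ 1 := by
      intro x
      refine le_trans ?_ (hc x)
      by_cases hx : x ∈ Ico s.1 s.2.1
      · rw [cnt_cons_of_mem hx]; exact Nat.le_succ _
      · rw [cnt_cons_of_notMem hx]
    have hK' : Knows S i V := fun a ha => hK a (Multiset.mem_cons_of_mem ha)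
    have hd : Disjoint (Ico s.1 s.2.1) (bSet S) := by
      rw [Set.disjoint_left]
      intro x hx hx'
      have h1 := hc x
      rw [cnt_cons_of_mem hx] at h1
      rw [mem_bSet] at hx'
      omega
    rw [bSet_cons, hV.add _ _ (isPiece_Ico hs.1 hs.2.2) (isPiece_bSet S h') hd,
      val_Ico hV hs.1 hs.2.1 hs.2.2, ih h' hc' hK', hK s (Multiset.mem_cons_self _ _)]
    simp

theorem leafProto {n : ℕ} (hn : 1 ≤ n) (L : Multiset (ℝ × ℝ × (Fin n → ℝ))) (hG : Geo L)
    (h : EFdiv (L.map (fun a => a.2.2))) :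
    ∃ A : Fin n → Set ℝ, IsAllocation A ∧
      ∀ i V, IsValuation V → Knows L i V → ∀ j, V (A j) ≤ V (A i) := by
  classical
  obtain ⟨Y, hY, hEF⟩ := h
  obtain ⟨Z, hZ, hZY⟩ := lift_sum _ L Y hY
  obtain ⟨hG1, hG2, hG3⟩ := hG
  have hmem : ∀ k, ∀ a ∈ Z k, a ∈ L := by
    intro k a ha
    rw [hZ]
    exact Multiset.mem_sum.2 ⟨k, Finset.mem_univ k, ha⟩
  have hcs : ∀ x, ∑ k, cnt (Z k) x = cnt L x := by
    intro x
    rw [← cnt_sum, ← hZ]
  have hcle : ∀ x, cnt L x ≤ 1 := by
    intro x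
    by_cases hx : x ∈ Ico (0:ℝ) 1
    · rw [hG2 x hx]
    · rw [hG3 x hx]; exact Nat.zero_le _
  have hck : ∀ k x, cnt (Z k) x ≤ 1 := by
    intro k x
    refine le_trans ?_ (hcle x)
    rw [← hcs x]
    exact Finset.single_le_sum (f := fun k => cnt (Z k) x) (fun _ _ => Nat.zero_le _)
      (Finset.mem_univ k)
  have hdis : ∀ j k x, j ≠ k → x ∈ bSet (Z j) → x ∉ bSet (Z k) := by
    intro j k x hjk hj hk
    rw [mem_bSet] at hj hk
    have h1 := hcs x
    have h2 : cnt (Z j) x + cnt (Z k) x ≤ ∑ k, cnt (Z k) x := by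
      rw [← Finset.sum_pair hjk (f := fun k => cnt (Z k) x)]
      exact Finset.sum_le_sum_of_subset (Finset.subset_univ _)
    have h3 := hcle x
    omega
  have hsub : ∀ k, bSet (Z k) ⊆ Ico (0:ℝ) 1 := by
    intro k x hx
    by_contra hcon
    rw [mem_bSet] at hx
    have h1 := hcs x
    rw [hG3 x hcon] at h1
    have h2 := Finset.sum_eq_zero_iff.1 h1 k (Finset.mem_univ k)
    omega
  have hpZ : ∀ k, IsPiece (bSet (Z k)) := fun k => isPiece_bSet _ fun a ha => hG1 a (hmem k a ha)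
  have h1I : (1:ℝ) ∈ Icc (0:ℝ) 1 := ⟨zero_le_one, le_rfl⟩
  have hp1 : IsPiece ({1} : Set ℝ) :=
    isPiece_ordConnected ordConnected_singleton (singleton_subset_iff.2 h1I)
  let k0 : Fin n := ⟨0, hn⟩
  refine ⟨fun k => if k = k0 then bSet (Z k) ∪ {1} else bSet (Z k), ⟨?_, ?_, ?_⟩, ?_⟩
  · intro k
    show IsPiece (if k = k0 then bSet (Z k) ∪ {1} else bSet (Z k))
    split_ifs
    · exact isPiece_union (hpZ k) hp1
    · exact hpZ k
  · intro j k hjk
    show Disjoint (if j = k0 then bSet (Z j) ∪ {1} else bSet (Z j))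
      (if k = k0 then bSet (Z k) ∪ {1} else bSet (Z k))
    have hn1 : ∀ k, (1:ℝ) ∉ bSet (Z k) := fun k hk => lt_irrefl _ (hsub k hk).2
    rw [Set.disjoint_left]
    intro x hx hx'
    have hxj : x ∈ bSet (Z j) ∨ (j = k0 ∧ x = 1) := by
      split_ifs at hx with hj
      · rcases hx with hx | hx
        · exact Or.inl hx
        · exact Or.inr ⟨hj, hx⟩
      · exact Or.inl hx
    have hxk : x ∈ bSet (Z k) ∨ (k = k0 ∧ x = 1) := by
      split_ifs at hx' with hk
      · rcases hx' with hx' | hx'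
        · exact Or.inl hx'
        · exact Or.inr ⟨hk, hx'⟩
      · exact Or.inl hx'
    rcases hxj with hxj | ⟨hj, rfl⟩
    · rcases hxk with hxk | ⟨hk, rfl⟩
      · exact hdis j k x hjk hxj hxk
      · exact hn1 _ hxj
    · rcases hxk with hxk | ⟨hk, _⟩
      · exact hn1 _ hxk
      · exact hjk (hj.trans hk.symm)
  · apply Subset.antisymm
    · apply iUnion_subset
      intro k
      show (if k = k0 then bSet (Z k) ∪ {1} else bSet (Z k)) ⊆ Icc (0:ℝ) 1
      split_ifs
      · exact union_subset ((hsub k).trans Ico_subset_Icc_self) (singleton_subset_iff.2 h1I)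
      · exact (hsub k).trans Ico_subset_Icc_self
    · intro x hx
      rw [mem_iUnion]
      rcases hx.2.eq_or_lt with h1 | h1
      · refine ⟨k0, ?_⟩
        show x ∈ (if k0 = k0 then bSet (Z k0) ∪ {1} else bSet (Z k0))
        rw [if_pos rfl]
        exact Or.inr h1
      · have h2 : ∑ k, cnt (Z k) x ≠ 0 := by
          rw [hcs x, hG2 x ⟨hx.1, h1⟩]
          exact one_ne_zero
        obtain ⟨k, _, hk⟩ := Finset.exists_ne_zero_of_sum_ne_zero h2
        refine ⟨k, ?_⟩
        have hk' : x ∈ bSet (Z k) := Nat.pos_of_ne_zero hk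
        show x ∈ (if k = k0 then bSet (Z k) ∪ {1} else bSet (Z k))
        split_ifs
        · exact Or.inl hk'
        · exact hk'
  · intro i V hV hK
    have key : ∀ j, V (if j = k0 then bSet (Z j) ∪ {1} else bSet (Z j)) = (Y j).sum i := by
      intro j
      have h1 : V (bSet (Z j)) = (Y j).sum i := by
        rw [val_bSet hV (Z j) (fun a ha => hG1 a (hmem j a ha)) (hck j)
          (fun a ha => hK a (hmem j a ha)), hZY j]
      split_ifs
      · rw [hV.add _ _ (hpZ j) hp1 (by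
          rw [Set.disjoint_singleton_right]
          exact fun h => lt_irrefl _ (hsub j h).2), val_singleton hV h1I, add_zero, h1]
      · exact h1
    intro j
    show V (if j = k0 then bSet (Z j) ∪ {1} else bSet (Z j)) ≤
      V (if i = k0 then bSet (Z i) ∪ {1} else bSet (Z i))
    rw [key, key]
    exact hEF i j

end H85.Cake
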