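import Pool.Agent.H85.Cake.MoveP
import Pool.Agent.H85.Cake.Leaf

/-!
# A strategy in the split game gives an envy-free protocol   (JOB CAKE-REAL)

`realize_aux`: induction on `hF : Force EFdiv N M` with `L` generalized.
* `done`: `leafProto`, `P = leaf A` (`NoEnvy` of a leaf is the statement of `leafProto`).
* `move v i r`: `L.map vec = v ::ₘ M₀`, so `L = s ::ₘ L₀` with `s = (a,b,v)`,
  `L₀.map vec = M₀` (`Multiset.mem_map`, `Multiset.exists_cons_of_mem`).  Apply `moveProto` with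
  `C k V := Knows L₀ k V`; for `F y v'` use the induction hypothesis with `v'' = v - v'` and
  `L' = (a,y,v') ::ₘ (y,b,v-v') ::ₘ L₀`: `Geo L'` holds because `[a,b) = [a,y) ∪ [y,b)` disjointly
  (so `cnt L' x = cnt L x`), NN is clear.
`realize`: ask all agents for the value of `[0,1]` (`evalAll`), replace the answers `w` by
`max 0 w` and use `realize_aux` with `L = {(0,1,v)}` (a truthful agent answers
`V (Icc 0 1) ≥ 0`).
-/

namespace H85.Cake

open Set

theorem realize_cnt_cons {α : Type} (s : ℝ × ℝ × α) (L : Multiset (ℝ × ℝ × α)) (x : ℝ) :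
    cnt (s ::ₘ L) x = cnt L x + cnt {s} x := by
  classical
  unfold cnt
  rw [← Multiset.singleton_add, Multiset.countP_add, add_comm]

theorem realize_cnt_single {α : Type} (a b : ℝ) (v : α) (x : ℝ) :
    (x ∈ Ico a b → cnt {((a, b, v) : ℝ × ℝ × α)} x = 1) ∧
      (x ∉ Ico a b → cnt {((a, b, v) : ℝ × ℝ × α)} x = 0) := by
  classical
  constructor
  · intro h
    unfold cnt
    rw [← Multiset.cons_zero, Multiset.countP_cons_of_pos (p := fun s : ℝ × ℝ × α => x ∈ Ico s.1 s.2.1)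
      0 h, Multiset.countP_zero]
  · intro h
    unfold cnt
    rw [← Multiset.cons_zero, Multiset.countP_cons_of_neg (p := fun s : ℝ × ℝ × α => x ∈ Ico s.1 s.2.1)
      0 h, Multiset.countP_zero]

theorem realize_cnt_split {α : Type} {a y b : ℝ} (hay : a ≤ y) (hyb : y ≤ b) (v v' v'' : α)
    (x : ℝ) : cnt {((a, y, v') : ℝ × ℝ × α)} x + cnt {((y, b, v'') : ℝ × ℝ × α)} x =
      cnt {((a, b, v) : ℝ × ℝ × α)} x := by
  by_cases h : x ∈ Ico a b
  · rw [(realize_cnt_single a b v x).1 h]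
    rcases lt_or_ge x y with hx | hx
    · rw [(realize_cnt_single a y v' x).1 ⟨h.1, hx⟩,
        (realize_cnt_single y b v'' x).2 (fun h' => absurd h'.1 (not_le.2 hx))]
    · rw [(realize_cnt_single a y v' x).2 (fun h' => absurd h'.2 (not_lt.2 hx)),
        (realize_cnt_single y b v'' x).1 ⟨hx, h.2⟩]
  · rw [(realize_cnt_single a b v x).2 h,
      (realize_cnt_single a y v' x).2 (fun h' => h ⟨h'.1, h'.2.trans_le hyb⟩),
      (realize_cnt_single y b v'' x).2 (fun h' => h ⟨hay.trans h'.1, h'.2⟩)]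

theorem realize_geo_split {α : Type} {a y b : ℝ} (hay : a ≤ y) (hyb : y ≤ b) (v v' v'' : α)
    {L : Multiset (ℝ × ℝ × α)} (hG : Geo ((a, b, v) ::ₘ L)) :
    Geo ((a, y, v') ::ₘ (y, b, v'') ::ₘ L) := by
  have hc : ∀ x, cnt ((a, y, v') ::ₘ (y, b, v'') ::ₘ L) x = cnt ((a, b, v) ::ₘ L) x := by
    intro x
    rw [realize_cnt_cons, realize_cnt_cons, realize_cnt_cons,
      ← realize_cnt_split hay hyb v v' v'' x]
    omega
  obtain ⟨ha, hab, hb⟩ := hG.1 (a, b, v) (Multiset.mem_cons_self _ _)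
  refine ⟨fun s hs => ?_, fun x hx => by rw [hc, hG.2.1 x hx], fun x hx => by
    rw [hc, hG.2.2 x hx]⟩
  rw [Multiset.mem_cons, Multiset.mem_cons] at hs
  rcases hs with rfl | rfl | hs
  · exact ⟨ha, hay, hyb.trans hb⟩
  · exact ⟨ha.trans hay, hyb, hb⟩
  · exact hG.1 s (Multiset.mem_cons_of_mem hs)

theorem realize_aux {n : ℕ} (hn : 1 ≤ n) {N : ℕ} {M : Multiset (Fin n → ℝ)}
    (hF : Force EFdiv N M) (hM : NN M) (L : Multiset (ℝ × ℝ × (Fin n → ℝ)))
    (hL : L.map (fun a => a.2.2) = M) (hG : Geo L) :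
    ∃ P : Proto n, P.Legal ∧ P.Within ((n + 1) * N) ∧
      ∀ i V, IsValuation V → Knows L i V → P.NoEnvy i V := by
  induction hF generalizing L with
  | @done N M h =>
    obtain ⟨A, hA, hA2⟩ := leafProto hn L hG (by rw [hL]; exact h)
    exact ⟨Proto.leaf A, hA, trivial, fun i V hV hK => hA2 i V hV hK⟩
  | @move N M₀ v i r h0 h1 h ih =>
    have hv : v ∈ L.map (fun a => a.2.2) := by
      rw [hL]
      exact Multiset.mem_cons_self _ _
    obtain ⟨⟨a, b, v1⟩, hs, rfl⟩ := Multiset.mem_map.1 hv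
    obtain ⟨L₀, rfl⟩ := Multiset.exists_cons_of_mem hs
    rw [Multiset.map_cons] at hL
    have hL₀ := (Multiset.cons_inj_right _).1 hL
    obtain ⟨ha, hab, hb⟩ := hG.1 (a, b, v1) (Multiset.mem_cons_self _ _)
    have hv1 : 0 ≤ v1 := hM v1 (Multiset.mem_cons_self _ _)
    obtain ⟨P, hP1, hP2, hP3⟩ := moveProto ha hab hb v1 hv1 i r h0 h1 ((n + 1) * N)
      (fun k V => Knows L₀ k V) (fun y v' hay hyb hv0 hvv hvi => by
        obtain ⟨P, hP1, hP2, hP3⟩ := ih v' (v1 - v') hv0 (sub_nonneg.2 hvv)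
          (add_sub_cancel _ _) hvi (by
            intro w hw
            rw [Multiset.mem_cons, Multiset.mem_cons] at hw
            rcases hw with rfl | rfl | hw
            · exact hv0
            · exact sub_nonneg.2 hvv
            · exact hM w (Multiset.mem_cons_of_mem hw))
          ((a, y, v') ::ₘ (y, b, v1 - v') ::ₘ L₀)
          (by rw [Multiset.map_cons, Multiset.map_cons, hL₀])
          (realize_geo_split hay hyb v1 v' (v1 - v') hG)
        refine ⟨P, hP1, hP2, fun k V hV h2 h3 h4 => hP3 k V hV ?_⟩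
        intro s hs
        rw [Multiset.mem_cons, Multiset.mem_cons] at hs
        rcases hs with rfl | rfl | hs
        · exact h2
        · exact h3
        · exact h4 s hs)
    refine ⟨P, hP1, by
      have h2 : (n + 1) * (N + 1) = (n + 1) * N + n + 1 := by ring
      rw [h2]
      exact hP2, fun k V hV hK => hP3 k V hV ?_ ?_⟩
    · exact hK (a, b, v1) (Multiset.mem_cons_self _ _)
    · intro s hs
      exact hK s (Multiset.mem_cons_of_mem hs)

theorem realize {n : ℕ} (hn : 1 ≤ n) (N : ℕ)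
    (h : ∀ v : Fin n → ℝ, 0 ≤ v → Force EFdiv N {v}) :
    ∃ P : Proto n, P.EnvyFree ∧ P.Within (n + (n + 1) * N) := by
  have h01 : (0 : ℝ) ∈ Icc (0 : ℝ) 1 := ⟨le_rfl, zero_le_one⟩
  have h11 : (1 : ℝ) ∈ Icc (0 : ℝ) 1 := ⟨zero_le_one, le_rfl⟩
  have key : ∀ a : Fin n → ℝ, ∃ P : Proto n, P.Legal ∧ P.Within ((n + 1) * N) ∧
      ∀ i V, IsValuation V → Knows {((0 : ℝ), (1 : ℝ), fun k => max 0 (a k))} i V →
        P.NoEnvy i V := by
    intro a
    have hv : (0 : Fin n → ℝ) ≤ fun k => max 0 (a k) := fun k => le_max_left _ _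
    refine realize_aux hn (h _ hv) ?_ _ (by rw [Multiset.map_singleton]) ?_
    · intro w hw
      rw [Multiset.mem_singleton] at hw
      rw [hw]
      exact hv
    · refine ⟨fun s hs => ?_, fun x hx => ?_, fun x hx => ?_⟩
      · rw [Multiset.mem_singleton] at hs
        rw [hs]
        exact ⟨le_rfl, zero_le_one, le_rfl⟩
      · exact (realize_cnt_single 0 1 _ x).1 hx
      · exact (realize_cnt_single 0 1 _ x).2 hx
  choose f hf1 hf2 hf3 using key
  obtain ⟨P, hP1, hP2, hP3⟩ := evalAll h01 h11 f ((n + 1) * N) hf1 hf2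
  refine ⟨P, ⟨hP1, fun i V hV => hP3 i V fun a ha => hf3 a i V hV ?_⟩, hP2⟩
  intro s hs
  rw [Multiset.mem_singleton] at hs
  rw [hs]
  have h2 : 0 ≤ V (Icc (0 : ℝ) 1) := hV.nonneg _
    ⟨1, fun _ => Icc 0 1, fun _ => ⟨ordConnected_Icc, le_rfl⟩, (iUnion_const _).symm⟩
  change V (Icc (0 : ℝ) 1) = max 0 (a i)
  rw [ha, max_eq_right h2]

end H85.Cake
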