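import Pool.Agent.H85.Cake.PhaseC

/-!
# The main loop   (JOB CAKE-LOOP)

`loop`: for fixed `G` (`n = card G ≥ 2`) and given a bound `C'` for all proper nonempty subsets of agents:
for every `m` and all `β`, `R` with `n^2 ≤ (Dset β R.sum).card + m` (and envy-freeness, nonnegative
atoms) `Force (Compl β) (m * phaseCost T n + C') R`.  Induction on `m`.
 * If there is a nonempty `S ≠ univ` such that for all `k ∉ S`, `l ∈ S`: `R.sum k ≤ β k k - β l k`:
   `EFdiv.compl_of_dominance` with the induction hypothesis on the number of agents (the map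
   `v ↦ v ∘ val` keeps atoms nonnegative).
 * Otherwise `hND` holds and `phase` applies: new bundles `β'' k = β (τ k) + (y k).sum`, residual `R'`
   with `(Dset ..).card` increased by `≥ 1`; if `m = 0` this contradicts `Dset.card ≤ n^2`; else the
   induction hypothesis for `R'` (frame rule: `∑ y k`), and `Compl.transfer`.

`main`: strong induction on `n = card G`: `cost T n` moves suffice, `cost T 0 = 0`,
`cost T (n+1) = (n+1)^2 * phaseCost T (n+1) + cost T n`.  For `n = 1`: the unique agent takes
everything (`Force.done`).  For `n ≥ 2`: `loop` with `m = n^2`, `β = 0`, `C' = cost T (n-1)`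
(`cost` is monotone: `cost_mono`), `Compl.efdiv`.
-/

namespace H85.Cake

/-- Total cost. -/
def cost (T : ℕ → ℕ) : ℕ → ℕ
  | 0 => 0
  | n + 1 => (n + 1) ^ 2 * phaseCost T (n + 1) + cost T n

theorem cost_mono (T : ℕ → ℕ) {a b : ℕ} (h : a ≤ b) : cost T a ≤ cost T b := by
  induction h with
  | refl => exact le_rfl
  | step h ih => exact ih.trans (by simp [cost])

theorem Dset_card_lt {G : Type} [Fintype G] [Nonempty G] (β : G → G → ℝ) (r : G → ℝ) :
    (Dset β r).card < Fintype.card G ^ 2 := by
  classical
  have h1 : (Dset β r).card < (Finset.univ : Finset (G × G)).card := by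
    apply Finset.card_lt_card
    rw [Finset.ssubset_univ_iff]
    intro h
    have h2 : ((Classical.arbitrary G, Classical.arbitrary G) : G × G) ∈ Dset β r := by
      rw [h]
      exact Finset.mem_univ _
    rw [Dset, Finset.mem_filter] at h2
    exact h2.2.1 rfl
  rw [Finset.card_univ, Fintype.card_prod] at h1
  rw [sq]
  exact h1

theorem loop {T : ℕ → ℕ} (hT : TrimStatement T) {G : Type} [Fintype G] [DecidableEq G] [Nonempty G]
    (h2 : 2 ≤ Fintype.card G) (C' : ℕ)
    (ih : ∀ S : Finset G, S.Nonempty → S ≠ Finset.univ → ∀ M : Multiset ({x // x ∈ S} → ℝ),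
      NN M → Force EFdiv C' M) (m : ℕ) : ∀ (β : G → G → ℝ) (R : Multiset (G → ℝ)),
      (∀ k b, β b k ≤ β k k) → NN R →
      Fintype.card G ^ 2 ≤ (Dset β (fun k => R.sum k)).card + m →
      Force (Compl β) (m * phaseCost T (Fintype.card G) + C') R := by
  induction m with
  | zero =>
    intro β R _ _ h
    have := Dset_card_lt β (fun k => R.sum k)
    omega
  | succ m ihm =>
    intro β R hef hR hcard
    by_cases hA : ∃ S : Finset G, S.Nonempty ∧ S ≠ Finset.univ ∧
        ∀ k, k ∉ S → ∀ l ∈ S, R.sum k ≤ β k k - β l k
    · obtain ⟨S, hS1, hS2, hS3⟩ := hA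
      have h1 := EFdiv.compl_of_dominance hR hef S
        (fun k hk b hb => by linarith [hS3 k hk b hb])
        (ih S hS1 hS2 (R.map (fun v => v ∘ (Subtype.val : {x // x ∈ S} → G))) (by
          intro v hv
          obtain ⟨u, hu, rfl⟩ := Multiset.mem_map.1 hv
          exact fun a => hR u hu a.1))
      exact h1.mono (by omega) (fun _ h => h)
    · push Not at hA
      have hph := phase hT h2 hef hR hA
      have h3 := hph.bind_inv (N' := m * phaseCost T (Fintype.card G) + C')
        (Q := Compl β) hR (by
        rintro M' ⟨τ, y, R', rfl, hy, hD⟩ hNN -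
        have hR' : NN R' := fun v hv => hNN v (Multiset.mem_add.2 (Or.inr hv))
        have h4 := ihm (fun k a => β (τ k) a + (y k).sum a) R' (fun k b => hy k b) hR' (by omega)
        have h5 := h4.frame (∑ k, y k)
        rw [add_comm R'] at h5
        refine h5.mono le_rfl ?_
        rintro M'' ⟨M₁, hM₁, rfl⟩
        rw [add_comm]
        exact hM₁.transfer τ y fun k a => rfl)
      refine h3.mono ?_ (fun _ h => h)
      have : (m + 1) * phaseCost T (Fintype.card G) =
        m * phaseCost T (Fintype.card G) + phaseCost T (Fintype.card G) := by ring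
      omega

theorem main {T : ℕ → ℕ} (hT : TrimStatement T) (n : ℕ) :
    ∀ (G : Type) [Fintype G] [DecidableEq G] [Nonempty G], Fintype.card G = n →
      ∀ M : Multiset (G → ℝ), NN M → Force EFdiv (cost T n) M := by
  induction n using Nat.strong_induction_on with
  | _ n ih =>
    intro G _ _ _ hn M hM
    rcases Nat.lt_or_ge n 2 with h | h
    · have hpos : 0 < Fintype.card G := Fintype.card_pos
      have h1 : Fintype.card G = 1 := by omega
      have hsub : Subsingleton G := Fintype.card_le_one_iff_subsingleton.1 h1.le
      refine .done ⟨fun _ => M, ?_, fun k l => le_rfl⟩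
      rw [Finset.sum_const, Finset.card_univ, h1, one_nsmul]
    · obtain ⟨n', rfl⟩ : ∃ n', n = n' + 1 := ⟨n - 1, by omega⟩
      have h3 := loop hT (G := G) (by omega) (cost T n') (by
        intro S hS1 hS2 M' hM'
        have : Nonempty {x // x ∈ S} := ⟨⟨hS1.choose, hS1.choose_spec⟩⟩
        have hc : Fintype.card {x // x ∈ S} < n' + 1 := by
          rw [← hn, Fintype.card_coe]
          exact Finset.card_lt_univ_of_notMem (s := S)
            (x := (Finset.exists_mem_notMem_of_card_lt_card (s := S) (t := Finset.univ) (by
              have := Finset.card_lt_card (Finset.ssubset_univ_iff.2 hS2)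
              exact this)).choose)
            (Finset.exists_mem_notMem_of_card_lt_card (s := S) (t := Finset.univ) (by
              have := Finset.card_lt_card (Finset.ssubset_univ_iff.2 hS2)
              exact this)).choose_spec.2
        exact (ih _ hc {x // x ∈ S} rfl M' hM').mono (cost_mono T (by omega)) (fun _ h => h))
        ((n' + 1) ^ 2) (fun _ _ => 0) M (fun _ _ => le_rfl) hM (by rw [hn]; omega)
      rw [hn] at h3
      exact h3.mono le_rfl (fun _ h => h.efdiv)

end H85.Cake
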