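import Pool.Agent.H85.Cake.Phase

/-!
# Second case of a phase   (JOB CAKE-PHB)

`phaseB`.  `n = card G`, `A k b = β k k - β b k`, `δ k b = (x k).sum k - (x b).sum k`,
`r' k = R1.sum k > 0`.
PROOF.  `select` (with `r`, `r'`) gives `i ≤ n^2`, `π`, `w`, `l`.  `lo = zet n (i+1)`, `hi = zet n i`,
`β' b a = β b a + (x (π b)).sum a`, `U k = β k k + (x k).sum k`, so
`U k - β' b k = A k b + δ k (π b)`.  `e = n + (2n+4)(i+1) - 2`, so `lo = 1/2^(e+2)`,
`Nat.clog 2 (n*n) ≤ 2 n ≤ e` (`n*n ≤ 2^(2n)`), `1 ≤ e ≤ emax n`.  `fix` gives `μ`, `y`, `R'`.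
Then `shrink (emax n)` for `R'` (frame: `∑ y b`): `x' k`, `R''` with `R''.sum k ≤ R'.sum k / 2^(emax n)`
and `1/2^(emax n) ≤ hi/2` (`hi = 1/2^(n+(2n+4) i)`, `n + (2n+4) i + 1 ≤ emax n` as `i ≤ n^2`).
PHASEOUT: `τ = μ`, new part of bundle `k`: `x (π (μ k)) + y (μ k) + x' k`, residual `R''`.
The position at the end plus `∑ x k` is `∑ k, (x (π (μ k)) + y (μ k) + x' k) + R''`
(reindexing by `π ∘ μ` and `μ`).
EF: `β (μ l) k + (x (π (μ l))).sum k + (y (μ l)).sum k = β' (μ l) k + (y (μ l)).sum k ≤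
β' (μ k) k + (y (μ k)).sum k`, and `x'` is envy-free.
DOMINATIONS: let `E = {(k,b) | hi * r' k ≤ U k - β' b k}`.  `E` contains `Dset β r` (last property
of `select`) and `(w,l)`, which is not in `Dset β r` (`A w l < r w`): `E.card ≥ (Dset β r).card + 1`.
The injective map `(k,b) ↦ (k, μ.symm b)` sends `E` into the new `Dset`: for `(k,b) ∈ E`, with
`b = μ l'`: gap of `k` for the new bundle `l'` is
`≥ (β' (μ k) k + (y (μ k)).sum k) - (β' b k + (y b).sum k) ≥ hi/2 * r' k ≥ R''.sum k`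
(`R'.sum k ≤ r' k` by the invariants), and `k ≠ l'` since for `l' = k` the middle difference is `0`
but `hi/2 * r' k > 0`.
Costs: `fix` with `e ≤ emax`: its cost is monotone in `e`: `≤ fixCost`.
-/

namespace H85.Cake

variable {G : Type}

/-- numerics: the exponent -/
theorem phaseB_num {n i : ℕ} (hn : 2 ≤ n) (hi : i ≤ n ^ 2) :
    ∃ e : ℕ, e + 2 = n + (2 * n + 4) * (i + 1) ∧ 1 ≤ e ∧ Nat.clog 2 (n * n) ≤ e ∧ e ≤ emax n := by
  refine ⟨n + (2 * n + 4) * (i + 1) - 2, ?_, ?_, ?_, ?_⟩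
  · have : 0 ≤ (2 * n + 4) * i := Nat.zero_le _
    rw [mul_add]
    omega
  · have : 0 ≤ (2 * n + 4) * i := Nat.zero_le _
    rw [mul_add]
    omega
  · have h1 : Nat.clog 2 (n * n) ≤ 2 * n := by
      apply Nat.clog_le_of_le_pow
      have h2 : n ≤ 2 ^ n := Nat.lt_two_pow_self.le
      calc n * n ≤ 2 ^ n * 2 ^ n := Nat.mul_le_mul h2 h2
        _ = 2 ^ (2 * n) := by rw [← pow_add]; congr 1; omega
    refine h1.trans ?_
    rw [mul_add]
    have : 0 ≤ (2 * n + 4) * i := Nat.zero_le _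
    omega
  · unfold emax
    have h1 : (2 * n + 4) * (i + 1) ≤ (2 * n + 4) * (n ^ 2 + 1) := Nat.mul_le_mul_left _ (by omega)
    omega

theorem phaseB_num2 {n i : ℕ} (hi : i ≤ n ^ 2) : (1:ℝ) / 2 ^ emax n ≤ zet n i / 2 := by
  unfold zet
  have h1 : n + (2 * n + 4) * i + 1 ≤ emax n := by
    unfold emax
    have h2 : (2 * n + 4) * (i + 1) ≤ (2 * n + 4) * (n ^ 2 + 1) := Nat.mul_le_mul_left _ (by omega)
    rw [mul_add (2 * n + 4) i 1] at h2
    omega
  have h3 : (1:ℝ) / 2 ^ emax n ≤ 1 / 2 ^ (n + (2 * n + 4) * i + 1) := by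
    apply one_div_le_one_div_of_le (by positivity)
    exact pow_le_pow_right₀ (by norm_num) h1
  refine h3.trans (le_of_eq ?_)
  rw [pow_succ]
  field_simp

theorem phaseB_fixCost {T : ℕ → ℕ} {n e : ℕ} (he : e ≤ emax n) :
    (e + 2 ^ Nat.clog 2 (n * n)) * (n * (n * (8 * n * e) ^ 2)) + T n ≤ fixCost T n := by
  unfold fixCost
  gcongr

theorem phaseB_mem [Fintype G] {β : G → G → ℝ} {r : G → ℝ} {z : G × G} :
    z ∈ Dset β r ↔ z.1 ≠ z.2 ∧ r z.1 ≤ β z.1 z.1 - β z.2 z.1 := by
  unfold Dset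
  simp

theorem phaseB_nonneg {M : Multiset (G → ℝ)} (h : NN M) (k : G) : 0 ≤ M.sum k := by
  have h1 : 0 ≤ M.sum := Multiset.sum_nonneg h
  exact h1 k

theorem phaseB {T : ℕ → ℕ} (hT : TrimStatement T) [Fintype G] [DecidableEq G] [Nonempty G]
    (h2 : 2 ≤ Fintype.card G) {β : G → G → ℝ} (hef : ∀ k b, β b k ≤ β k k) {r : G → ℝ}
    {x : G → Multiset (G → ℝ)} {R1 : Multiset (G → ℝ)} (hR1 : NN R1)
    (hx : ∀ k l, (x l).sum k ≤ (x k).sum k) (hr : ∀ k, R1.sum k ≤ r k)
    (hr1 : ∀ k, 0 < R1.sum k) (c : G) (hc : ∑ l, ((x c).sum c - (x l).sum c) = R1.sum c)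
    (hND : ∀ S : Finset G, S.Nonempty → S ≠ Finset.univ →
      ∃ k, k ∉ S ∧ ∃ l ∈ S, β k k - β l k < r k)
    (hsmall : ∀ k l, k ≠ l → β k k - β l k < r k →
      (β k k - β l k) + ((x k).sum k - (x l).sum k) <
        zet (Fintype.card G) (Fintype.card G ^ 2 + 1) * R1.sum k) :
    Force (fun M' => PhaseOut β r (∑ k, x k + M'))
      (fixCost T (Fintype.card G) + shrinkCost T (Fintype.card G)) R1 := by
  classical
  obtain ⟨i, π, w, l, hi, hwl, hAw, hnew, hown, hgap, hdom⟩ :=
    select h2 (fun k b => β k k - β b k) (fun k b => (x k).sum k - (x b).sum k) r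
      (fun k => R1.sum k) c (fun k => sub_self _) (fun k b => sub_nonneg.2 (hef k b))
      (fun k => sub_self _) (fun k b => sub_nonneg.2 (hx k b)) hr hr1 hc hND hsmall
  obtain ⟨e, he2, he1, heclog, hemax⟩ := phaseB_num h2 hi
  have hlo : zet (Fintype.card G) (i + 1) = 1 / 2 ^ (e + 2) := by
    unfold zet
    rw [he2]
  have hfix := fix hT (β' := fun b a => β b a + (x (π b)).sum a)
    (U := fun k => β k k + (x k).sum k) hR1 hr1 e he1 heclog hlo
    (zet_succ (Fintype.card G) i)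
    (fun k b => add_le_add (hef k b) (hx k (π b)))
    (fun k => by
      have := hown k
      linarith)
    (fun k b => by
      rcases hgap k b with h | h
      · left; linarith
      · right; linarith)
  have hfix2 := hfix.mono (phaseB_fixCost hemax) (fun M h => h)
  refine hfix2.bind_inv hR1 ?_
  rintro M' ⟨μ, y, R', hM', hEF, hD⟩ hNN hsum
  have hNNR' : NN R' := fun v hv => hNN v (by rw [hM']; exact Multiset.mem_add.2 (Or.inr hv))
  have hNNy : ∀ b, NN (y b) := fun b v hv => hNN v (by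
    rw [hM']
    refine Multiset.mem_add.2 (Or.inl ?_)
    rw [Multiset.mem_sum]
    exact ⟨b, Finset.mem_univ b, hv⟩)
  have hR'le : ∀ k, R'.sum k ≤ R1.sum k := by
    intro k
    have h1 : M'.sum k = R1.sum k := by rw [hsum]
    rw [hM', Multiset.sum_add, Pi.add_apply] at h1
    have h3 : 0 ≤ (∑ b, y b).sum k := by
      apply phaseB_nonneg
      intro v hv
      rw [Multiset.mem_sum] at hv
      obtain ⟨b, -, hb⟩ := hv
      exact hNNy b v hb
    linarith
  have hsh := (shrink hT (emax (Fintype.card G)) hNNR').frame (∑ b, y b)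
  have hMeq : R' + ∑ b, y b = M' := by rw [hM', add_comm]
  rw [hMeq] at hsh
  refine hsh.mono le_rfl ?_
  rintro M'' ⟨M₁, ⟨x', R'', hM₁, hEF', hR''⟩, hM''⟩
  refine ⟨μ, fun k => x (π (μ k)) + y (μ k) + x' k, R'', ?_, ?_, ?_⟩
  · rw [hM'', hM₁, Finset.sum_add_distrib, Finset.sum_add_distrib,
      Equiv.sum_comp μ (fun k => x (π k)), Equiv.sum_comp π x, Equiv.sum_comp μ y]
    abel
  · intro k l'
    have h1 := hEF k (μ l')
    have h3 := hEF' k l'
    simp only [Multiset.sum_add, Pi.add_apply] at h1 h3 ⊢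
    linarith
  · -- dominations
    set E : Finset (G × G) := Finset.univ.filter
      (fun z => zet (Fintype.card G) i * R1.sum z.1 ≤
        (β z.1 z.1 + (x z.1).sum z.1) - (β z.2 z.1 + (x (π z.2)).sum z.1)) with hE
    have hcard : (Dset β r).card + 1 ≤ E.card := by
      have hnot : (w, l) ∉ Dset β r := by
        intro hcon
        rw [phaseB_mem] at hcon
        have := hcon.2
        simp only at this
        linarith
      rw [← Finset.card_insert_of_notMem hnot]
      apply Finset.card_le_card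
      intro z hz
      rw [Finset.mem_insert] at hz
      rw [hE, Finset.mem_filter]
      refine ⟨Finset.mem_univ _, ?_⟩
      rcases hz with rfl | hz
      · simp only
        linarith
      · rw [phaseB_mem] at hz
        have := hdom z.1 z.2 hz.1 hz.2
        linarith
    refine hcard.trans ?_
    apply Finset.card_le_card_of_injOn (fun z => (z.1, μ.symm z.2))
    · intro z hz
      rw [hE, Finset.mem_coe, Finset.mem_filter] at hz
      rw [Finset.mem_coe, phaseB_mem]
      have h1 := hD z.1 z.2 hz.2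
      have hpos : 0 < zet (Fintype.card G) i / 2 * R1.sum z.1 :=
        mul_pos (half_pos (zet_pos _ _)) (hr1 z.1)
      have h3 : R''.sum z.1 ≤ zet (Fintype.card G) i / 2 * R1.sum z.1 := by
        have h4 : R''.sum z.1 ≤ 1 / 2 ^ emax (Fintype.card G) * R'.sum z.1 := by
          have h5 := hR'' z.1
          rw [div_mul_eq_mul_div, one_mul]
          exact h5
        have h6 : 0 ≤ R'.sum z.1 := phaseB_nonneg hNNR' z.1
        have h7 : (1:ℝ) / 2 ^ emax (Fintype.card G) * R'.sum z.1 ≤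
            zet (Fintype.card G) i / 2 * R1.sum z.1 :=
          mul_le_mul (phaseB_num2 hi) (hR'le z.1) h6 (half_pos (zet_pos _ _)).le
        exact h4.trans h7
      constructor
      · intro hcon
        simp only at hcon
        have h4 : μ z.1 = z.2 := by rw [hcon, Equiv.apply_symm_apply]
        rw [h4] at h1
        linarith
      · simp only [Equiv.apply_symm_apply, Multiset.sum_add, Pi.add_apply]
        have h4 := hEF' z.1 (μ.symm z.2)
        linarith
    · intro z _ z' _ h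
      simp only [Prod.mk.injEq, EmbeddingLike.apply_eq_iff_eq] at h
      exact Prod.ext h.1 h.2

end H85.Cake
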