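import Mathlib

/-!
# Choosing the rotation   (JOB CAKE-SELECT)

Pure combinatorics.  `n = card G`, `zet n i = 2^{-(n + (2n+4) i)}`.

`zet_succ`: `16 * n^2 * zet n (i+1) ≤ zet n i` (`2^(2n+4) = 16 * 4^n ≥ 16 n^2`, `n ≤ 2^n`).
`zet_le`: `zet n i ≤ 1/n`.  `zet_anti`.

`select`: PROOF.
(1) Pigeonhole: there is `i ≤ n^2` such that no pair `(k,l)` has
`zet n (i+1) * r' k ≤ δ k l < zet n i * r' k`: otherwise for each `i ∈ Fin (n^2+1)` choose such a pair;
the intervals `[zet (i+1), zet i) * r' k` are disjoint (`r' k > 0`), so this is an injection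
`Fin (n^2+1) → G × G`: contradiction.  Put `lo = zet n (i+1)`, `hi = zet n i`,
`zN = zet n (n^2+1) ≤ lo`.
(2) `js` maximises `δ c ·`.  `∑_l δ c l = r' c`, so `δ c js ≥ r' c / n ≥ hi * r' c`.
(3) `S = {js} ∪ {k | δ k js < lo * r' k}`.  `c ≠ js` (as `δ c js > 0 = δ js js`.. precisely
`δ c c = 0 < δ c js`) and so `c ∉ S`.  `S` is nonempty and `≠ univ`.
By `hND` there are `w ∉ S`, `l ∈ S` with `A w l < r w` (i.e. not dominated).  `w ≠ l`.
`w ∉ S`: `δ w js ≥ lo * r' w`, so (by (1)) `δ w js ≥ hi * r' w`.  If `l = js`: by `hsmall`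
(`w ≠ js`, `A w js < r w`) `A w js + δ w js < zN * r' w ≤ lo * r' w`, contradiction.  So `l ≠ js`,
`l ∈ S` so `δ l js < lo * r' l`.
(4) Let `ND k b := k ≠ b ∧ A k b < r k`.  CLAIM: there is a permutation `π` with `π l = js` and
`π k = k ∨ ND k (π k)` for all `k ≠ l`.  By Hall's theorem
(`Finset.all_card_le_biUnion_card_iff_exists_injective`) for the sets `t l = {js}`,
`t k = {k} ∪ {b | ND k b}` (`k ≠ l`); an injective function `G → G` is a permutation
(`Equiv.ofBijective`, `Finite.injective_iff_bijective`).  Hall's condition for a finset `X`: if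
`l ∉ X`, `X ⊆ X.biUnion t`.  If `l ∈ X`, let `Y = X.erase l`, `Y ⊆ X.biUnion t`.  If `js ∉ Y`,
`insert js Y ⊆ X.biUnion t` has `X.card` elements.  If `js ∈ Y`, apply `hND` to `Yᶜ` (nonempty:
contains `l`; not `univ`: `js ∈ Y`): there are `k ∈ Y`, `b ∉ Y` with `A k b < r k`, `k ≠ b`, `k ≠ l`,
so `b ∈ t k` and `insert b Y ⊆ X.biUnion t` has `X.card` elements.
(5) Properties, for all `k b`: own: `π k = k`: `δ k k = 0 < lo * r' k`; `π k = next`, `ND k (π k)`:
`hsmall` gives `δ k (π k) ≤ A + δ < zN r' k ≤ lo r' k`; `k = l`: `δ l js < lo r' l`.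
gap: if `b = k` or `A k b < r k`, `k ≠ b`: `A k b < lo * r' k` (`A k k = 0`; `hsmall`, `δ ≥ 0`) and
`δ k (π b)` is `< lo * r' k` or `≥ hi * r' k` by (1).  If `A k b ≥ r k`: `A k b ≥ r' k ≥ hi * r' k`
(`hi ≤ 1`).
dominance: `A k b ≥ r k ≥ r' k ≥ hi * r' k` and `δ ≥ 0`.
new: `A w l + δ w (π l) = A w l + δ w js ≥ hi * r' w`.
-/

namespace H85.Cake

/-- Thresholds. -/
noncomputable def zet (n i : ℕ) : ℝ := 1 / 2 ^ (n + (2 * n + 4) * i)

theorem zet_pos (n i : ℕ) : 0 < zet n i := by
  unfold zet; positivity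

theorem zet_anti (n : ℕ) {i j : ℕ} (h : i ≤ j) : zet n j ≤ zet n i := by
  unfold zet
  apply one_div_le_one_div_of_le (by positivity)
  apply pow_le_pow_right₀ (by norm_num)
  exact Nat.add_le_add_left (Nat.mul_le_mul_left _ h) _

theorem zet_succ (n i : ℕ) : 16 * (n:ℝ) ^ 2 * zet n (i + 1) ≤ zet n i := by
  have h1 : zet n (i + 1) = zet n i * (1 / 2 ^ (2 * n + 4)) := by
    unfold zet
    rw [one_div_mul_one_div, ← pow_add]
    congr 2
    ring
  have h2 : (n : ℝ) ≤ 2 ^ n := by exact_mod_cast (Nat.lt_two_pow_self (n := n)).le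
  have h3 : (16 : ℝ) * (n : ℝ) ^ 2 ≤ 2 ^ (2 * n + 4) := by
    have h4 : (n : ℝ) ^ 2 ≤ (2 ^ n) ^ 2 := pow_le_pow_left₀ (Nat.cast_nonneg n) h2 2
    have h5 : (2 : ℝ) ^ (2 * n + 4) = 16 * (2 ^ n) ^ 2 := by
      rw [pow_add, ← pow_mul, mul_comm n 2]
      norm_num
      ring
    rw [h5]
    linarith
  rw [h1]
  have h6 : (0 : ℝ) < 2 ^ (2 * n + 4) := by positivity
  have h7 := zet_pos n i
  calc 16 * (n:ℝ) ^ 2 * (zet n i * (1 / 2 ^ (2 * n + 4)))
      = zet n i * ((16 * (n:ℝ) ^ 2) / 2 ^ (2 * n + 4)) := by ring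
    _ ≤ zet n i * 1 := by
        apply mul_le_mul_of_nonneg_left _ h7.le
        rw [div_le_one h6]
        exact h3
    _ = zet n i := mul_one _

theorem zet_le (n i : ℕ) : (n:ℝ) * zet n i ≤ 1 := by
  have h2 : (n : ℝ) ≤ 2 ^ n := by exact_mod_cast (Nat.lt_two_pow_self (n := n)).le
  have h3 : (2 : ℝ) ^ n ≤ 2 ^ (n + (2 * n + 4) * i) :=
    pow_le_pow_right₀ (by norm_num) (Nat.le_add_right _ _)
  unfold zet
  rw [mul_one_div, div_le_one (by positivity)]
  exact h2.trans h3

/-- pigeonhole: a gap in the scale of thresholds -/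
theorem select_gap {G : Type} [Fintype G] (δ : G → G → ℝ) (r' : G → ℝ) (hr' : ∀ k, 0 < r' k) :
    ∃ i : ℕ, i ≤ Fintype.card G ^ 2 ∧ ∀ k l, δ k l < zet (Fintype.card G) (i + 1) * r' k ∨
      zet (Fintype.card G) i * r' k ≤ δ k l := by
  classical
  by_contra hcon
  push Not at hcon
  set N := Fintype.card G with hN
  have hch : ∀ i : Fin (N ^ 2 + 1), ∃ p : G × G, zet N (i + 1) * r' p.1 ≤ δ p.1 p.2 ∧
      δ p.1 p.2 < zet N i * r' p.1 := by
    intro i
    obtain ⟨k, l, h1, h2⟩ := hcon i (Nat.lt_succ_iff.1 i.2)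
    exact ⟨(k, l), h1, h2⟩
  choose p hp1 hp2 using hch
  have hinj : Function.Injective p := by
    have key : ∀ i j : Fin (N ^ 2 + 1), i < j → p i ≠ p j := by
      intro i j hij he
      have h1 := hp1 i
      have h2 := hp2 j
      rw [← he] at h2
      have h3 : zet N j * r' (p i).1 ≤ zet N (i + 1) * r' (p i).1 :=
        mul_le_mul_of_nonneg_right (zet_anti N (Nat.succ_le_of_lt hij)) (hr' _).le
      linarith
    intro i j he
    rcases lt_trichotomy i j with h | h | h
    · exact absurd he (key i j h)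
    · exact h
    · exact absurd he.symm (key j i h)
  have h4 := Fintype.card_le_of_injective p hinj
  rw [Fintype.card_fin, Fintype.card_prod, ← hN, sq] at h4
  omega

/-- a permutation which sends `l` to `js` and moves all others inside the relation `R` (Hall) -/
theorem select_perm {G : Type} [Fintype G] [DecidableEq G] (R : G → G → Prop) (l js : G)
    (hne : l ≠ js)
    (hND : ∀ S : Finset G, S.Nonempty → S ≠ Finset.univ → ∃ k, k ∉ S ∧ ∃ b ∈ S, R k b) :
    ∃ π : Equiv.Perm G, π l = js ∧ ∀ k, k ≠ l → π k = k ∨ R k (π k) := by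
  classical
  set t : G → Finset G := fun k => if k = l then {js} else
    insert k (Finset.univ.filter (fun b => R k b)) with ht
  have htl : t l = {js} := by simp [ht]
  have htk : ∀ k, k ≠ l → t k = insert k (Finset.univ.filter (fun b => R k b)) := by
    intro k hk
    simp [ht, hk]
  have hself : ∀ k, k ≠ l → k ∈ t k := by
    intro k hk
    rw [htk k hk]
    exact Finset.mem_insert_self _ _
  have hall : ∀ X : Finset G, X.card ≤ (X.biUnion t).card := by
    intro X
    by_cases hlX : l ∈ X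
    · set Y := X.erase l with hY
      have hYc : Y.card + 1 = X.card := Finset.card_erase_add_one hlX
      have hYsub : Y ⊆ X.biUnion t := by
        intro y hy
        have hyl : y ≠ l := Finset.ne_of_mem_erase hy
        exact Finset.mem_biUnion.2 ⟨y, Finset.mem_of_mem_erase hy, hself y hyl⟩
      have hjs : js ∈ X.biUnion t := Finset.mem_biUnion.2 ⟨l, hlX, by rw [htl]; simp⟩
      by_cases hjY : js ∈ Y
      · obtain ⟨k, hkY, b, hbY, hR⟩ := hND Yᶜ ⟨l, by simp [hY]⟩ (by
          intro h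
          have : js ∈ Yᶜ := h ▸ Finset.mem_univ js
          exact (Finset.mem_compl.1 this) hjY)
        rw [Finset.mem_compl, not_not] at hkY
        rw [Finset.mem_compl] at hbY
        have hkl : k ≠ l := Finset.ne_of_mem_erase hkY
        have hb : b ∈ X.biUnion t := by
          refine Finset.mem_biUnion.2 ⟨k, Finset.mem_of_mem_erase hkY, ?_⟩
          rw [htk k hkl]
          exact Finset.mem_insert_of_mem (Finset.mem_filter.2 ⟨Finset.mem_univ _, hR⟩)
        have h1 : (insert b Y).card ≤ (X.biUnion t).card :=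
          Finset.card_le_card (Finset.insert_subset hb hYsub)
        rw [Finset.card_insert_of_notMem hbY, hYc] at h1
        exact h1
      · have h1 : (insert js Y).card ≤ (X.biUnion t).card :=
          Finset.card_le_card (Finset.insert_subset hjs hYsub)
        rw [Finset.card_insert_of_notMem hjY, hYc] at h1
        exact h1
    · apply Finset.card_le_card
      intro x hx
      have hxl : x ≠ l := fun h => hlX (h ▸ hx)
      exact Finset.mem_biUnion.2 ⟨x, hx, hself x hxl⟩
  obtain ⟨f, hf, hft⟩ := (Finset.all_card_le_biUnion_card_iff_exists_injective t).1 hall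
  refine ⟨Equiv.ofBijective f (Finite.injective_iff_bijective.1 hf), ?_, ?_⟩
  · have h1 := hft l
    rw [htl, Finset.mem_singleton] at h1
    exact h1
  · intro k hk
    have h1 := hft k
    rw [htk k hk, Finset.mem_insert] at h1
    rcases h1 with h1 | h1
    · exact Or.inl h1
    · exact Or.inr (Finset.mem_filter.1 h1).2

theorem select {G : Type} [Fintype G] [DecidableEq G] (h2 : 2 ≤ Fintype.card G)
    (A δ : G → G → ℝ) (r r' : G → ℝ) (c : G)
    (hA0 : ∀ k, A k k = 0) (hA : ∀ k l, 0 ≤ A k l)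
    (hδ0 : ∀ k, δ k k = 0) (hδ : ∀ k l, 0 ≤ δ k l)
    (hr : ∀ k, r' k ≤ r k) (hr' : ∀ k, 0 < r' k)
    (hc : ∑ l, δ c l = r' c)
    (hND : ∀ S : Finset G, S.Nonempty → S ≠ Finset.univ → ∃ k, k ∉ S ∧ ∃ l ∈ S, A k l < r k)
    (hsmall : ∀ k l, k ≠ l → A k l < r k →
      A k l + δ k l < zet (Fintype.card G) (Fintype.card G ^ 2 + 1) * r' k) :
    ∃ (i : ℕ) (π : Equiv.Perm G) (w l : G), i ≤ Fintype.card G ^ 2 ∧ w ≠ l ∧ A w l < r w ∧
      zet (Fintype.card G) i * r' w ≤ A w l + δ w (π l) ∧
      (∀ k, δ k (π k) < zet (Fintype.card G) (i + 1) * r' k) ∧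
      (∀ k b, A k b + δ k (π b) < 2 * zet (Fintype.card G) (i + 1) * r' k ∨
        zet (Fintype.card G) i * r' k ≤ A k b + δ k (π b)) ∧
      (∀ k b, k ≠ b → r k ≤ A k b → zet (Fintype.card G) i * r' k ≤ A k b + δ k (π b)) := by
  obtain ⟨i, hi, hgap⟩ := select_gap δ r' hr'
  set N := Fintype.card G with hN
  have hlo : 0 < zet N (i + 1) := zet_pos _ _
  have hhi : 0 < zet N i := zet_pos _ _
  have hlohi : zet N (i + 1) ≤ zet N i := zet_anti N (Nat.le_succ i)
  have hzN : zet N (N ^ 2 + 1) ≤ zet N (i + 1) := zet_anti N (by omega)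
  have hN0 : (0 : ℝ) < N := by
    have : 0 < N := by omega
    exact_mod_cast this
  have hhi1 : zet N i ≤ 1 := by
    have h1 := zet_le N i
    have h3 : (1 : ℝ) ≤ N := by
      have : 1 ≤ N := by omega
      exact_mod_cast this
    nlinarith
  -- maximal piece of `c`
  haveI : Nonempty G := ⟨c⟩
  obtain ⟨js, hjs⟩ := Finite.exists_max (δ c)
  have hcjs : zet N i * r' c ≤ δ c js := by
    have h1 : r' c ≤ N * δ c js := by
      rw [← hc]
      calc ∑ l, δ c l ≤ ∑ _l : G, δ c js := Finset.sum_le_sum (fun l _ => hjs l)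
        _ = N * δ c js := by
          rw [Finset.sum_const, nsmul_eq_mul, Finset.card_univ, hN]
    have h3 : (N : ℝ) * (zet N i * r' c) ≤ N * δ c js := by
      calc (N : ℝ) * (zet N i * r' c) = (N * zet N i) * r' c := by ring
        _ ≤ 1 * r' c := mul_le_mul_of_nonneg_right (zet_le N i) (hr' c).le
        _ = r' c := one_mul _
        _ ≤ _ := h1
    exact le_of_mul_le_mul_left h3 hN0
  have hcne : c ≠ js := by
    rintro rfl
    rw [hδ0] at hcjs
    have := mul_pos hhi (hr' c)
    linarith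
  classical
  set S : Finset G := insert js (Finset.univ.filter (fun k => δ k js < zet N (i + 1) * r' k))
    with hS
  have hmemS : ∀ k, k ∈ S ↔ k = js ∨ δ k js < zet N (i + 1) * r' k := by
    intro k
    simp [hS]
  have hcS : c ∉ S := by
    rw [hmemS]
    rintro (h | h)
    · exact hcne h
    · have := mul_le_mul_of_nonneg_right hlohi (hr' c).le
      linarith
  obtain ⟨w, hwS, l, hlS, hwl⟩ := hND S ⟨js, by simp [hS]⟩
    (fun h => hcS (h ▸ Finset.mem_univ c))
  have hwnl : w ≠ l := by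
    rintro rfl
    exact hwS hlS
  rw [hmemS, not_or, not_lt] at hwS
  have hwhi : zet N i * r' w ≤ δ w js := by
    rcases hgap w js with h | h
    · exact absurd h (not_lt.2 hwS.2)
    · exact h
  have hle : ∀ k, zet N (N ^ 2 + 1) * r' k ≤ zet N (i + 1) * r' k := fun k =>
    mul_le_mul_of_nonneg_right hzN (hr' k).le
  have hljs : l ≠ js := by
    rintro rfl
    have h1 := hsmall w l hwnl hwl
    have h3 := hle w
    have h4 := hA w l
    linarith [hwS.2]
  have hllo : δ l js < zet N (i + 1) * r' l := by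
    rcases (hmemS l).1 hlS with h | h
    · exact absurd h hljs
    · exact h
  obtain ⟨π, hπl, hπ⟩ := select_perm (fun k b => k ≠ b ∧ A k b < r k) l js hljs (by
    intro S' hS1 hS2
    obtain ⟨k, hk, b, hb, hkb⟩ := hND S' hS1 hS2
    exact ⟨k, hk, b, hb, fun h => hk (h ▸ hb), hkb⟩)
  refine ⟨i, π, w, l, hi, hwnl, hwl, ?_, ?_, ?_, ?_⟩
  · rw [hπl]
    linarith [hA w l]
  · intro k
    by_cases hkl : k = l
    · subst hkl
      rw [hπl]
      exact hllo
    · rcases hπ k hkl with h | h
      · rw [h, hδ0]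
        exact mul_pos hlo (hr' k)
      · have h1 := hsmall k (π k) h.1 h.2
        have h3 := hA k (π k)
        have h4 := hle k
        linarith
  · intro k b
    rcases lt_or_ge (A k b) (r k) with hk | hk
    · have hAlo : A k b < zet N (i + 1) * r' k := by
        by_cases hkb : k = b
        · subst hkb
          rw [hA0]
          exact mul_pos hlo (hr' k)
        · have h1 := hsmall k b hkb hk
          have h3 := hδ k b
          have h4 := hle k
          linarith
      rcases hgap k (π b) with h | h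
      · left
        linarith
      · right
        linarith [hA k b]
    · right
      have h1 := hr k
      have h3 := hδ k (π b)
      have h4 : zet N i * r' k ≤ 1 * r' k := mul_le_mul_of_nonneg_right hhi1 (hr' k).le
      linarith
  · intro k b _ hk
    have h1 := hr k
    have h3 := hδ k (π b)
    have h4 : zet N i * r' k ≤ 1 * r' k := mul_le_mul_of_nonneg_right hhi1 (hr' k).le
    linarith

end H85.Cake
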