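import Pool.Agent.H85.Cake.PhaseA
import Pool.Agent.H85.Cake.PhaseB

/-!
# A phase   (JOB CAKE-PHC)

`phase`.  `r = R.sum`.  PROOF.  `core` with any cutter `c`: parts `x k`, residual `R1`; by the
invariants (`Force.bind_inv`, all atoms nonnegative, total preserved) `R1.sum k ≤ R.sum k` and
`∑_l ((x c).sum c - (x l).sum c) = n * (R.sum c / n) - ∑_l (x l).sum c = R1.sum c`.  The position after
`core` is `∑ x k + R1`: frame rule with `K = ∑ x k` for the rest.
(1) If there are `k0 ≠ l0` with `β k0 k0 - β l0 k0 < R.sum k0` and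
`zet n (n^2+1) * R1.sum k0 ≤ gap after core`: `phaseA` (`zet n (n^2+1) = 1/2^(emax n)`, by `rfl`/unfold).
(2) Otherwise `hsmall` holds.  `R1.sum k > 0` for all `k`: `hND` with `S = univ.erase k`
(nonempty as `2 ≤ card G`) gives `k' ∉ S`, so `k' = k`, and `l ∈ S` (`l ≠ k`) with
`β k k - β l k < R.sum k`; by `hsmall` `0 ≤ gap < zet * R1.sum k`, so `R1.sum k > 0`.  Then `phaseB`.
-/

namespace H85.Cake

variable {G : Type}

theorem sum_apply_nonneg {M : Multiset (G → ℝ)} (hM : NN M) (k : G) : 0 ≤ M.sum k := by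
  have h : (0 : G → ℝ) ≤ M.sum := Multiset.sum_nonneg (fun v hv => hM v hv)
  exact h k

theorem sum_fin_apply [Fintype G] (x : G → Multiset (G → ℝ)) (R1 : Multiset (G → ℝ)) (k : G) :
    (∑ l, x l + R1).sum k = ∑ l, (x l).sum k + R1.sum k := by
  rw [Multiset.sum_add, Pi.add_apply]
  congr 1
  have h : (∑ l, x l).sum = ∑ l, (x l).sum := map_sum Multiset.sumAddMonoidHom x Finset.univ
  rw [h, Finset.sum_apply]

theorem phase {T : ℕ → ℕ} (hT : TrimStatement T) [Fintype G] [DecidableEq G] [Nonempty G]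
    (h2 : 2 ≤ Fintype.card G) {β : G → G → ℝ} (hef : ∀ k b, β b k ≤ β k k)
    {R : Multiset (G → ℝ)} (hR : NN R)
    (hND : ∀ S : Finset G, S.Nonempty → S ≠ Finset.univ →
      ∃ k, k ∉ S ∧ ∃ l ∈ S, β k k - β l k < R.sum k) :
    Force (PhaseOut β (fun k => R.sum k)) (phaseCost T (Fintype.card G)) R := by
  obtain ⟨c⟩ : Nonempty G := inferInstance
  refine (core hT c hR).bind_inv hR ?_
  rintro M' ⟨x, R1, rfl, hx, hxc⟩ hNN hsum
  have hn : (0:ℝ) < Fintype.card G := by
    have : 0 < Fintype.card G := by omega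
    exact_mod_cast this
  have hNx : ∀ l, NN (x l) := by
    intro l v hv
    refine hNN v (Multiset.mem_add.2 (Or.inl ?_))
    exact Multiset.mem_sum.2 ⟨l, Finset.mem_univ _, hv⟩
  have hN1 : NN R1 := fun v hv => hNN v (Multiset.mem_add.2 (Or.inr hv))
  have htot : ∀ k, ∑ l, (x l).sum k + R1.sum k = R.sum k := by
    intro k
    rw [← sum_fin_apply, hsum]
  have hr : ∀ k, R1.sum k ≤ R.sum k := by
    intro k
    have h1 := htot k
    have h3 : 0 ≤ ∑ l, (x l).sum k := Finset.sum_nonneg (fun l _ => sum_apply_nonneg (hNx l) k)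
    linarith
  have hc : ∑ l, ((x c).sum c - (x l).sum c) = R1.sum c := by
    rw [Finset.sum_sub_distrib, Finset.sum_const, Finset.card_univ, nsmul_eq_mul, hxc]
    have h1 := htot c
    have h3 : (Fintype.card G : ℝ) * (R.sum c / Fintype.card G) = R.sum c := by
      field_simp
    rw [h3]
    linarith
  -- the frame
  have key : Force (fun M' => PhaseOut β (fun k => R.sum k) (∑ k, x k + M'))
      (fixCost T (Fintype.card G) + shrinkCost T (Fintype.card G)) R1 := by
    by_cases hcase : ∃ k0 l0, k0 ≠ l0 ∧ β k0 k0 - β l0 k0 < R.sum k0 ∧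
        zet (Fintype.card G) (Fintype.card G ^ 2 + 1) * R1.sum k0 ≤
          (β k0 k0 - β l0 k0) + ((x k0).sum k0 - (x l0).sum k0)
    · obtain ⟨k0, l0, hne, hnd, hgap⟩ := hcase
      refine (phaseA (T := T) hT hef (r := fun k => R.sum k) hN1 hx hr hne hnd ?_).mono
        (Nat.le_add_left _ _) (fun _ h => h)
      exact hgap
    · push Not at hcase
      have hpos : ∀ k, 0 < R1.sum k := by
        intro k
        have hne : (Finset.univ.erase k : Finset G).Nonempty := by
          rw [← Finset.card_pos, Finset.card_erase_of_mem (Finset.mem_univ _), Finset.card_univ]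
          omega
        have hnu : (Finset.univ.erase k : Finset G) ≠ Finset.univ := by
          intro h
          have := Finset.mem_univ k
          rw [← h] at this
          simp at this
        obtain ⟨k', hk', l, hl, hlt⟩ := hND _ hne hnu
        have hkk : k' = k := by
          by_contra h
          exact hk' (Finset.mem_erase.2 ⟨h, Finset.mem_univ _⟩)
        subst hkk
        have hl' : l ≠ k' := (Finset.mem_erase.1 hl).1
        have h1 := hcase k' l (Ne.symm hl') hlt
        have h3 : 0 ≤ β k' k' - β l k' := sub_nonneg.2 (hef k' l)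
        have h4 : 0 ≤ (x k').sum k' - (x l).sum k' := sub_nonneg.2 (hx k' l)
        have h5 : 0 < zet (Fintype.card G) (Fintype.card G ^ 2 + 1) * R1.sum k' := by linarith
        exact (pos_iff_pos_of_mul_pos h5).1 (zet_pos _ _)
      exact phaseB hT h2 hef hN1 hx hr hpos c hc hND hcase
  have := key.frame (∑ k, x k)
  rw [add_comm R1] at this
  refine this.mono le_rfl ?_
  rintro M ⟨M₁, h, rfl⟩
  rwa [add_comm]

end H85.Cake
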