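import Mathlib

/-!
# The split game

Positions: finite multisets `M` of atoms; an atom is its vector of values `G → ℝ` (one value for
each agent).  A move: choose an atom `v`, an agent `i` and `0 ≤ r ≤ v i`; the adversary splits
`v = v' + v''` into nonnegative vectors with `v' i = r`.  `Force P N M`: in at most `N` moves a
position satisfying `P` can be forced.
-/

namespace H85.Cake

/-- `Force P N M`: from the multiset of atoms `M` one can force `P` in at most `N` splits. -/
inductive Force {G : Type} (P : Multiset (G → ℝ) → Prop) : ℕ → Multiset (G → ℝ) → Prop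
  | done {N : ℕ} {M : Multiset (G → ℝ)} (h : P M) : Force P N M
  | move {N : ℕ} {M : Multiset (G → ℝ)} (v : G → ℝ) (i : G) (r : ℝ) (h0 : 0 ≤ r) (h1 : r ≤ v i)
      (h : ∀ v' v'' : G → ℝ, 0 ≤ v' → 0 ≤ v'' → v' + v'' = v → v' i = r →
        Force P N (v' ::ₘ v'' ::ₘ M)) : Force P (N + 1) (v ::ₘ M)

variable {G : Type} {P Q : Multiset (G → ℝ) → Prop} {N N' : ℕ} {M K : Multiset (G → ℝ)}

theorem Force.mono (h : Force P N M) (hN : N ≤ N') (hPQ : ∀ M, P M → Q M) : Force Q N' M := by
  induction h generalizing N' with
  | done h => exact .done (hPQ _ h)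
  | move v i r h0 h1 h ih =>
    obtain ⟨m, rfl⟩ : ∃ m, N' = m + 1 := ⟨N' - 1, by omega⟩
    exact .move v i r h0 h1 (fun v' v'' a b c d => ih v' v'' a b c d (by omega))

theorem Force.bind (h : Force P N M) (hPQ : ∀ M, P M → Force Q N' M) : Force Q (N + N') M := by
  induction h with
  | done h => exact (hPQ _ h).mono (by omega) (fun _ h => h)
  | @move n _ v i r h0 h1 h ih =>
    have : n + 1 + N' = (n + N') + 1 := by omega
    rw [this]
    exact .move v i r h0 h1 (fun v' v'' a b c d => ih v' v'' a b c d)

/-- Frame rule: a part `K` of the position that is not touched. -/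
theorem Force.frame (h : Force P N M) (K : Multiset (G → ℝ)) :
    Force (fun M' => ∃ M₁, P M₁ ∧ M' = M₁ + K) N (M + K) := by
  induction h with
  | done h => exact .done ⟨_, h, rfl⟩
  | move v i r h0 h1 h ih =>
    rw [Multiset.cons_add]
    refine .move v i r h0 h1 (fun v' v'' a b c d => ?_)
    have := ih v' v'' a b c d
    rwa [Multiset.cons_add, Multiset.cons_add] at this

/-- All atoms are nonnegative. -/
def NN (M : Multiset (G → ℝ)) : Prop := ∀ v ∈ M, 0 ≤ v

/-- The total value and nonnegativity are preserved during the game. -/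
theorem Force.inv (h : Force P N M) (hM : NN M) :
    Force (fun M' => P M' ∧ NN M' ∧ M'.sum = M.sum) N M := by
  induction h with
  | done h => exact .done ⟨h, hM, rfl⟩
  | move v i r h0 h1 h ih =>
    refine .move v i r h0 h1 (fun v' v'' a b c d => ?_)
    refine (ih v' v'' a b c d ?_).mono le_rfl ?_
    · intro x hx
      simp only [Multiset.mem_cons] at hx
      rcases hx with rfl | rfl | hx
      · exact a
      · exact b
      · exact hM x (by simp [hx])
    · rintro M' ⟨h1, h2, h3⟩
      refine ⟨h1, h2, ?_⟩
      rw [h3]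
      simp only [Multiset.sum_cons, ← c, add_assoc]

/-- A weaker form of a property suffices at the end, using the invariants. -/
theorem Force.mono_inv (h : Force P N M) (hM : NN M) (hN : N ≤ N')
    (hPQ : ∀ M', P M' → NN M' → M'.sum = M.sum → Q M') : Force Q N' M :=
  (h.inv hM).mono hN (fun M' h => hPQ M' h.1 h.2.1 h.2.2)

/-- Bind, with the invariants. -/
theorem Force.bind_inv (h : Force P N M) (hM : NN M)
    (hPQ : ∀ M', P M' → NN M' → M'.sum = M.sum → Force Q N' M') : Force Q (N + N') M :=
  (h.inv hM).bind (fun M' h => hPQ M' h.1 h.2.1 h.2.2)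

/-- Restriction to fewer agents: a strategy for the agents `S` is a strategy for all agents. -/
theorem Force.restrict {S : Type} (e : S → G) {P : Multiset (S → ℝ) → Prop} {N : ℕ}
    {M : Multiset (G → ℝ)} (h : Force P N (M.map (fun v => v ∘ e))) :
    Force (fun M' => P (M'.map (fun v => v ∘ e))) N M := by
  generalize hM : M.map (fun v => v ∘ e) = M₀ at h
  induction h generalizing M with
  | done h => subst hM; exact .done h
  | @move n M₁ w i r h0 h1 h ih =>
    have hw : w ∈ M.map (fun v => v ∘ e) := by rw [hM]; simp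
    obtain ⟨v, hv, rfl⟩ := Multiset.mem_map.1 hw
    obtain ⟨M₂, rfl⟩ := Multiset.exists_cons_of_mem hv
    rw [Multiset.map_cons] at hM
    have hM₂ := (Multiset.cons_inj_right _).1 hM
    refine .move v (e i) r h0 h1 (fun v' v'' a b c d => ?_)
    refine ih (v' ∘ e) (v'' ∘ e) (fun k => a (e k)) (fun k => b (e k)) ?_ d ?_
    · rw [← c]; rfl
    · rw [Multiset.map_cons, Multiset.map_cons, hM₂]

end H85.Cake
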