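import Pool.Agent.H85.Cake.Model
import Pool.Agent.H85.Cake.Force

/-!
# Definitions for the translation of the split game into a protocol
-/

namespace H85.Cake

open Set

/-- The atoms can be distributed to the agents without envy. -/
def EFdiv {G : Type} [Fintype G] (M : Multiset (G → ℝ)) : Prop :=
  ∃ Y : G → Multiset (G → ℝ), M = ∑ k, Y k ∧ ∀ k l, (Y l).sum k ≤ (Y k).sum k

open Classical in
/-- The number of half-open intervals `[a,b)` of the list containing `x`. -/
noncomputable def cnt {α : Type} (L : Multiset (ℝ × ℝ × α)) (x : ℝ) : ℕ :=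
  L.countP (fun a => x ∈ Ico a.1 a.2.1)

/-- The intervals of `L` are subintervals of `[0,1]` and the half-open intervals partition
`[0,1)`. -/
def Geo {α : Type} (L : Multiset (ℝ × ℝ × α)) : Prop :=
  (∀ a ∈ L, 0 ≤ a.1 ∧ a.1 ≤ a.2.1 ∧ a.2.1 ≤ 1) ∧
  (∀ x, x ∈ Ico (0:ℝ) 1 → cnt L x = 1) ∧ (∀ x, x ∉ Ico (0:ℝ) 1 → cnt L x = 0)

/-- `V` is the valuation of an agent `i` whose values of the atoms of `L` are as recorded. -/
def Knows {n : ℕ} (L : Multiset (ℝ × ℝ × (Fin n → ℝ))) (i : Fin n) (V : Set ℝ → ℝ) : Prop :=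
  ∀ a ∈ L, V (Icc a.1 a.2.1) = a.2.2 i

end H85.Cake
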