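import Pool.Agent.H85.Cake.Force

/-!
# Near-exact halving   (JOB CAKE-HALVE)

`signs`: induction on `M`.  For `v ::ₘ M` with `M = A + B`, `d k = A.sum k - B.sum k`: if
`∑ k, c k * (d k * v k) ≤ 0` put `v` into `A`, else into `B`; then
`∑ c (d ± v)^2 = ∑ c d^2 ± 2 ∑ c d v + ∑ c v^2 ≤ ∑ c d^2 + ∑ c v^2`.

`crumble1`: PROOF.  Show by induction on `m`, for `M = A + B` with `v k ≤ θ` for `v ∈ A` and
`B.sum k ≤ m * θ`, everything nonnegative, that one can force in `m` splits all atoms to have
`v k ≤ θ` (and every atom is `≤` some atom of the original `M`).  If all `v ∈ B` have `v k ≤ θ` we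
are done (this is the case if `m = 0`: `0 ≤ v k ≤ B.sum k ≤ 0 ≤ θ`).  Otherwise take `v ∈ B` with
`v k > θ`, split it with agent `k` at `r = θ`: `v = v' + v''`, `v' k = θ`; put `v'` into `A` and `v''`
into `B` instead of `v`: `B.sum k` decreases by `θ`.

`crumble`: PROOF: for every agent `k` in turn (induction on a `Finset` of agents) apply `crumble1`
with `θ = M.sum k / m` (if `M.sum k = 0` all atoms have `v k = 0`, nothing to do).  A split
makes atoms smaller, so the bounds of the agents treated before remain.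

`halve`: PROOF.  `n = card G`, `m = n * H^2`, `π = M.sum`.  `crumble`, so that all atoms have
`v k ≤ π k / m`.  Apply `signs` with `c k = 1 / (π k)^2` (`0` if `π k = 0`):
`∑ k, c k * (A.sum k - B.sum k)^2 ≤ ∑_v ∑_k c k * v k^2 ≤ ∑_k c k * (π k / m) * π k ≤ n / m = 1/H^2`.
So for each `k` with `π k > 0`: `|A.sum k - B.sum k| ≤ π k / H`; if `π k = 0` both are `0`.
With `A.sum k + B.sum k = π k` we get `|A.sum k - π k / 2| ≤ π k / (2 H)`, same for `B`.
-/

namespace H85.Cake

variable {G : Type}

theorem signs [Fintype G] (c : G → ℝ) (hc : ∀ k, 0 ≤ c k) (M : Multiset (G → ℝ)) :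
    ∃ A B : Multiset (G → ℝ), M = A + B ∧
      ∑ k, c k * (A.sum k - B.sum k) ^ 2 ≤ (M.map (fun v => ∑ k, c k * v k ^ 2)).sum := by
  induction M using Multiset.induction_on with
  | empty => exact ⟨0, 0, by simp, by simp⟩
  | cons v M ih =>
    obtain ⟨A, B, rfl, h⟩ := ih
    rw [Multiset.map_cons, Multiset.sum_cons]
    by_cases hs : ∑ k, c k * ((A.sum k - B.sum k) * v k) ≤ 0
    · refine ⟨v ::ₘ A, B, by rw [Multiset.cons_add], ?_⟩
      have e : ∑ k, c k * ((v ::ₘ A).sum k - B.sum k) ^ 2 =
          ∑ k, c k * (A.sum k - B.sum k) ^ 2 + 2 * ∑ k, c k * ((A.sum k - B.sum k) * v k) +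
            ∑ k, c k * v k ^ 2 := by
        rw [Finset.mul_sum, ← Finset.sum_add_distrib, ← Finset.sum_add_distrib]
        refine Finset.sum_congr rfl (fun k _ => ?_)
        rw [Multiset.sum_cons, Pi.add_apply]
        ring
      rw [e]
      linarith
    · push Not at hs
      refine ⟨A, v ::ₘ B, by rw [Multiset.add_cons], ?_⟩
      have e : ∑ k, c k * (A.sum k - (v ::ₘ B).sum k) ^ 2 =
          ∑ k, c k * (A.sum k - B.sum k) ^ 2 - 2 * ∑ k, c k * ((A.sum k - B.sum k) * v k) +
            ∑ k, c k * v k ^ 2 := by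
        rw [Finset.mul_sum, ← Finset.sum_sub_distrib, ← Finset.sum_add_distrib]
        refine Finset.sum_congr rfl (fun k _ => ?_)
        rw [Multiset.sum_cons, Pi.add_apply]
        ring
      rw [e]
      linarith

theorem halve_sum_nonneg {M : Multiset (G → ℝ)} (hM : NN M) (k : G) : 0 ≤ M.sum k := by
  have h : (0 : G → ℝ) ≤ M.sum := Multiset.sum_nonneg (fun v hv => hM v hv)
  exact h k

theorem halve_le_sum {M : Multiset (G → ℝ)} (hM : NN M) {v : G → ℝ} (hv : v ∈ M) (k : G) :
    v k ≤ M.sum k := by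
  obtain ⟨M', rfl⟩ := Multiset.exists_cons_of_mem hv
  have h : NN M' := fun u hu => hM u (Multiset.mem_cons_of_mem hu)
  have h2 := halve_sum_nonneg h k
  rw [Multiset.sum_cons, Pi.add_apply]
  linarith

theorem crumble1_aux (k : G) (θ : ℝ) (hθ : 0 < θ) (m : ℕ) (M0 : Multiset (G → ℝ)) :
    ∀ A B : Multiset (G → ℝ), NN A → NN B → (∀ v ∈ A, v k ≤ θ) → B.sum k ≤ m * θ →
      (∀ v ∈ A + B, ∃ u ∈ M0, v ≤ u) →
      Force (fun M' => (∀ v ∈ M', v k ≤ θ) ∧ ∀ v ∈ M', ∃ u ∈ M0, v ≤ u) m (A + B) := by
  induction m with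
  | zero =>
    intro A B hA hB hAθ hBs hu
    refine .done ⟨?_, hu⟩
    intro v hv
    rcases Multiset.mem_add.1 hv with h | h
    · exact hAθ v h
    · have h1 := halve_le_sum hB h k
      have h2 : B.sum k ≤ 0 := by simpa using hBs
      linarith
  | succ m ih =>
    intro A B hA hB hAθ hBs hu
    by_cases hall : ∀ v ∈ B, v k ≤ θ
    · refine .done ⟨?_, hu⟩
      intro v hv
      rcases Multiset.mem_add.1 hv with h | h
      · exact hAθ v h
      · exact hall v h
    · push Not at hall
      obtain ⟨v, hvB, hv⟩ := hall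
      obtain ⟨B', rfl⟩ := Multiset.exists_cons_of_mem hvB
      rw [Multiset.add_cons]
      refine .move v k θ hθ.le hv.le (fun v' v'' a b c d => ?_)
      have e : v' ::ₘ v'' ::ₘ (A + B') = (v' ::ₘ A) + (v'' ::ₘ B') := by
        rw [Multiset.cons_add, Multiset.add_cons]
      rw [e]
      have hv'v : v' ≤ v := by
        rw [← c]; exact le_add_of_nonneg_right b
      have hv''v : v'' ≤ v := by
        rw [← c]; exact le_add_of_nonneg_left a
      refine ih _ _ ?_ ?_ ?_ ?_ ?_
      · intro u hu'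
        rcases Multiset.mem_cons.1 hu' with rfl | h
        · exact a
        · exact hA u h
      · intro u hu'
        rcases Multiset.mem_cons.1 hu' with rfl | h
        · exact b
        · exact hB u (Multiset.mem_cons_of_mem h)
      · intro u hu'
        rcases Multiset.mem_cons.1 hu' with rfl | h
        · exact d.le
        · exact hAθ u h
      · have h1 : v' k + v'' k = v k := by rw [← c]; rfl
        rw [Multiset.sum_cons, Pi.add_apply] at hBs ⊢
        push_cast at hBs
        linarith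
      · intro u hu'
        rcases Multiset.mem_add.1 hu' with h | h
        · rcases Multiset.mem_cons.1 h with rfl | h
          · obtain ⟨w, hw, hvw⟩ := hu v (Multiset.mem_add.2 (Or.inr (Multiset.mem_cons_self _ _)))
            exact ⟨w, hw, hv'v.trans hvw⟩
          · exact hu u (Multiset.mem_add.2 (Or.inl h))
        · rcases Multiset.mem_cons.1 h with rfl | h
          · obtain ⟨w, hw, hvw⟩ := hu v (Multiset.mem_add.2 (Or.inr (Multiset.mem_cons_self _ _)))
            exact ⟨w, hw, hv''v.trans hvw⟩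
          · exact hu u (Multiset.mem_add.2 (Or.inr (Multiset.mem_cons_of_mem h)))

theorem crumble1 (k : G) (θ : ℝ) (hθ : 0 < θ) (m : ℕ) {M : Multiset (G → ℝ)} (hM : NN M)
    (h : M.sum k ≤ m * θ) :
    Force (fun M' => (∀ v ∈ M', v k ≤ θ) ∧ ∀ v ∈ M', ∃ u ∈ M, v ≤ u) m M := by
  have := crumble1_aux k θ hθ m M 0 M (by intro v hv; simp at hv) hM (by simp) h
    (by intro v hv; exact ⟨v, by simpa using hv, le_rfl⟩)
  simpa using this

theorem crumble [Fintype G] (m : ℕ) (hm : 1 ≤ m) {M : Multiset (G → ℝ)} (hM : NN M) :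
    Force (fun M' => ∀ v ∈ M', ∀ k, v k ≤ M.sum k / m) (Fintype.card G * m) M := by
  classical
  have hm0 : (0:ℝ) < m := by exact_mod_cast hm
  have key : ∀ s : Finset G,
      Force (fun M' => ∀ v ∈ M', ∀ k ∈ s, v k ≤ M.sum k / m) (s.card * m) M := by
    intro s
    induction s using Finset.induction_on with
    | empty => exact .done (by simp)
    | insert k s hk ih =>
      rw [Finset.card_insert_of_notMem hk, Nat.add_mul, one_mul]
      refine ih.bind_inv hM ?_
      intro M' hM' hNN hsum
      by_cases h0 : M.sum k = 0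
      · refine .done ?_
        intro v hv j hj
        rcases Finset.mem_insert.1 hj with rfl | hj
        · have h1 := halve_le_sum hNN hv j
          rw [hsum, h0] at h1
          rw [h0]
          simpa using h1
        · exact hM' v hv j hj
      · have hpos : 0 < M.sum k := lt_of_le_of_ne (halve_sum_nonneg hM k) (Ne.symm h0)
        have hθ : 0 < M.sum k / m := div_pos hpos hm0
        have hle : M'.sum k ≤ m * (M.sum k / m) := by
          rw [hsum]
          field_simp
          exact le_rfl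
        refine (crumble1 k (M.sum k / m) hθ m hNN hle).mono le_rfl ?_
        rintro M'' ⟨h1, h2⟩ v hv j hj
        rcases Finset.mem_insert.1 hj with rfl | hj
        · exact h1 v hv
        · obtain ⟨u, hu, hvu⟩ := h2 v hv
          exact (hvu j).trans (hM' u hu j hj)
  have := key Finset.univ
  rw [Finset.card_univ] at this
  exact this.mono le_rfl (fun M' h v hv k => h v hv k (Finset.mem_univ _))

theorem halve_lin [Fintype G] (a : G → ℝ) (M : Multiset (G → ℝ)) :
    (M.map (fun v => ∑ k, a k * v k)).sum = ∑ k, a k * M.sum k := by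
  induction M using Multiset.induction_on with
  | empty => simp
  | cons v M ih =>
    rw [Multiset.map_cons, Multiset.sum_cons, ih, ← Finset.sum_add_distrib]
    refine Finset.sum_congr rfl (fun k _ => ?_)
    rw [Multiset.sum_cons, Pi.add_apply]
    ring

theorem halve [Fintype G] (H : ℕ) (hH : 1 ≤ H) {M : Multiset (G → ℝ)} (hM : NN M) :
    Force (fun M' => ∃ A B : Multiset (G → ℝ), M' = A + B ∧
      (∀ k, |A.sum k - M.sum k / 2| ≤ M.sum k / (2 * H)) ∧
      (∀ k, |B.sum k - M.sum k / 2| ≤ M.sum k / (2 * H)))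
      (Fintype.card G * (Fintype.card G * H ^ 2)) M := by
  classical
  rcases isEmpty_or_nonempty G with hG | hG
  · exact .done ⟨M, 0, by simp, fun k => (hG.false k).elim, fun k => (hG.false k).elim⟩
  have hn1 : 1 ≤ Fintype.card G := Fintype.card_pos
  have hn : (0:ℝ) < Fintype.card G := by exact_mod_cast hn1
  have hH0 : (0:ℝ) < H := by exact_mod_cast hH
  have hm1 : 1 ≤ Fintype.card G * H ^ 2 := Nat.one_le_iff_ne_zero.2 (by positivity)
  refine (crumble (Fintype.card G * H ^ 2) hm1 hM).mono_inv hM le_rfl ?_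
  intro M' hM' hNN hsum
  set c : G → ℝ := fun k => if M.sum k = 0 then 0 else 1 / (M.sum k) ^ 2 with hc
  have hc0 : ∀ k, 0 ≤ c k := by
    intro k
    simp only [hc]
    split_ifs
    · exact le_rfl
    · positivity
  obtain ⟨A, B, rfl, hAB⟩ := signs c hc0 M'
  have hNA : NN A := fun v hv => hNN v (Multiset.mem_add.2 (Or.inl hv))
  have hNB : NN B := fun v hv => hNN v (Multiset.mem_add.2 (Or.inr hv))
  have hsumk : ∀ k, A.sum k + B.sum k = M.sum k := by
    intro k
    rw [← hsum, Multiset.sum_add, Pi.add_apply]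
  have hm0 : (0:ℝ) < ((Fintype.card G * H ^ 2 : ℕ) : ℝ) := by exact_mod_cast hm1
  -- the bound for the sum of squares
  have h1 : ((A + B).map (fun v => ∑ k, c k * v k ^ 2)).sum ≤
      ((A + B).map (fun v => ∑ k, (c k * (M.sum k / (Fintype.card G * H ^ 2 : ℕ))) * v k)).sum := by
    refine Multiset.sum_map_le_sum_map _ _ (fun v hv => ?_)
    refine Finset.sum_le_sum (fun k _ => ?_)
    have h2 := hM' v hv k
    have h3 : 0 ≤ v k := hNN v hv k
    have h4 : v k ^ 2 ≤ (M.sum k / (Fintype.card G * H ^ 2 : ℕ)) * v k := by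
      rw [pow_two]
      exact mul_le_mul_of_nonneg_right h2 h3
    calc c k * v k ^ 2 ≤ c k * ((M.sum k / (Fintype.card G * H ^ 2 : ℕ)) * v k) :=
          mul_le_mul_of_nonneg_left h4 (hc0 k)
      _ = _ := by ring
  rw [halve_lin] at h1
  have h2 : ∑ k, (c k * (M.sum k / (Fintype.card G * H ^ 2 : ℕ))) * (A + B).sum k ≤ 1 / (H:ℝ) ^ 2 := by
    have h3 : ∀ k ∈ (Finset.univ : Finset G),
        (c k * (M.sum k / (Fintype.card G * H ^ 2 : ℕ))) * (A + B).sum k ≤
          1 / ((Fintype.card G * H ^ 2 : ℕ) : ℝ) := by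
      intro k _
      rw [hsum]
      by_cases h0 : M.sum k = 0
      · rw [h0]
        simp only [mul_zero]
        positivity
      · simp only [hc, if_neg h0]
        apply le_of_eq
        field_simp
    refine (Finset.sum_le_sum h3).trans ?_
    rw [Finset.sum_const, Finset.card_univ, nsmul_eq_mul]
    push_cast
    apply le_of_eq
    field_simp
  have h3 : ∑ k, c k * (A.sum k - B.sum k) ^ 2 ≤ 1 / (H:ℝ) ^ 2 := hAB.trans (h1.trans h2)
  have h4 : ∀ k, |A.sum k - B.sum k| ≤ M.sum k / H := by
    intro k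
    have hMk : 0 ≤ M.sum k := halve_sum_nonneg hM k
    by_cases h0 : M.sum k = 0
    · have ha := halve_sum_nonneg hNA k
      have hb := halve_sum_nonneg hNB k
      have hs := hsumk k
      have ha0 : A.sum k = 0 := by linarith
      have hb0 : B.sum k = 0 := by linarith
      rw [ha0, hb0, h0]
      simp
    · have h5 : c k * (A.sum k - B.sum k) ^ 2 ≤ 1 / (H:ℝ) ^ 2 := by
        refine le_trans ?_ h3
        exact Finset.single_le_sum (f := fun k => c k * (A.sum k - B.sum k) ^ 2)
          (fun j _ => mul_nonneg (hc0 j) (sq_nonneg _)) (Finset.mem_univ k)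
      simp only [hc, if_neg h0] at h5
      have hpos : 0 < M.sum k := lt_of_le_of_ne hMk (Ne.symm h0)
      have h6 : (A.sum k - B.sum k) ^ 2 ≤ (M.sum k / H) ^ 2 := by
        have h7 : (A.sum k - B.sum k) ^ 2 = (M.sum k) ^ 2 * (1 / (M.sum k) ^ 2 * (A.sum k - B.sum k) ^ 2) := by
          field_simp
        rw [h7, div_pow]
        calc (M.sum k) ^ 2 * (1 / (M.sum k) ^ 2 * (A.sum k - B.sum k) ^ 2)
            ≤ (M.sum k) ^ 2 * (1 / (H:ℝ) ^ 2) := mul_le_mul_of_nonneg_left h5 (sq_nonneg _)
          _ = _ := by ring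
      exact abs_le_of_sq_le_sq h6 (div_nonneg hMk hH0.le)
  refine ⟨A, B, rfl, fun k => ?_, fun k => ?_⟩
  · have h5 := h4 k
    have h6 : A.sum k - M.sum k / 2 = (A.sum k - B.sum k) / 2 := by
      rw [← hsumk k]; ring
    rw [h6, abs_div, abs_of_pos (by norm_num : (0:ℝ) < 2)]
    calc |A.sum k - B.sum k| / 2 ≤ (M.sum k / H) / 2 := by linarith
      _ = _ := by rw [div_div, mul_comm]
  · have h5 := h4 k
    have h6 : B.sum k - M.sum k / 2 = -((A.sum k - B.sum k) / 2) := by
      rw [← hsumk k]; ring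
    rw [h6, abs_neg, abs_div, abs_of_pos (by norm_num : (0:ℝ) < 2)]
    calc |A.sum k - B.sum k| / 2 ≤ (M.sum k / H) / 2 := by linarith
      _ = _ := by rw [div_div, mul_comm]

end H85.Cake
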