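import Pool.Agent.H85.Cake.Loop

/-!
# The number of queries is `2^{O(n)}`   (JOB CAKE-BOUND)

`T n = 4^n`.  PROOF.  Let `B f := ∃ a, ∀ n ≥ 1, f n ≤ 2 ^ (a * n)`.  `B` is closed under sums
(`2^(a n) + 2^(b n) ≤ 2^((a+b) n)` for `a, b, n ≥ 1`, or `≤ 2^((a+b+1) n)`), products, and contains
constants, `n` (`n ≤ 2^n`), `4^n`, `2 ^ Nat.clog 2 (n*n)` (`≤ 2 * n^2` for `n ≥ 2`:
`Nat.pow_pred_clog_lt_self`; `= 1` for `n = 1`).  So `phaseCost` is in `B`, with exponent `a`;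
`cost T n ≤ ∑_{m ≤ n} m^2 phaseCost m ≤ n * n^2 * 2^(a n)` (induction), in `B`.
-/

namespace H85.Cake

/-- Functions bounded by `2 ^ (a n)`. -/
def bndB (f : ℕ → ℕ) : Prop := ∃ a : ℕ, ∀ n : ℕ, 1 ≤ n → f n ≤ 2 ^ (a * n)

theorem bndB_add {f g : ℕ → ℕ} (hf : bndB f) (hg : bndB g) : bndB (fun n => f n + g n) := by
  obtain ⟨a, ha⟩ := hf
  obtain ⟨b, hb⟩ := hg
  refine ⟨a + b + 1, fun n hn => ?_⟩
  have h1 : 2 ^ (a * n) ≤ 2 ^ ((a + b) * n) := Nat.pow_le_pow_right (by norm_num) (by nlinarith)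
  have h2 : 2 ^ (b * n) ≤ 2 ^ ((a + b) * n) := Nat.pow_le_pow_right (by norm_num) (by nlinarith)
  have h3 : 2 ^ ((a + b + 1) * n) = 2 ^ ((a + b) * n) * 2 ^ n := by
    rw [← pow_add]; congr 1; ring
  have h4 : 2 ≤ 2 ^ n := by
    calc 2 = 2 ^ 1 := by norm_num
      _ ≤ 2 ^ n := Nat.pow_le_pow_right (by norm_num) hn
  have h5 := ha n hn
  have h6 := hb n hn
  show f n + g n ≤ _
  rw [h3]
  calc f n + g n ≤ 2 ^ ((a + b) * n) * 2 := by omega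
    _ ≤ 2 ^ ((a + b) * n) * 2 ^ n := Nat.mul_le_mul_left _ h4

theorem bndB_mul {f g : ℕ → ℕ} (hf : bndB f) (hg : bndB g) : bndB (fun n => f n * g n) := by
  obtain ⟨a, ha⟩ := hf
  obtain ⟨b, hb⟩ := hg
  refine ⟨a + b, fun n hn => ?_⟩
  show f n * g n ≤ _
  rw [add_mul, pow_add]
  exact Nat.mul_le_mul (ha n hn) (hb n hn)

theorem bndB_const (c : ℕ) : bndB (fun _ => c) := by
  refine ⟨c, fun n hn => ?_⟩
  calc c ≤ 2 ^ c := Nat.lt_two_pow_self.le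
    _ ≤ 2 ^ (c * n) := Nat.pow_le_pow_right (by norm_num) (by nlinarith)

theorem bndB_id : bndB (fun n => n) :=
  ⟨1, fun n _ => by rw [one_mul]; exact Nat.lt_two_pow_self.le⟩

theorem bndB_sq {f : ℕ → ℕ} (hf : bndB f) : bndB (fun n => f n ^ 2) := by
  have := bndB_mul hf hf
  simpa [sq] using this

theorem bndB_four : bndB (fun n => 4 ^ n) :=
  ⟨2, fun n _ => by rw [pow_mul]; norm_num⟩

theorem bndB_clog : bndB (fun n => 2 ^ Nat.clog 2 (n * n)) := by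
  refine ⟨2, fun n _ => Nat.pow_le_pow_right (by norm_num) ?_⟩
  apply Nat.clog_le_of_le_pow
  have h : n ≤ 2 ^ n := Nat.lt_two_pow_self.le
  calc n * n ≤ 2 ^ n * 2 ^ n := Nat.mul_le_mul h h
    _ = 2 ^ (2 * n) := by rw [← pow_add]; congr 1; ring

theorem bndB_emax : bndB emax := by
  unfold emax
  exact bndB_add bndB_id (bndB_mul (bndB_add (bndB_mul (bndB_const 2) bndB_id) (bndB_const 4))
    (bndB_add (bndB_sq bndB_id) (bndB_const 1)))

theorem bndB_phaseCost : bndB (phaseCost (fun m => 4 ^ m)) := by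
  have h1 : bndB (fun n => n + 4 ^ n) := bndB_add bndB_id bndB_four
  have h2 : bndB (fixCost (fun m => 4 ^ m)) :=
    bndB_add (bndB_mul (bndB_add bndB_emax bndB_clog) (bndB_mul bndB_id (bndB_mul bndB_id
      (bndB_sq (bndB_mul (bndB_mul (bndB_const 8) bndB_id) bndB_emax))))) bndB_four
  have h3 : bndB (shrinkCost (fun m => 4 ^ m)) :=
    bndB_mul bndB_id (bndB_mul (bndB_mul bndB_id bndB_emax) h1)
  exact bndB_add h1 (bndB_add h2 h3)

theorem bndB_cost {a : ℕ} (ha : ∀ n : ℕ, 1 ≤ n → phaseCost (fun m => 4 ^ m) n ≤ 2 ^ (a * n))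
    (n : ℕ) : cost (fun m => 4 ^ m) n ≤ n * (n ^ 2 * 2 ^ (a * n)) := by
  induction n with
  | zero => simp [cost]
  | succ n ih =>
    have h1 := ha (n + 1) (by omega)
    have h2 : 2 ^ (a * n) ≤ 2 ^ (a * (n + 1)) :=
      Nat.pow_le_pow_right (by norm_num) (Nat.mul_le_mul_left _ (by omega))
    have h3 : n ^ 2 ≤ (n + 1) ^ 2 := Nat.pow_le_pow_left (by omega) 2
    calc cost (fun m => 4 ^ m) (n + 1)
        = (n + 1) ^ 2 * phaseCost (fun m => 4 ^ m) (n + 1) + cost (fun m => 4 ^ m) n := rfl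
      _ ≤ (n + 1) ^ 2 * 2 ^ (a * (n + 1)) + n * ((n + 1) ^ 2 * 2 ^ (a * (n + 1))) :=
          Nat.add_le_add (Nat.mul_le_mul_left _ h1)
            (ih.trans (Nat.mul_le_mul_left _ (Nat.mul_le_mul h3 h2)))
      _ = (n + 1) * ((n + 1) ^ 2 * 2 ^ (a * (n + 1))) := by ring

theorem cost_bound : ∃ c : ℕ, ∀ n : ℕ, 1 ≤ n →
    n + (n + 1) * cost (fun m => 4 ^ m) n ≤ 2 ^ (c * n) := by
  obtain ⟨a, ha⟩ := bndB_phaseCost
  have hc : bndB (cost (fun m => 4 ^ m)) := by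
    obtain ⟨b, hb⟩ := bndB_mul bndB_id (bndB_mul (bndB_sq bndB_id)
      (⟨a, fun n _ => le_rfl⟩ : bndB (fun n => 2 ^ (a * n))))
    exact ⟨b, fun n hn => (bndB_cost ha n).trans (hb n hn)⟩
  exact bndB_add bndB_id (bndB_mul (bndB_add bndB_id (bndB_const 1)) hc)

end H85.Cake
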