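import Pool.Agent.H85.Cake.Defs
import Pool.Agent.H85.Cake.Lift

/-!
# Envy-free completions   (JOB CAKE-COMPL)

`β b k` is the value for agent `k` of the bundle `b` already built.  `Compl β M`: the atoms `M` can be
added to the bundles, and the bundles given to the agents, without envy.

* `Compl.transfer`: PROOF: `Y', σ'` for `β'`; take `Y b = y (τ.symm b) + Y' (τ.symm b)` (so
  `Y (τ k) = y k + Y' k`) and `σ = τ ∘ σ'` (`σ'.trans τ`).  For `b = τ l`:
  `β (τ l) k + (Y (τ l)).sum k = β' l k + (Y' l).sum k`.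
* `Compl.efdiv`: `Compl 0 M → EFdiv M` (reindex `Y` by `σ`).
* `EFdiv.compl_of_dominance` : PROOF.  `Force.restrict` with `e = Subtype.val`, and the invariants
  (`Force.mono_inv`).  At the end `EFdiv (M'.map (· ∘ val))`: `Y : S → Multiset (S → ℝ)`; `lift_sum` gives
  `Z : S → Multiset (G → ℝ)` with `M' = ∑ s, Z s`, `(Z s).map (· ∘ val) = Y s`, so
  `(Y s).sum k = (Z s).sum k` for `k ∈ S`.  Take `Y' b = Z b` for `b ∈ S`, `0` for `b ∉ S`, `σ = 1`.
  Envy of `k` for `b`: if `b ∉ S`: `β b k ≤ β k k` and `(Y' k).sum k ≥ 0` (nonnegative atoms).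
  If `b ∈ S`, `k ∈ S`: `β b k ≤ β k k` and `(Y b).sum k ≤ (Y k).sum k`.  If `b ∈ S`, `k ∉ S`:
  `(Y' b).sum k ≤ M'.sum k = R.sum k` and `hdom`.
-/

namespace H85.Cake

variable {G : Type}

/-- The atoms `M` can be added to the bundles (values `β b k` for agent `k`), and the bundles
given to the agents, without envy. -/
def Compl [Fintype G] (β : G → G → ℝ) (M : Multiset (G → ℝ)) : Prop :=
  ∃ (Y : G → Multiset (G → ℝ)) (σ : Equiv.Perm G), M = ∑ b, Y b ∧
    ∀ k b, β b k + (Y b).sum k ≤ β (σ k) k + (Y (σ k)).sum k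

theorem Compl.transfer [Fintype G] {β β' : G → G → ℝ} {M : Multiset (G → ℝ)}
    (h : Compl β' M) (τ : Equiv.Perm G) (y : G → Multiset (G → ℝ))
    (hy : ∀ k a, β' k a = β (τ k) a + (y k).sum a) : Compl β (∑ k, y k + M) := by
  obtain ⟨Y', σ', hM, h⟩ := h
  refine ⟨fun b => y (τ.symm b) + Y' (τ.symm b), σ'.trans τ, ?_, ?_⟩
  · rw [hM, Finset.sum_add_distrib, Equiv.sum_comp τ.symm y, Equiv.sum_comp τ.symm Y']
  · intro k b
    have h1 := h k (τ.symm b)
    rw [hy, hy, Equiv.apply_symm_apply] at h1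
    simp only [Equiv.trans_apply, Equiv.symm_apply_apply, Multiset.sum_add, Pi.add_apply]
    linarith

theorem Compl.efdiv [Fintype G] {M : Multiset (G → ℝ)} (h : Compl (fun _ _ => 0) M) :
    EFdiv M := by
  obtain ⟨Y, σ, hM, h⟩ := h
  refine ⟨fun k => Y (σ k), ?_, fun k l => ?_⟩
  · rw [hM, Equiv.sum_comp σ Y]
  · have h1 := h k (σ l)
    simpa using h1

theorem EFdiv.compl_of_dominance [Fintype G] [DecidableEq G] {β : G → G → ℝ}
    {R : Multiset (G → ℝ)} (hR : NN R) (hef : ∀ k b, β b k ≤ β k k) (S : Finset G)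
    (hdom : ∀ k, k ∉ S → ∀ b ∈ S, β b k + R.sum k ≤ β k k) {N : ℕ}
    (ih : Force (EFdiv (G := {x // x ∈ S})) N
      (R.map (fun v => v ∘ (Subtype.val : {x // x ∈ S} → G)))) :
    Force (Compl β) N R := by
  refine (Force.restrict _ ih).mono_inv hR le_rfl ?_
  rintro M' ⟨Y, hY, hYef⟩ hN' hS'
  obtain ⟨Z, hZ, hZY⟩ := lift_sum _ M' Y hY
  have hsum : ∀ (s k : {x // x ∈ S}), (Z s).sum k.1 = (Y s).sum k := by
    intro s k
    rw [← hZY s]
    have h1 : ((Z s).map (fun v : G → ℝ => v ∘ (Subtype.val : {x // x ∈ S} → G))).sum k =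
        (((Z s).map (fun v : G → ℝ => v ∘ (Subtype.val : {x // x ∈ S} → G))).map
          (Pi.evalAddMonoidHom (fun _ : {x // x ∈ S} => ℝ) k)).sum := by
      rw [← map_multiset_sum]
      rfl
    have h2 : (Z s).sum k.1 = ((Z s).map (Pi.evalAddMonoidHom (fun _ : G => ℝ) k.1)).sum := by
      rw [← map_multiset_sum]
      rfl
    rw [h1, h2, Multiset.map_map]
    rfl
  have hNZ : ∀ s, NN (Z s) := by
    intro s v hv
    apply hN' v
    rw [hZ]
    rw [← Finset.add_sum_erase _ _ (Finset.mem_univ s)]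
    exact Multiset.mem_add.2 (Or.inl hv)
  have hnn : ∀ s k, 0 ≤ (Z s).sum k := fun s k => (Multiset.sum_nonneg (hNZ s) : (0 : G → ℝ) ≤ _) k
  have hle : ∀ s k, (Z s).sum k ≤ R.sum k := by
    intro s k
    rw [← hS', hZ, ← Finset.add_sum_erase _ _ (Finset.mem_univ s), Multiset.sum_add, Pi.add_apply]
    have h1 : 0 ≤ (∑ x ∈ Finset.univ.erase s, Z x).sum k := by
      have h2 : NN (∑ x ∈ Finset.univ.erase s, Z x) := by
        intro v hv
        apply hN' v
        rw [hZ, ← Finset.add_sum_erase _ _ (Finset.mem_univ s)]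
        exact Multiset.mem_add.2 (Or.inr hv)
      exact (Multiset.sum_nonneg h2 : (0 : G → ℝ) ≤ _) k
    linarith
  let Y' : G → Multiset (G → ℝ) := fun b => if hb : b ∈ S then Z ⟨b, hb⟩ else 0
  have hY1 : ∀ b (hb : b ∈ S), Y' b = Z ⟨b, hb⟩ := fun b hb => dif_pos hb
  have hY0 : ∀ b, b ∉ S → Y' b = 0 := fun b hb => dif_neg hb
  have hY'nn : ∀ b k, 0 ≤ (Y' b).sum k := by
    intro b k
    by_cases hb : b ∈ S
    · rw [hY1 b hb]; exact hnn _ _
    · rw [hY0 b hb]; simp
  refine ⟨Y', 1, ?_, ?_⟩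
  · rw [hZ]
    have h1 : ∑ b, Y' b = ∑ b ∈ S, Y' b := by
      symm
      apply Finset.sum_subset (Finset.subset_univ _)
      intro b _ hb
      exact hY0 b hb
    rw [h1, ← Finset.sum_coe_sort S Y']
    refine Finset.sum_congr rfl fun b _ => ?_
    rw [hY1 b.1 b.2]
  · intro k b
    rw [Equiv.Perm.one_apply]
    by_cases hb : b ∈ S
    · by_cases hk : k ∈ S
      · rw [hY1 b hb, hY1 k hk]
        have h1 := hYef ⟨k, hk⟩ ⟨b, hb⟩
        rw [← hsum, ← hsum] at h1
        exact add_le_add (hef k b) h1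
      · rw [hY1 b hb]
        have h1 := hdom k hk b hb
        have h2 := hle ⟨b, hb⟩ k
        have h3 := hY'nn k k
        linarith
    · rw [hY0 b hb]
      have h1 := hef k b
      have h3 := hY'nn k k
      simp only [Multiset.sum_zero, Pi.zero_apply, add_zero]
      linarith

end H85.Cake
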