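import Pool.Agent.H85.Cake.TrimDef
import Pool.Agent.H85.Cake.CutEq

/-!
# The core step and shrinking   (JOB CAKE-CORE)

`core`: PROOF.  `cutEqual c`, parts `P b`.  Apply the trimming theorem with `h = 1`,
`β = 0`, `unit = 1`, `L b 0 = P b` (sums over `Fin 1`).  Put `x k = Rm (μ k)`, `R' = ∑ b, Tr b`.
EF: claim `(Rm b).sum k = max (w b k) 0` for all `b k`: in the first case of `phys`
`w b k = (Rm b).sum k ≥ 0` (nonnegativity invariant: every atom of the final position is `≥ 0`);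
in the second `Rm b = 0` and `w b k = - t ≤ 0`.  So `(x l).sum k = max (w (μ l) k) 0 ≤ max (w (μ k) k) 0`
by `ef`.  Cutter: some item `b0` has minimal rank, so the second alternative of `rank` fails for it
(take `b0` with `rank b0` minimal): `w b0 c = (P b0).sum c = M.sum c / n`; so
`w (μ c) c ≥ w b0 c = M.sum c / n`, and `(Rm (μ c)).sum c ≤ (P (μ c)).sum c = M.sum c / n` by
`total` (`Tr` is nonnegative).  So `(x c).sum c = max (w (μ c) c) 0 = M.sum c / n` (`≥` and `≤`).

`coreN`: `core` for the same cutter `c` repeated `m` times: the residual value of `c` is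
`≤ (1 - 1/n)^m * M.sum c`, other values do not increase; the parts `x k` are the unions of the parts
of the rounds (sums of envy-free tuples are envy-free).  In one round
`R'.sum c = M.sum c - ∑ k, (x k).sum c ≤ M.sum c - M.sum c / n` (invariant `M'.sum = M.sum`,
all atoms nonnegative).

`shrink`: for every agent `c` in turn (induction on a `Finset` of agents) `coreN` with `m = n * t`:
`(1 - 1/n)^(n*t) ≤ (1/2)^t` since `(1 - 1/n)^n ≤ 1/2` for `n ≥ 1`
(`(1 - 1/n)^n ≤ exp(-1) < 1/2`, `Real.one_sub_le_exp_neg` / `Real.add_one_le_exp`,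
`Real.exp_one_gt_d9`; for `n = 1` it is `0`).
-/

namespace H85.Cake

variable {G : Type}

private theorem core_nn_add {A B : Multiset (G → ℝ)} : NN (A + B) ↔ NN A ∧ NN B := by
  unfold NN
  constructor
  · intro h
    exact ⟨fun v hv => h v (Multiset.mem_add.2 (Or.inl hv)),
      fun v hv => h v (Multiset.mem_add.2 (Or.inr hv))⟩
  · rintro ⟨h1, h2⟩ v hv
    rcases Multiset.mem_add.1 hv with h | h
    · exact h1 v h
    · exact h2 v h

private theorem core_nn_sum {ι : Type} [Fintype ι] {x : ι → Multiset (G → ℝ)}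
    (h : NN (∑ k, x k)) (k : ι) : NN (x k) := by
  classical
  rw [← Finset.add_sum_erase _ _ (Finset.mem_univ k)] at h
  exact (core_nn_add.1 h).1

private theorem core_nonneg {A : Multiset (G → ℝ)} (h : NN A) (k : G) : 0 ≤ A.sum k :=
  (Multiset.sum_nonneg h : (0 : G → ℝ) ≤ A.sum) k

private theorem core_sum_sum {ι : Type} [Fintype ι] (x : ι → Multiset (G → ℝ)) (k : G) :
    (∑ i, x i).sum k = ∑ i, (x i).sum k := by
  have h := map_sum (Multiset.sumAddMonoidHom (M := G → ℝ)) x Finset.univ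
  have h' : (∑ i, x i).sum = ∑ i, (x i).sum := h
  rw [h', Finset.sum_apply]

theorem core {T : ℕ → ℕ} (hT : TrimStatement T) [Fintype G] [DecidableEq G] [Nonempty G] (c : G)
    {M : Multiset (G → ℝ)} (hM : NN M) :
    Force (fun M' => ∃ (x : G → Multiset (G → ℝ)) (R' : Multiset (G → ℝ)),
      M' = ∑ k, x k + R' ∧ (∀ k l, (x l).sum k ≤ (x k).sum k) ∧
      (x c).sum c = M.sum c / Fintype.card G) (Fintype.card G + T (Fintype.card G)) M := by
  refine (cutEqual c hM).bind_inv hM ?_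
  rintro M₁ ⟨P, rfl, hP⟩ hN1 hS1
  have hNP : ∀ b, NN (P b) := core_nn_sum hN1
  have ht := hT G 1 (fun _ _ => 0) (fun _ => 1) (fun _ => one_pos) (fun b _ => P b)
    (fun b _ => hNP b)
  have e : ∑ b, ∑ _i : Fin 1, P b = ∑ b, P b := by
    refine Finset.sum_congr rfl fun b _ => ?_
    simp
  rw [e] at ht
  refine ht.mono_inv hN1 le_rfl ?_
  rintro M₂ ⟨Tr, Rm, w, μ, rank, rfl, h⟩ hN2 hS2
  have hNT : ∀ b, NN (Tr b) := fun b => (core_nn_add.1 (core_nn_sum hN2 b)).1
  have hNR : ∀ b, NN (Rm b) := fun b => (core_nn_add.1 (core_nn_sum hN2 b)).2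
  have hmax : ∀ b k, (Rm b).sum k = max (w b k) 0 := by
    intro b k
    rcases h.phys b with h1 | ⟨h1, t, ht0, h2⟩
    · have h3 := h1 k
      rw [zero_add] at h3
      rw [h3, max_eq_left (core_nonneg (hNR b) k)]
    · rw [h1, h2 k]
      have : (0 : ℝ) - t * 1 ≤ 0 := by linarith
      rw [max_eq_right this]
      simp
  refine ⟨fun k => Rm (μ k), ∑ b, Tr b, ?_, ?_, ?_⟩
  · rw [Finset.sum_add_distrib, Equiv.sum_comp μ Rm, add_comm]
  · intro k l
    rw [hmax, hmax]
    exact max_le_max (h.ef k (μ l)) le_rfl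
  · have htot : ∀ b k, (Tr b).sum k + (Rm b).sum k = (P b).sum k := by
      intro b k
      have h1 := congrFun (h.total b) k
      simpa using h1
    obtain ⟨b0, -, hb0⟩ := Finset.exists_min_image (Finset.univ : Finset G) rank
      ⟨c, Finset.mem_univ c⟩
    have hw0 : w b0 c = M.sum c / Fintype.card G := by
      rcases h.rank b0 with ⟨-, h2⟩ | ⟨k, h2, -⟩
      · have h3 := h2 c
        have h4 : w b0 c = (P b0).sum c := by simpa using h3
        rw [h4, hP b0]
      · exact absurd (hb0 (μ k) (Finset.mem_univ _)) (by omega)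
    have h1 : (Rm (μ c)).sum c ≤ M.sum c / Fintype.card G := by
      have h2 := htot (μ c) c
      have h3 := core_nonneg (hNT (μ c)) c
      rw [hP (μ c)] at h2
      linarith
    have h2 : M.sum c / Fintype.card G ≤ (Rm (μ c)).sum c := by
      rw [hmax, ← hw0]
      exact (h.ef c b0).trans (le_max_left _ _)
    exact le_antisymm h1 h2

/-- composition of rounds -/
private theorem core_comp [Fintype G] {Q Q' : Multiset (G → ℝ) → Prop} {N N' : ℕ}
    {M : Multiset (G → ℝ)} (hM : NN M)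
    (h1 : Force (fun M' => ∃ (x : G → Multiset (G → ℝ)) (R' : Multiset (G → ℝ)),
      M' = ∑ k, x k + R' ∧ (∀ k l, (x l).sum k ≤ (x k).sum k) ∧ Q R') N M)
    (h2 : ∀ R, NN R → Q R → Force (fun M' => ∃ (x : G → Multiset (G → ℝ))
      (R' : Multiset (G → ℝ)), M' = ∑ k, x k + R' ∧ (∀ k l, (x l).sum k ≤ (x k).sum k) ∧ Q' R')
        N' R) :
    Force (fun M' => ∃ (x : G → Multiset (G → ℝ)) (R' : Multiset (G → ℝ)),
      M' = ∑ k, x k + R' ∧ (∀ k l, (x l).sum k ≤ (x k).sum k) ∧ Q' R') (N + N') M := by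
  refine h1.bind_inv hM ?_
  rintro M₁ ⟨x, R, rfl, hx, hQ⟩ hN1 _
  have h3 := (h2 R (core_nn_add.1 hN1).2 hQ).frame (∑ k, x k)
  rw [add_comm R] at h3
  refine h3.mono le_rfl ?_
  rintro M₂ ⟨M₃, ⟨y, R', rfl, hy, hQ'⟩, rfl⟩
  refine ⟨fun k => x k + y k, R', ?_, ?_, hQ'⟩
  · rw [Finset.sum_add_distrib]
    abel
  · intro k l
    rw [Multiset.sum_add, Multiset.sum_add, Pi.add_apply, Pi.add_apply]
    exact add_le_add (hx k l) (hy k l)

private theorem core_round {T : ℕ → ℕ} (hT : TrimStatement T) [Fintype G] [DecidableEq G]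
    [Nonempty G] (c : G) {M : Multiset (G → ℝ)} (hM : NN M) :
    Force (fun M' => ∃ (x : G → Multiset (G → ℝ)) (R' : Multiset (G → ℝ)),
      M' = ∑ k, x k + R' ∧ (∀ k l, (x l).sum k ≤ (x k).sum k) ∧
      ((∀ k, R'.sum k ≤ M.sum k) ∧ R'.sum c ≤ (1 - 1 / (Fintype.card G : ℝ)) * M.sum c))
      (Fintype.card G + T (Fintype.card G)) M := by
  refine (core hT c hM).mono_inv hM le_rfl ?_
  rintro M' ⟨x, R', rfl, hx, hc⟩ hN hS
  have hNx : ∀ k, NN (x k) := core_nn_sum (core_nn_add.1 hN).1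
  have hS' : ∀ k, ∑ i, (x i).sum k + R'.sum k = M.sum k := by
    intro k
    rw [← hS, Multiset.sum_add, Pi.add_apply, core_sum_sum]
  refine ⟨x, R', rfl, hx, fun k => ?_, ?_⟩
  · have h1 : 0 ≤ ∑ i, (x i).sum k := Finset.sum_nonneg fun i _ => core_nonneg (hNx i) k
    have h2 := hS' k
    linarith
  · have h1 : (x c).sum c ≤ ∑ i, (x i).sum c :=
      Finset.single_le_sum (f := fun i => (x i).sum c) (fun i _ => core_nonneg (hNx i) c)
        (Finset.mem_univ c)
    have h2 := hS' c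
    have h3 : (1 - 1 / (Fintype.card G : ℝ)) * M.sum c = M.sum c - M.sum c / Fintype.card G := by
      ring
    rw [h3, ← hc]
    linarith

theorem coreN {T : ℕ → ℕ} (hT : TrimStatement T) [Fintype G] [DecidableEq G] [Nonempty G] (c : G)
    (m : ℕ) {M : Multiset (G → ℝ)} (hM : NN M) :
    Force (fun M' => ∃ (x : G → Multiset (G → ℝ)) (R' : Multiset (G → ℝ)),
      M' = ∑ k, x k + R' ∧ (∀ k l, (x l).sum k ≤ (x k).sum k) ∧ (∀ k, R'.sum k ≤ M.sum k) ∧
      R'.sum c ≤ (1 - 1 / (Fintype.card G : ℝ)) ^ m * M.sum c)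
      (m * (Fintype.card G + T (Fintype.card G))) M := by
  induction m with
  | zero =>
    refine Force.done ⟨fun _ => 0, M, ?_, fun _ _ => le_rfl, fun _ => le_rfl, ?_⟩
    · simp
    · simp
  | succ m ih =>
    have hn1 : (1 : ℝ) ≤ Fintype.card G := by exact_mod_cast Fintype.card_pos
    have hn : 0 ≤ 1 - 1 / (Fintype.card G : ℝ) := by
      have : 1 / (Fintype.card G : ℝ) ≤ 1 := by
        rw [div_le_one (by linarith)]
        exact hn1
      linarith
    have h := core_comp (Q := fun R' => (∀ k, R'.sum k ≤ M.sum k) ∧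
        R'.sum c ≤ (1 - 1 / (Fintype.card G : ℝ)) ^ m * M.sum c)
      (Q' := fun R' => (∀ k, R'.sum k ≤ M.sum k) ∧
        R'.sum c ≤ (1 - 1 / (Fintype.card G : ℝ)) ^ (m + 1) * M.sum c)
      (N' := Fintype.card G + T (Fintype.card G)) hM ih (by
        rintro R hR ⟨hQ1, hQ2⟩
        refine (core_round hT c hR).mono le_rfl ?_
        rintro M' ⟨x, R', h1, h2, h3, h4⟩
        refine ⟨x, R', h1, h2, fun k => (h3 k).trans (hQ1 k), h4.trans ?_⟩
        rw [pow_succ', mul_assoc]
        exact mul_le_mul_of_nonneg_left hQ2 hn)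
    rw [Nat.succ_mul]
    exact h

private theorem core_half (n t : ℕ) (hn : 1 ≤ n) :
    (1 - 1 / (n : ℝ)) ^ (n * t) ≤ 1 / 2 ^ t := by
  have hn1 : (1 : ℝ) ≤ n := by exact_mod_cast hn
  have hn0 : 0 ≤ 1 - 1 / (n : ℝ) := by
    have : 1 / (n : ℝ) ≤ 1 := by
      rw [div_le_one (by linarith)]
      exact hn1
    linarith
  have h1 : (1 - 1 / (n : ℝ)) ^ n ≤ 1 / 2 := by
    have h2 : 1 - 1 / (n : ℝ) ≤ Real.exp (-(1 / (n : ℝ))) := Real.one_sub_le_exp_neg _
    have h3 : (1 - 1 / (n : ℝ)) ^ n ≤ Real.exp (-(1 / (n : ℝ))) ^ n := pow_le_pow_left₀ hn0 h2 n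
    rw [← Real.exp_nat_mul] at h3
    have h4 : (n : ℝ) * -(1 / (n : ℝ)) = -1 := by field_simp
    rw [h4, Real.exp_neg] at h3
    refine h3.trans ?_
    have h5 := Real.add_one_le_exp (1 : ℝ)
    rw [inv_eq_one_div]
    exact one_div_le_one_div_of_le (by norm_num) (by linarith)
  rw [pow_mul]
  calc ((1 - 1 / (n : ℝ)) ^ n) ^ t ≤ (1 / 2) ^ t := pow_le_pow_left₀ (pow_nonneg hn0 n) h1 t
    _ = 1 / 2 ^ t := by rw [div_pow, one_pow]

theorem shrink {T : ℕ → ℕ} (hT : TrimStatement T) [Fintype G] [DecidableEq G] [Nonempty G]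
    (t : ℕ) {M : Multiset (G → ℝ)} (hM : NN M) :
    Force (fun M' => ∃ (x : G → Multiset (G → ℝ)) (R' : Multiset (G → ℝ)),
      M' = ∑ k, x k + R' ∧ (∀ k l, (x l).sum k ≤ (x k).sum k) ∧
      ∀ k, R'.sum k ≤ M.sum k / 2 ^ t)
      (Fintype.card G * (Fintype.card G * t * (Fintype.card G + T (Fintype.card G)))) M := by
  have key : ∀ s : Finset G,
      Force (fun M' => ∃ (x : G → Multiset (G → ℝ)) (R' : Multiset (G → ℝ)),
        M' = ∑ k, x k + R' ∧ (∀ k l, (x l).sum k ≤ (x k).sum k) ∧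
        ((∀ k, R'.sum k ≤ M.sum k) ∧ ∀ k ∈ s, R'.sum k ≤ M.sum k / 2 ^ t))
        (s.card * (Fintype.card G * t * (Fintype.card G + T (Fintype.card G)))) M := by
    intro s
    induction s using Finset.induction_on with
    | empty =>
      refine Force.done ⟨fun _ => 0, M, ?_, fun _ _ => le_rfl, fun _ => le_rfl, ?_⟩
      · simp
      · intro k hk
        exact absurd hk (Finset.notMem_empty k)
    | insert c s hc ih =>
      have h := core_comp (Q := fun R' => (∀ k, R'.sum k ≤ M.sum k) ∧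
          ∀ k ∈ s, R'.sum k ≤ M.sum k / 2 ^ t)
        (Q' := fun R' => (∀ k, R'.sum k ≤ M.sum k) ∧
          ∀ k ∈ insert c s, R'.sum k ≤ M.sum k / 2 ^ t)
        (N' := Fintype.card G * t * (Fintype.card G + T (Fintype.card G))) hM ih (by
          rintro R hR ⟨hQ1, hQ2⟩
          refine (coreN hT c (Fintype.card G * t) hR).mono le_rfl ?_
          rintro M' ⟨x, R', h1, h2, h3, h4⟩
          refine ⟨x, R', h1, h2, fun k => (h3 k).trans (hQ1 k), ?_⟩
          intro k hk
          rcases Finset.mem_insert.1 hk with hk | hk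
          · subst hk
            refine h4.trans ?_
            have h5 := core_half (Fintype.card G) t Fintype.card_pos
            have h6 := core_nonneg hR k
            have h7 : (0 : ℝ) ≤ 1 / 2 ^ t := by positivity
            calc (1 - 1 / (Fintype.card G : ℝ)) ^ (Fintype.card G * t) * R.sum k
                ≤ 1 / 2 ^ t * R.sum k := mul_le_mul_of_nonneg_right h5 h6
              _ ≤ 1 / 2 ^ t * M.sum k := mul_le_mul_of_nonneg_left (hQ1 k) h7
              _ = M.sum k / 2 ^ t := by ring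
          · exact (h3 k).trans (hQ2 k hk))
      rw [Finset.card_insert_of_notMem hc, Nat.succ_mul]
      exact h
  refine (key Finset.univ).mono (by rw [Finset.card_univ]) ?_
  rintro M' ⟨x, R', h1, h2, -, h4⟩
  exact ⟨x, R', h1, h2, fun k => h4 k (Finset.mem_univ k)⟩

end H85.Cake
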