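import Pool.Agent.H85.Cake.Val

/-!
# Truthful cuts exist   (JOB CAKE-CUTEX)

`cut_exists`: for `0 ≤ a ≤ b ≤ 1` and `0 ≤ r ≤ V [a,b]` there is `y ∈ [a,b]` with `V [a,y] = r`.

PROOF.  Let `g(y) = V [a,y]` on `[a,b]`; `g` is monotone (`val_Icc_add`, nonneg), `g(a) = 0`
(`Icc a a = {a}`), `g(b) = V [a,b]`, `g(y) - g(x) = V [x,y]` for `x ≤ y`.  Let
`y0 = sSup {y ∈ [a,b] | g y ≤ r}` (nonempty: contains `a`).  We claim `g(y0) = r`.

No jump to the right of a point: CLAIM R: for `x ∈ [a,b)` and `c > 0` there is `y ∈ (x,b]` with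
`V [x,y] < c`.  Suppose not: `V [x,y] ≥ c` for all `y ∈ (x,b]`.  Let
`m = sInf {V [x,y] : y ∈ (x,b]} ≥ c > 0` and take `y1 ∈ (x,b]` with `V [x,y1] < 3/2 m`.  By
divisibility there is a piece `Y ⊆ (x,y1]` (`Ioc x y1`, whose value is `V [x,y1]`) with
`V Y = V [x,y1] / 2`.  A piece `Y ⊆ (x,y1]` either contains `(x,e]` for some `e ∈ (x,y1]`, or is
disjoint from `(x,e]` for some `e ∈ (x, y1]` (finite union of intervals: if some interval of `Y`
contains points arbitrarily close to `x` then it contains some `(x,e]`, else all of them avoid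
some `(x,e]`).  In the first case `V Y ≥ V (x,e] = V [x,e] ≥ m` but `V Y < 3/4 m`: contradiction.
In the second case `V Y ≤ V ((x,y1] ∖ (x,e]) = V [x,y1] - V [x,e] < 3/2 m - m = m/2`, but
`V Y ≥ m/2`: contradiction.

CLAIM L: for `x ∈ (a,b]` and `c > 0` there is `y ∈ [a,x)` with `V [y,x] < c`: symmetric (or apply
CLAIM R to the reflected valuation `X ↦ V (image of X under t ↦ 1 - t)`, which is again a
valuation).

Now if `g(y0) < r` then `y0 < b` (`g b ≥ r`), by CLAIM R there is `y > y0` with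
`g(y) < r`, contradiction with the sup.  If `g(y0) > r` then `y0 > a` and by CLAIM L there is
`y < y0` with `g(y) > r`, so by monotonicity every element of the set is `≤ y`, contradiction.
-/

namespace H85.Cake

open Set

private theorem ce_dich {I : Set ℝ} (hI : I.OrdConnected) (x : ℝ) :
    (∀ᶠ z in nhdsWithin x (Ioi x), z ∈ I) ∨ (∀ᶠ z in nhdsWithin x (Ioi x), z ∉ I) := by
  by_cases h : ∃ e, x < e ∧ ∀ z ∈ Ioc x e, z ∉ I
  · obtain ⟨e, he, h⟩ := h
    right
    filter_upwards [Ioc_mem_nhdsGT he] with z hz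
    exact h z hz
  · push Not at h
    left
    obtain ⟨e0, he0, heI⟩ := h (x + 1) (by linarith)
    filter_upwards [Ioc_mem_nhdsGT he0.1] with z hz
    obtain ⟨w, hw, hwI⟩ := h z hz.1
    exact hI.out hwI heI ⟨hw.2, hz.2⟩

private theorem ce_dich_piece {Y : Set ℝ} (hY : IsPiece Y) (x : ℝ) :
    (∀ᶠ z in nhdsWithin x (Ioi x), z ∈ Y) ∨ (∀ᶠ z in nhdsWithin x (Ioi x), z ∉ Y) := by
  obtain ⟨p, I, hI, rfl⟩ := hY
  by_cases h : ∃ a, ∀ᶠ z in nhdsWithin x (Ioi x), z ∈ I a
  · obtain ⟨a, ha⟩ := h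
    left
    filter_upwards [ha] with z hz
    exact mem_iUnion.2 ⟨a, hz⟩
  · right
    have h1 : ∀ a, ∀ᶠ z in nhdsWithin x (Ioi x), z ∉ I a := fun a =>
      (ce_dich (hI a).1 x).resolve_left (fun h2 => h ⟨a, h2⟩)
    filter_upwards [Filter.eventually_all.2 h1] with z hz
    rw [mem_iUnion]
    rintro ⟨a, ha⟩
    exact hz a ha

private theorem ce_Ioc {V : Set ℝ → ℝ} (hV : IsValuation V) {x y : ℝ} (h0 : 0 ≤ x) (h1 : x ≤ y)
    (h2 : y ≤ 1) : V (Ioc x y) = V (Icc x y) := by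
  have hp1 : IsPiece {x} := isPiece_ordConnected ordConnected_singleton
    (by intro z hz; rw [mem_singleton_iff] at hz; subst hz; exact ⟨h0, h1.trans h2⟩)
  have hp2 : IsPiece (Ioc x y) := isPiece_ordConnected ordConnected_Ioc
    (fun z hz => ⟨h0.trans hz.1.le, hz.2.trans h2⟩)
  have h3 : Disjoint {x} (Ioc x y) := by
    rw [disjoint_singleton_left]
    exact fun h => lt_irrefl _ h.1
  have h4 := hV.add _ _ hp1 hp2 h3
  rw [val_singleton hV ⟨h0, h1.trans h2⟩, zero_add] at h4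
  rw [← h4]
  congr 1
  ext z
  constructor
  · rintro (h5 | h5)
    · rw [mem_singleton_iff] at h5
      subst h5
      exact ⟨le_rfl, h1⟩
    · exact ⟨h5.1.le, h5.2⟩
  · rintro h5
    rcases h5.1.eq_or_lt with h7 | h7
    · exact Or.inl h7.symm
    · exact Or.inr ⟨h7, h5.2⟩

private theorem ce_diff {X Y : Set ℝ} (hX : IsPiece X) (hY : IsPiece Y) : IsPiece (X \ Y) := by
  classical
  obtain ⟨p, I, hI, rfl⟩ := hY
  have h : ∀ s : Finset (Fin p), IsPiece (X \ ⋃ a ∈ s, I a) := by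
    intro s
    induction s using Finset.induction_on with
    | empty => simpa using hX
    | insert a s _ ih =>
      have h1 : X \ ⋃ b ∈ insert a s, I b = (X \ ⋃ b ∈ s, I b) \ I a := by
        ext z
        simp only [mem_sdiff, mem_iUnion, Finset.mem_insert]
        constructor
        · rintro ⟨h1, h2⟩
          exact ⟨⟨h1, fun ⟨b, hb, hz⟩ => h2 ⟨b, Or.inr hb, hz⟩⟩,
            fun hz => h2 ⟨a, Or.inl rfl, hz⟩⟩
        · rintro ⟨⟨h1, h2⟩, h3⟩
          refine ⟨h1, ?_⟩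
          rintro ⟨b, rfl | hb, hz⟩
          · exact h3 hz
          · exact h2 ⟨b, hb, hz⟩
      rw [h1]
      exact isPiece_diff_interval ih (hI a).1
  have h2 := h Finset.univ
  simpa using h2

private theorem ce_mono {V : Set ℝ → ℝ} (hV : IsValuation V) {X Y : Set ℝ} (hX : IsPiece X)
    (hY : IsPiece Y) (h : Y ⊆ X) : V Y ≤ V X := by
  have h1 := hV.add _ _ hY (ce_diff hX hY) disjoint_sdiff_self_right
  rw [union_sdiff_cancel h] at h1
  have h2 := hV.nonneg _ (ce_diff hX hY)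
  linarith

/-- no jump to the right of a point -/
private theorem ce_right {V : Set ℝ → ℝ} (hV : IsValuation V) {x b c : ℝ} (h0 : 0 ≤ x)
    (h1 : x < b) (h2 : b ≤ 1) (hc : 0 < c) : ∃ y, x < y ∧ y ≤ b ∧ V (Icc x y) < c := by
  by_contra hcon
  push Not at hcon
  set S : Set ℝ := {v | ∃ y, x < y ∧ y ≤ b ∧ v = V (Icc x y)} with hS
  have hSne : S.Nonempty := ⟨_, b, h1, le_rfl, rfl⟩
  have hSb : ∀ v ∈ S, c ≤ v := by
    rintro v ⟨y, hy1, hy2, rfl⟩
    exact hcon y hy1 hy2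
  have hm : c ≤ sInf S := le_csInf hSne hSb
  set m := sInf S with hmdef
  have hm0 : 0 < m := lt_of_lt_of_le hc hm
  obtain ⟨v, ⟨y1, hy1, hy2, rfl⟩, hv⟩ := exists_lt_of_csInf_lt hSne
    (show sInf S < 3 / 2 * m by rw [← hmdef]; linarith)
  have hmle : ∀ y, x < y → y ≤ b → m ≤ V (Icc x y) := fun y h3 h4 =>
    csInf_le ⟨c, hSb⟩ ⟨y, h3, h4, rfl⟩
  have hp : IsPiece (Ioc x y1) := isPiece_ordConnected ordConnected_Ioc
    (fun z hz => ⟨h0.trans hz.1.le, hz.2.trans (hy2.trans h2)⟩)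
  obtain ⟨Y, hYp, hYs, hYv⟩ := hV.divisible _ hp (1 / 2) ⟨by norm_num, by norm_num⟩
  rw [ce_Ioc hV h0 hy1.le (hy2.trans h2)] at hYv
  have hm1 := hmle y1 hy1 hy2
  rcases ce_dich_piece hYp x with h | h
  · have h3 : Y ∈ nhdsWithin x (Ioi x) := h
    rw [mem_nhdsGT_iff_exists_Ioc_subset] at h3
    obtain ⟨e, he, hes⟩ := h3
    have he' : x < min e y1 := lt_min he hy1
    have h4 : Ioc x (min e y1) ⊆ Y := fun z hz => hes ⟨hz.1, hz.2.trans (min_le_left _ _)⟩
    have h5 := val_mono_interval hV ordConnected_Ioc hYp h4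
    rw [ce_Ioc hV h0 he'.le ((min_le_right _ _).trans (hy2.trans h2))] at h5
    have h6 := hmle _ he' ((min_le_right _ _).trans hy2)
    linarith
  · have h3 : Yᶜ ∈ nhdsWithin x (Ioi x) := h
    rw [mem_nhdsGT_iff_exists_Ioc_subset] at h3
    obtain ⟨e, he, hes⟩ := h3
    have he' : x < min e y1 := lt_min he hy1
    set e' := min e y1 with he'def
    have he1 : e' ≤ y1 := min_le_right _ _
    have hpe : IsPiece (Ioc x e') := isPiece_ordConnected ordConnected_Ioc
      (fun z hz => ⟨h0.trans hz.1.le, hz.2.trans (he1.trans (hy2.trans h2))⟩)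
    have hd : Disjoint Y (Ioc x e') := by
      rw [Set.disjoint_left]
      intro z hz hz'
      exact hes ⟨hz'.1, hz'.2.trans (min_le_left _ _)⟩ hz
    have hYsub : Y ⊆ Ioc x y1 \ Ioc x e' := fun z hz =>
      ⟨hYs hz, fun hz' => Set.disjoint_left.1 hd hz hz'⟩
    have h5 : Ioc x y1 \ Ioc x e' = Ioc e' y1 := by
      ext z
      simp only [mem_sdiff, mem_Ioc, not_and, not_le]
      constructor
      · rintro ⟨⟨h6, h7⟩, h8⟩
        exact ⟨h8 h6, h7⟩
      · rintro ⟨h6, h7⟩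
        exact ⟨⟨he'.trans h6, h7⟩, fun _ => h6⟩
    have h6 : V (Icc x y1) = V (Icc x e') + V (Icc e' y1) :=
      val_Icc_add hV h0 he'.le he1 (hy2.trans h2)
    have h7 : V Y ≤ V (Icc e' y1) := by
      rw [h5] at hYsub
      exact ce_mono hV (isPiece_ordConnected ordConnected_Icc
        (fun z hz => ⟨h0.trans (he'.le.trans hz.1), hz.2.trans (hy2.trans h2)⟩)) hYp
        (hYsub.trans Ioc_subset_Icc_self)
    have h8 := hmle e' he' (he1.trans hy2)
    linarith

private theorem ce_refl_piece {X : Set ℝ} (hX : IsPiece X) :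
    IsPiece ((fun t : ℝ => 1 - t) ⁻¹' X) := by
  obtain ⟨p, I, hI, rfl⟩ := hX
  refine ⟨p, fun a => (fun t : ℝ => 1 - t) ⁻¹' (I a), fun a => ⟨?_, ?_⟩, preimage_iUnion⟩
  · exact (hI a).1.preimage_anti (fun u v huv => by
      change 1 - v ≤ 1 - u
      linarith)
  · intro z hz
    have h1 := (hI a).2 hz
    exact ⟨by linarith [h1.2], by linarith [h1.1]⟩

private theorem ce_refl_refl (X : Set ℝ) :
    (fun t : ℝ => 1 - t) ⁻¹' ((fun t : ℝ => 1 - t) ⁻¹' X) = X := by
  ext z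
  simp

private theorem ce_refl {V : Set ℝ → ℝ} (hV : IsValuation V) :
    IsValuation (fun X => V ((fun t : ℝ => 1 - t) ⁻¹' X)) where
  nonneg X hX := hV.nonneg _ (ce_refl_piece hX)
  add X Y hX hY hd := by
    rw [preimage_union]
    exact hV.add _ _ (ce_refl_piece hX) (ce_refl_piece hY) (hd.preimage _)
  divisible X hX l hl := by
    obtain ⟨Y, h1, h2, h3⟩ := hV.divisible _ (ce_refl_piece hX) l hl
    refine ⟨(fun t : ℝ => 1 - t) ⁻¹' Y, ce_refl_piece h1, ?_, ?_⟩
    · intro z hz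
      have h4 := h2 hz
      simpa using h4
    · rw [ce_refl_refl]
      exact h3

/-- no jump to the left of a point -/
private theorem ce_left {V : Set ℝ → ℝ} (hV : IsValuation V) {a x c : ℝ} (h0 : 0 ≤ a)
    (h1 : a < x) (h2 : x ≤ 1) (hc : 0 < c) : ∃ y, a ≤ y ∧ y < x ∧ V (Icc y x) < c := by
  obtain ⟨y, h3, h4, h5⟩ := ce_right (ce_refl hV) (x := 1 - x) (b := 1 - a) (by linarith)
    (by linarith) (by linarith) hc
  refine ⟨1 - y, by linarith, by linarith, ?_⟩
  have h6 : (fun t : ℝ => 1 - t) ⁻¹' (Icc (1 - x) y) = Icc (1 - y) x := by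
    ext z
    simp only [mem_preimage, mem_Icc]
    constructor
    · rintro ⟨h7, h8⟩
      exact ⟨by linarith, by linarith⟩
    · rintro ⟨h7, h8⟩
      exact ⟨by linarith, by linarith⟩
  rw [h6] at h5
  exact h5

theorem cut_exists {V : Set ℝ → ℝ} (hV : IsValuation V) {a b r : ℝ} (h0 : 0 ≤ a) (h1 : a ≤ b)
    (h2 : b ≤ 1) (hr : 0 ≤ r) (hr' : r ≤ V (Icc a b)) : ∃ y ∈ Icc a b, V (Icc a y) = r := by
  set S : Set ℝ := {y | y ∈ Icc a b ∧ V (Icc a y) ≤ r} with hS
  have haS : a ∈ S := by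
    refine ⟨⟨le_rfl, h1⟩, ?_⟩
    rw [Icc_self, val_singleton hV ⟨h0, h1.trans h2⟩]
    exact hr
  have hSb : BddAbove S := ⟨b, fun y hy => hy.1.2⟩
  have hy0a : a ≤ sSup S := le_csSup hSb haS
  have hy0b : sSup S ≤ b := csSup_le ⟨a, haS⟩ (fun y hy => hy.1.2)
  set y0 := sSup S with hy0
  refine ⟨y0, ⟨hy0a, hy0b⟩, ?_⟩
  rcases lt_trichotomy (V (Icc a y0)) r with h | h | h
  · exfalso
    have h3 : y0 < b := by
      rcases hy0b.lt_or_eq with h4 | h4
      · exact h4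
      · rw [h4] at h
        linarith
    obtain ⟨y, h4, h5, h6⟩ := ce_right hV (h0.trans hy0a) h3 h2
      (show 0 < r - V (Icc a y0) by linarith)
    have h7 := val_Icc_add hV h0 hy0a h4.le (h5.trans h2)
    have h8 : y ∈ S := ⟨⟨hy0a.trans h4.le, h5⟩, by linarith⟩
    have h9 := le_csSup hSb h8
    linarith
  · exact h
  · exfalso
    have h3 : a < y0 := by
      rcases hy0a.lt_or_eq with h4 | h4
      · exact h4
      · rw [← h4, Icc_self, val_singleton hV ⟨h0, h1.trans h2⟩] at h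
        linarith
    obtain ⟨y, h4, h5, h6⟩ := ce_left hV h0 h3 (hy0b.trans h2)
      (show 0 < V (Icc a y0) - r by linarith)
    have h7 := val_Icc_add hV h0 h4 h5.le (hy0b.trans h2)
    have h8 : y0 ≤ y := by
      apply csSup_le ⟨a, haS⟩
      intro s hs
      by_contra h9
      rw [not_le] at h9
      have h10 := val_Icc_add hV h0 h4 h9.le (hs.1.2.trans h2)
      have h11 := hV.nonneg (Icc y s) (isPiece_ordConnected ordConnected_Icc
        (fun z hz => ⟨h0.trans (h4.trans hz.1), hz.2.trans (hs.1.2.trans h2)⟩))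
      linarith [hs.2]
    linarith

end H85.Cake
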