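import Pool.Agent.H85.Cake.Model

/-!
# Asking all agents for the value of an interval   (JOB CAKE-EVAL)

`evalAll`: given continuations `f a` for every vector of answers `a : Fin n → ℝ`, there is a
protocol which asks every agent `EVAL(x,y)` and goes on with `f a`.

PROOF.  Prove by induction on `m ≤ n` (or on a list / finset of agents still to be asked) the
statement: for every partial vector `a0`, there is a protocol `P` which asks the agents
`k < m` (values `k.val < m`), with `P.Legal`, `P.Within (m + q)` and such that for all `i V`: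
if `f a` satisfies `NoEnvy i V` for all `a` with `(∀ k, m ≤ k → a k = a0 k)` and
`(i < m → a i = V (Icc x y))`, then `P.NoEnvy i V`.  Step: ask agent `m` and update `a0`.
(`Proto.NoEnvy` for `eval k x y next` is `∀ v, (k = i → v = V (Icc x y)) → (next v).NoEnvy i V`.)
For the final answer take `m = n`, `a0 = 0`.
-/

namespace H85.Cake

open Set

theorem evalAll_aux {n : ℕ} {x y : ℝ} (hx : x ∈ Icc (0:ℝ) 1) (hy : y ∈ Icc (0:ℝ) 1)
    (f : (Fin n → ℝ) → Proto n) (q : ℕ) (hL : ∀ a, (f a).Legal) (hW : ∀ a, (f a).Within q)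
    (m : ℕ) (hm : m ≤ n) (a0 : Fin n → ℝ) :
    ∃ P : Proto n, P.Legal ∧ P.Within (m + q) ∧
      ∀ (i : Fin n) (V : Set ℝ → ℝ),
        (∀ a : Fin n → ℝ, (∀ k : Fin n, m ≤ k.val → a k = a0 k) →
          (i.val < m → a i = V (Icc x y)) → (f a).NoEnvy i V) → P.NoEnvy i V := by
  induction m generalizing a0 with
  | zero =>
    refine ⟨f a0, hL a0, by simpa using hW a0, fun i V h => ?_⟩
    exact h a0 (fun k _ => rfl) (fun h => absurd h (Nat.not_lt_zero _))
  | succ m ih =>
    choose P hPL hPW hPE using ih (by omega)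
    refine ⟨Proto.eval ⟨m, by omega⟩ x y
      (fun v => P (Function.update a0 ⟨m, by omega⟩ v)), ?_, ?_, ?_⟩
    · exact ⟨hx, hy, fun v => hPL _⟩
    · exact ⟨m + q, by omega, fun v => hPW _⟩
    · intro i V h v hv
      apply hPE
      intro a ha1 ha2
      apply h a
      · intro k hk
        rw [ha1 k (by omega), Function.update_of_ne]
        intro e
        rw [e] at hk
        simp only at hk
        omega
      · intro hi
        rcases Nat.lt_or_ge i.val m with h1 | h1
        · exact ha2 h1
        · have e : (⟨m, by omega⟩ : Fin n) = i := Fin.ext (by simp only; omega)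
          rw [← hv e, ← e, ha1 _ (le_refl m), Function.update_self]

theorem evalAll {n : ℕ} {x y : ℝ} (hx : x ∈ Icc (0:ℝ) 1) (hy : y ∈ Icc (0:ℝ) 1)
    (f : (Fin n → ℝ) → Proto n) (q : ℕ) (hL : ∀ a, (f a).Legal) (hW : ∀ a, (f a).Within q) :
    ∃ P : Proto n, P.Legal ∧ P.Within (n + q) ∧
      ∀ (i : Fin n) (V : Set ℝ → ℝ),
        (∀ a : Fin n → ℝ, a i = V (Icc x y) → (f a).NoEnvy i V) → P.NoEnvy i V := by
  obtain ⟨P, h1, h2, h3⟩ := evalAll_aux hx hy f q hL hW n le_rfl (fun _ => 0)
  exact ⟨P, h1, h2, fun i V h => h3 i V (fun a _ ha => h a (ha i.2))⟩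

end H85.Cake
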