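import Pool.Agent.H85.Cake.MCtx

/-!
# Obtaining the marks; the lowest marks   (JOB CAKE-MMARKS)

`marks`: ask for all the marks: at most one query for every pair `(k, j)`.
PROOF: induction on the finset `S ⊆ W' ×ˢ Z` of pairs whose mark is known (statement: for every
finset `S` of pairs with `j ∈ Z` for all `(k,j) ∈ S`, in `S.card` queries one can force: known
points grow, chains, and `∃ M, ∀ (k,j) ∈ S, M k j ∈ K' j ∧ (p j k ≤ o k → M k j = p j) ∧
(o k < p j k → M k j k = o k)`).  For one more pair `(k,j)`: if `p j k ≤ o k` put `M k j = p j`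
and no query, else query `(j, k, o k)` (allowed because `o k ≤ p j k`, `p j ∈ K j ⊆ K' j`), and
update `M` at `(k,j)` with the new point (`MForce.move`, `MForce.bind_inv`).

`isRho_exists`: PROOF: for every `j ∈ Z` choose `k ∈ W' ∖ A` minimising `M k j g` for a fixed
coordinate `g : G` (`Finset.exists_min_image`); `Chain.sle_of_le` gives `SLe`.
-/

namespace H85.Cake

variable {G J Γ : Type} [LinearOrder Γ]

private theorem marks_aux (Z : Finset J) (p : J → G → Γ) (o : G → Γ)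
    (K : J → Set (G → Γ)) (hK : ∀ j, Chain (K j)) (hp : ∀ j ∈ Z, p j ∈ K j)
    (S : Finset (G × J)) :
    (∀ x ∈ S, x.2 ∈ Z) →
    MForce (fun K' => (∀ j, K j ⊆ K' j) ∧ (∀ j, Chain (K' j)) ∧
      ∃ M : G → J → G → Γ, ∀ x ∈ S, M x.1 x.2 ∈ K' x.2 ∧
        (p x.2 x.1 ≤ o x.1 → M x.1 x.2 = p x.2) ∧
        (o x.1 < p x.2 x.1 → M x.1 x.2 x.1 = o x.1)) S.card K := by
  classical
  induction S using Finset.induction_on with
  | empty =>
    intro _
    exact .done ⟨fun _ => subset_rfl, hK, fun _ j => p j, by simp⟩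
  | insert x S hx ih =>
    intro hS
    rw [Finset.card_insert_of_notMem hx]
    have hxZ : x.2 ∈ Z := hS x (Finset.mem_insert_self x S)
    refine (ih (fun y hy => hS y (Finset.mem_insert_of_mem hy))).bind ?_
    rintro K' ⟨h1, h2, M, hM⟩
    -- update of the marks
    have hupd : ∀ (K'' : J → Set (G → Γ)) (q : G → Γ), (∀ j, K' j ⊆ K'' j) → q ∈ K'' x.2 →
        (p x.2 x.1 ≤ o x.1 → q = p x.2) → (o x.1 < p x.2 x.1 → q x.1 = o x.1) →
        ∃ M : G → J → G → Γ, ∀ y ∈ insert x S, M y.1 y.2 ∈ K'' y.2 ∧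
        (p y.2 y.1 ≤ o y.1 → M y.1 y.2 = p y.2) ∧
        (o y.1 < p y.2 y.1 → M y.1 y.2 y.1 = o y.1) := by
      intro K'' q hsub hq hq1 hq2
      refine ⟨fun k j => if k = x.1 ∧ j = x.2 then q else M k j, fun y hy => ?_⟩
      by_cases hyx : y.1 = x.1 ∧ y.2 = x.2
      · have hyx' : y = x := Prod.ext hyx.1 hyx.2
        subst hyx'
        simp only [and_self, if_true]
        exact ⟨hq, hq1, hq2⟩
      · simp only [if_neg hyx]
        have hyS : y ∈ S := by
          rcases Finset.mem_insert.1 hy with h | h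
          · exact absurd ⟨congrArg Prod.fst h, congrArg Prod.snd h⟩ hyx
          · exact h
        obtain ⟨a1, a2, a3⟩ := hM y hyS
        exact ⟨hsub _ a1, a2, a3⟩
    rcases le_or_gt (p x.2 x.1) (o x.1) with hle | hlt
    · exact .done ⟨h1, h2, hupd K' (p x.2) (fun _ => subset_rfl) (h1 _ (hp _ hxZ))
        (fun _ => rfl) (fun h => absurd h (not_lt.2 hle))⟩
    · refine .move x.2 x.1 (p x.2) (h1 _ (hp _ hxZ)) (o x.1) hlt.le ?_
      rintro K'' a b ⟨q, hq, hqo⟩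
      exact .done ⟨fun j => (h1 j).trans (a j), b, hupd K'' q a hq
        (fun h => absurd hlt (not_lt.2 h)) (fun _ => hqo)⟩

theorem marks (W' : Finset G) (Z : Finset J) (p : J → G → Γ) (o : G → Γ)
    (K : J → Set (G → Γ)) (hK : ∀ j, Chain (K j)) (hp : ∀ j ∈ Z, p j ∈ K j) :
    MForce (fun K' => (∀ j, K j ⊆ K' j) ∧ (∀ j, Chain (K' j)) ∧
      ∃ M : G → J → G → Γ, (∀ k ∈ W', ∀ j ∈ Z, M k j ∈ K' j) ∧
        (∀ k ∈ W', ∀ j ∈ Z, p j k ≤ o k → M k j = p j) ∧
        (∀ k ∈ W', ∀ j ∈ Z, o k < p j k → M k j k = o k)) (W'.card * Z.card) K := by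
  classical
  have h := marks_aux Z p o K hK hp (W' ×ˢ Z) (fun x hx => (Finset.mem_product.1 hx).2)
  rw [Finset.card_product] at h
  refine h.mono le_rfl ?_
  rintro K' ⟨h1, h2, M, hM⟩
  exact ⟨h1, h2, M,
    fun k hk j hj => (hM (k, j) (Finset.mem_product.2 ⟨hk, hj⟩)).1,
    fun k hk j hj => (hM (k, j) (Finset.mem_product.2 ⟨hk, hj⟩)).2.1,
    fun k hk j hj => (hM (k, j) (Finset.mem_product.2 ⟨hk, hj⟩)).2.2⟩

theorem isRho_exists [Nonempty G] {W' : Finset G} {Z : Finset J} {M : G → J → G → Γ}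
    {K : J → Set (G → Γ)} (hK : ∀ j, Chain (K j)) (hM : ∀ k ∈ W', ∀ j ∈ Z, M k j ∈ K j)
    {A : Finset G} (hA : ∃ k ∈ W', k ∉ A) :
    ∃ ρA : J → G → Γ, IsRho W' Z M A ρA ∧ ∀ j ∈ Z, ρA j ∈ K j := by
  classical
  let g : G := Classical.arbitrary G
  have hne : (W'.filter (fun k => k ∉ A)).Nonempty := by
    obtain ⟨k, h1, h2⟩ := hA
    exact ⟨k, Finset.mem_filter.2 ⟨h1, h2⟩⟩
  have h1 : ∀ j, ∃ k ∈ W'.filter (fun k => k ∉ A), ∀ k' ∈ W'.filter (fun k => k ∉ A),
      M k j g ≤ M k' j g := fun j => Finset.exists_min_image _ (fun k => M k j g) hne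
  choose f hf1 hf2 using h1
  refine ⟨fun j => M (f j) j, fun j hj => ⟨⟨f j, ?_, ?_, rfl⟩, fun k hk hkA => ?_⟩,
    fun j hj => hM _ (Finset.mem_filter.1 (hf1 j)).1 j hj⟩
  · exact (Finset.mem_filter.1 (hf1 j)).1
  · exact (Finset.mem_filter.1 (hf1 j)).2
  · exact (hK j).sle_of_le (hM _ (Finset.mem_filter.1 (hf1 j)).1 j hj) (hM k hk j hj)
      (hf2 j k (Finset.mem_filter.2 ⟨hk, hkA⟩))

end H85.Cake
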