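import Pool.Agent.H85.Cake.MStrict

/-!
# The new state after a price step   (JOB CAKE-MNEW)

`newState`.  Notation: `W' = {i ∈ W | i = f ∨ μ i ∈ Z}`, `A = W' ∖ {d}`, `(q, ν)` the outcome of
the market of `A` on `Z` with start levels `ρA` = marks of `d`
(`IsRho W' Z M A ρA` says exactly `ρA j = M d j` for `j ∈ Z`).  New levels `pn j = q j` for
`j ∈ Z`, `p j` else; new matching `μn i = ν i` for `i ∈ A`, `μ i` else; new free agent `d`.
`A.card = Z.card`, so `ν : A → Z` is bijective.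

FACTS.  (F1) `SLt (q j) (p j)` for `j ∈ Z` (`Ctx.strict`).
(F2) for `j ∈ Z`: `q j d ≤ ρA j d = M d j d ≤ o d` (`mark_val`).
(F3) if `j ∈ Z` and `q j = ρA j` then `q j d = o d`: `M d j = q j ≠ p j` by (F1), so `high` applies.
(F4) for `i ∈ W`, `i ∉ W'` (so `i ≠ f`, `μ i ∈ O ∖ Z`): `pn (μ i) i = p (μ i) i`, and
`pn j i ≤ p j i ≤ p (μ i) i` for all `j ∈ O`.
(F5) for `i ∈ A`: `pn (ν i) i = q (ν i) i ≥ o i ≥ p j i` for `j ∈ O ∖ Z`, and
`≥ q j i` for `j ∈ Z` (`hout.ef`).
(F6) `max_{j ∈ O} pn j d = o d`: outside `Z` by `ho`, inside by (F2).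

PSTATE.  free: `d ∈ W' ⊆ W`.  le: `q j ≤ p j ≤ ρ j`.  mem, inj: `i ∈ W`, `i ≠ d`: either `i ∈ A`
and `μn i = ν i ∈ Z`, or `i ∉ W'` and `μn i = μ i ∈ O ∖ Z` (as `i ∉ W'` means `μ i ∉ Z`).
ef: (F4), (F5).  neat: if `j ∈ O` is unmatched by `μn`: `j ∉ Z` (`ν` is onto `Z`), so `pn j = p j`;
`j` is unmatched by `μ`: if `μ i = j ∉ Z`, `i ∈ W`, `i ≠ f` then `i ∉ W'` and `μn i = j`.
So `p j = ρ j`.
linked: let `X ⊆ O` nonempty with `pn j ≠ ρ j` on `X`; `X1 = X ∩ Z`, `X2 = X ∖ Z`.
 * If `X1` is nonempty: the agents of `W'` demanding (w.r.t. `pn`, `O`) an item of `X1` are at least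
   `X1.card + 1`: if some `j ∈ X1` has `q j = ρA j`, then `j ∈ Dem O pn d` by (F3),(F6), and for
   every `j' ∈ X1` the agent `i ∈ A` with `ν i = j'` demands `j'` by (F5).  Otherwise
   `hout.linked` for `X1` gives `X1.card + 1` agents `i ∈ A` with some
   `j ∈ X1 ∩ Dem Z q i`, and then `j ∈ Dem O pn i`: `pn j i = q j i ≥ q (ν i) i ≥` everything.
   The items of `X2` are not at their start (`pn = p ≠ ρ`), so matched by `μ`, by agents
   `i ∈ W ∖ W'`, who demand them (F4): `X2.card` agents, disjoint from `W'`.  Total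
   `≥ X1.card + 1 + X2.card = X.card + 1`.
 * If `X1 = ∅`: `hs.linked` for `X = X2` gives `X.card + 1` agents `i ∈ W` with some
   `j ∈ X ∩ Dem O p i`; such `i` is not in `W'` (`Dem O p i ⊆ Z` for `i ∈ W'`, by `hZ`), and
   `j ∈ Dem O pn i` by (F4).
The levels `pn j` are in `K j`.

GROWTH.  Let `Z'` be closed for the new state.  `Dem O pn d` contains the items `j ∈ Z` with
`q j = ρA j` (F3, F6) and an item outside `Z` (`ho`).  Claim `Z ⊆ Z'`: let `X = Z ∖ Z'` and suppose
it is nonempty.  No `j ∈ X` has `q j = ρA j`.  By `hout.linked` there are `X.card + 1` agents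
`i ∈ A` with some `j ∈ X ∩ Dem Z q i ⊆ Dem O pn i`; as `ν` is injective, one of them has
`ν i ∉ X`, so `ν i ∈ Z ∩ Z'`, `i ≠ d`, `μn i = ν i ∈ Z'`, so `Dem O pn i ⊆ Z'` by closedness:
contradiction with `j ∉ Z'`.  So `Z ⊆ Z'` and `Z'` has an element outside `Z`:
`Z.card + 1 ≤ Z'.card`.
-/

namespace H85.Cake

variable {G J Γ : Type} [LinearOrder Γ]

open Classical in
theorem newState [Nonempty G] {W : Finset G} {O : Finset J} {ρ p : J → G → Γ} {μ : G → J}
    {f : G} (hs : PState W O ρ p μ f) {Z : Finset J} (hZ : Closed W O p μ f Z)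
    (hmat : ∀ j ∈ Z, ∃ i ∈ W, i ≠ f ∧ μ i = j) {K : J → Set (G → Γ)}
    (hp : ∀ j ∈ O, p j ∈ K j) {o : G → Γ} {M : G → J → G → Γ} {W' : Finset G}
    (hW' : W' = W.filter (fun i => i = f ∨ μ i ∈ Z))
    (ho : ∀ i ∈ W', (∀ j ∈ O, j ∉ Z → p j i ≤ o i) ∧ ∃ j ∈ O, j ∉ Z ∧ p j i = o i)
    (hctx : Ctx W' Z p o M K) {A : Finset G} {d : G} (hd : d ∉ A) (hWA : W' = insert d A)
    {ρA q : J → G → Γ} {ν : G → J} (hρ : IsRho W' Z M A ρA) (hq : ∀ j ∈ Z, q j ∈ K j)
    (hout : Outcome A Z ρA q ν) (hoA : ∀ i ∈ A, o i ≤ q (ν i) i) :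
    ∃ (pn : J → G → Γ) (μn : G → J), PState W O ρ pn μn d ∧ (∀ j ∈ O, pn j ∈ K j) ∧
      ∀ Z', Closed W O pn μn d Z' → Z.card + 1 ≤ Z'.card := by
  have hA : A ⊆ W' := by rw [hWA]; exact Finset.subset_insert _ _
  have hdW' : d ∈ W' := by rw [hWA]; exact Finset.mem_insert_self _ _
  have hW'W : W' ⊆ W := by rw [hW']; exact Finset.filter_subset _ _
  have hW'mem : ∀ i, i ∈ W' ↔ i ∈ W ∧ (i = f ∨ μ i ∈ Z) := by
    intro i; rw [hW', Finset.mem_filter]
  have hcardA : A.card = Z.card := by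
    have h1 := hctx.card
    rw [hWA, Finset.card_insert_of_notMem hd] at h1
    omega
  have hsurj : ∀ j ∈ Z, ∃ i ∈ A, ν i = j := by
    have himg : A.image ν = Z := by
      apply Finset.eq_of_subset_of_card_le
      · intro j hj
        obtain ⟨i, hi, rfl⟩ := Finset.mem_image.mp hj
        exact hout.mem i hi
      · rw [Finset.card_image_of_injOn (fun a ha b hb hab => hout.inj a ha b hb hab), hcardA]
    intro j hj
    rw [← himg] at hj
    obtain ⟨i, hi, h⟩ := Finset.mem_image.mp hj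
    exact ⟨i, hi, h⟩
  have hrho : ∀ j ∈ Z, ρA j = M d j := by
    intro j hj
    obtain ⟨k, hk, hkA, hk1⟩ := (hρ j hj).1
    rw [hWA, Finset.mem_insert] at hk
    rcases hk with rfl | hk
    · exact hk1
    · exact absurd hk hkA
  have F1 : ∀ j ∈ Z, SLt (q j) (p j) := hctx.strict hA hρ hq hout
  have F2 : ∀ j ∈ Z, q j d ≤ o d := by
    intro j hj
    have h1 := (hout.le j hj).le d
    rw [hrho j hj] at h1
    exact h1.trans (hctx.mark_val hdW' hj)
  have F3 : ∀ j ∈ Z, q j = ρA j → q j d = o d := by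
    intro j hj h1
    rw [hrho j hj] at h1
    have h2 : ¬ p j d ≤ o d := by
      intro h3
      have h4 := hctx.low d hdW' j hj h3
      exact (F1 j hj).ne (h1.trans h4)
    rw [h1]
    exact hctx.high d hdW' j hj (not_le.mp h2)
  obtain ⟨pn, hpn⟩ : ∃ pn : J → G → Γ, pn = fun j => if j ∈ Z then q j else p j := ⟨_, rfl⟩
  obtain ⟨μn, hμn⟩ : ∃ μn : G → J, μn = fun i => if i ∈ A then ν i else μ i := ⟨_, rfl⟩
  have pnZ : ∀ j, j ∈ Z → pn j = q j := fun j hj => by rw [hpn]; simp only [if_pos hj]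
  have pnO : ∀ j, j ∉ Z → pn j = p j := fun j hj => by rw [hpn]; simp only [if_neg hj]
  have μnA : ∀ i, i ∈ A → μn i = ν i := fun i hi => by rw [hμn]; simp only [if_pos hi]
  have μnO : ∀ i, i ∉ A → μn i = μ i := fun i hi => by rw [hμn]; simp only [if_neg hi]
  have pnle : ∀ j i, pn j i ≤ p j i := by
    intro j i
    by_cases hj : j ∈ Z
    · rw [pnZ j hj]; exact (F1 j hj i).le
    · rw [pnO j hj]
  -- agents outside `W'`
  have hout' : ∀ i ∈ W, i ∉ W' → i ≠ f ∧ μ i ∉ Z ∧ i ∉ A ∧ i ≠ d := by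
    intro i hi hiW
    refine ⟨fun h => hiW ((hW'mem i).mpr ⟨hi, Or.inl h⟩), fun h => hiW ((hW'mem i).mpr ⟨hi, Or.inr h⟩),
      fun h => hiW (hA h), fun h => hiW (h ▸ hdW')⟩
  have hsplit : ∀ i ∈ W, i ≠ d → i ∈ A ∨ i ∉ W' := by
    intro i _ hid
    by_cases h : i ∈ W'
    · rw [hWA, Finset.mem_insert] at h
      rcases h with h | h
      · exact absurd h hid
      · exact Or.inl h
    · exact Or.inr h
  have F4 : ∀ i ∈ W, i ∉ W' → ∀ j ∈ O, pn j i ≤ pn (μ i) i := by
    intro i hi hiW j hj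
    obtain ⟨h1, h2, h3, h4⟩ := hout' i hi hiW
    rw [pnO (μ i) h2]
    exact (pnle j i).trans (hs.ef i hi h1 j hj)
  have F5 : ∀ i ∈ A, ∀ j ∈ O, pn j i ≤ q (ν i) i := by
    intro i hi j hj
    by_cases hjZ : j ∈ Z
    · rw [pnZ j hjZ]; exact hout.ef i hi j hjZ
    · rw [pnO j hjZ]
      exact ((ho i (hA hi)).1 j hj hjZ).trans (hoA i hi)
  have F6 : ∀ j ∈ O, pn j d ≤ o d := by
    intro j hj
    by_cases hjZ : j ∈ Z
    · rw [pnZ j hjZ]; exact F2 j hjZ
    · rw [pnO j hjZ]; exact (ho d hdW').1 j hj hjZ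
  have memDem : ∀ (O' : Finset J) (p' : J → G → Γ) (i : G) (j : J),
      j ∈ Dem O' p' i ↔ j ∈ O' ∧ ∀ j' ∈ O', p' j' i ≤ p' j i := by
    intro O' p' i j
    unfold Dem
    rw [Finset.mem_filter]
  have demA : ∀ i ∈ A, ∀ j, j ∈ Dem Z q i → j ∈ Dem O pn i := by
    intro i hi j hj
    rw [memDem] at hj ⊢
    refine ⟨hZ.1 hj.1, fun j' hj' => ?_⟩
    rw [pnZ j hj.1]
    exact (F5 i hi j' hj').trans (hj.2 (ν i) (hout.mem i hi))
  have demν : ∀ i ∈ A, ν i ∈ Dem O pn i := by
    intro i hi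
    rw [memDem]
    refine ⟨hZ.1 (hout.mem i hi), fun j' hj' => ?_⟩
    rw [pnZ (ν i) (hout.mem i hi)]
    exact F5 i hi j' hj'
  have demd : ∀ j ∈ Z, q j = ρA j → j ∈ Dem O pn d := by
    intro j hj h
    rw [memDem]
    refine ⟨hZ.1 hj, fun j' hj' => ?_⟩
    rw [pnZ j hj, F3 j hj h]
    exact F6 j' hj'
  have hlinked : ∀ X ⊆ O, X.Nonempty → (∀ j ∈ X, pn j ≠ ρ j) → ∃ S : Finset G,
      X.card + 1 ≤ S.card ∧ ∀ i ∈ S, i ∈ W ∧ ∃ j ∈ X, j ∈ Dem O pn i := by
    intro X hXO hXne hXρ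
    by_cases hX1 : (X.filter (fun j => j ∈ Z)).Nonempty
    · -- agents outside W'
      obtain ⟨S2, hS2⟩ : ∃ S2 : Finset G, S2 = W.filter (fun i => i ∉ W' ∧ μ i ∈ X) := ⟨_, rfl⟩
      have hS2card : (X.filter (fun j => j ∉ Z)).card ≤ S2.card := by
        have hsub : X.filter (fun j => j ∉ Z) ⊆ S2.image μ := by
          intro j hj
          rw [Finset.mem_filter] at hj
          have h1 : p j ≠ ρ j := by rw [← pnO j hj.2]; exact hXρ j hj.1
          have h2 : ∃ i ∈ W, i ≠ f ∧ μ i = j := by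
            by_contra hcon
            apply h1
            apply hs.neat j (hXO hj.1)
            intro i hi hif hij
            exact hcon ⟨i, hi, hif, hij⟩
          obtain ⟨i, hi, hif, hij⟩ := h2
          rw [Finset.mem_image]
          refine ⟨i, ?_, hij⟩
          rw [hS2, Finset.mem_filter]
          refine ⟨hi, ?_, by rw [hij]; exact hj.1⟩
          intro h3
          rcases ((hW'mem i).mp h3).2 with h4 | h4
          · exact hif h4
          · rw [hij] at h4; exact hj.2 h4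
        exact (Finset.card_le_card hsub).trans Finset.card_image_le
      have hS2mem : ∀ i ∈ S2, i ∈ W ∧ ∃ j ∈ X, j ∈ Dem O pn i := by
        intro i hi
        rw [hS2, Finset.mem_filter] at hi
        refine ⟨hi.1, μ i, hi.2.2, ?_⟩
        rw [memDem]
        exact ⟨hXO hi.2.2, fun j' hj' => F4 i hi.1 hi.2.1 j' hj'⟩
      -- agents inside W'
      obtain ⟨S1, hS1W, hS1card, hS1mem⟩ : ∃ S1 : Finset G, S1 ⊆ W' ∧
          (X.filter (fun j => j ∈ Z)).card + 1 ≤ S1.card ∧
          ∀ i ∈ S1, ∃ j ∈ X, j ∈ Dem O pn i := by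
        by_cases hex : ∃ j ∈ X.filter (fun j => j ∈ Z), q j = ρA j
        · obtain ⟨j0, hj0, hj0q⟩ := hex
          rw [Finset.mem_filter] at hj0
          refine ⟨insert d (A.filter (fun i => ν i ∈ X)), ?_, ?_, ?_⟩
          · intro i hi
            rw [Finset.mem_insert] at hi
            rcases hi with rfl | hi
            · exact hdW'
            · exact hA (Finset.mem_filter.mp hi).1
          · rw [Finset.card_insert_of_notMem (fun h => hd (Finset.mem_filter.mp h).1)]
            have hsub : X.filter (fun j => j ∈ Z) ⊆ (A.filter (fun i => ν i ∈ X)).image ν := by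
              intro j hj
              rw [Finset.mem_filter] at hj
              obtain ⟨i, hi, hij⟩ := hsurj j hj.2
              rw [Finset.mem_image]
              refine ⟨i, ?_, hij⟩
              rw [Finset.mem_filter]
              exact ⟨hi, by rw [hij]; exact hj.1⟩
            have := (Finset.card_le_card hsub).trans Finset.card_image_le
            omega
          · intro i hi
            rw [Finset.mem_insert] at hi
            rcases hi with rfl | hi
            · exact ⟨j0, hj0.1, demd j0 hj0.2 hj0q⟩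
            · rw [Finset.mem_filter] at hi
              exact ⟨ν i, hi.2, demν i hi.1⟩
        · have h1 := hout.linked (X.filter (fun j => j ∈ Z))
            (fun j hj => (Finset.mem_filter.mp hj).2) hX1 (fun j hj h => hex ⟨j, hj, h⟩)
          refine ⟨_, ?_, h1, ?_⟩
          · intro i hi
            exact hA (Finset.mem_filter.mp hi).1
          · intro i hi
            rw [Finset.mem_filter] at hi
            obtain ⟨hiA, j, hj, hjD⟩ := hi
            exact ⟨j, (Finset.mem_filter.mp hj).1, demA i hiA j hjD⟩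
      refine ⟨S1 ∪ S2, ?_, ?_⟩
      · rw [Finset.card_union_of_disjoint]
        · have h1 : X.card = (X.filter (fun j => j ∈ Z)).card +
              (X.filter (fun j => j ∉ Z)).card :=
            (Finset.card_filter_add_card_filter_not (s := X) (fun j => j ∈ Z)).symm
          omega
        · rw [Finset.disjoint_left]
          intro i h1 h2
          rw [hS2, Finset.mem_filter] at h2
          exact h2.2.1 (hS1W h1)
      · intro i hi
        rw [Finset.mem_union] at hi
        rcases hi with hi | hi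
        · exact ⟨hW'W (hS1W hi), hS1mem i hi⟩
        · exact hS2mem i hi
    · have hXZ : ∀ j ∈ X, j ∉ Z := by
        intro j hj hjZ
        exact hX1 ⟨j, Finset.mem_filter.mpr ⟨hj, hjZ⟩⟩
      have h1 := hs.linked X hXO hXne (fun j hj => by
        rw [← pnO j (hXZ j hj)]; exact hXρ j hj)
      refine ⟨_, h1, ?_⟩
      intro i hi
      rw [Finset.mem_filter] at hi
      obtain ⟨hiW, j, hj, hjD⟩ := hi
      refine ⟨hiW, j, hj, ?_⟩
      rw [memDem] at hjD ⊢
      refine ⟨hjD.1, fun j' hj' => ?_⟩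
      rw [pnO j (hXZ j hj)]
      exact (pnle j' i).trans (hjD.2 j' hj')
  refine ⟨pn, μn, ?_, ?_, ?_⟩
  · refine ⟨hW'W hdW', ?_, ?_, ?_, ?_, ?_, ?_⟩
    · intro j hj
      by_cases hjZ : j ∈ Z
      · rw [pnZ j hjZ]; exact (F1 j hjZ).sle.trans (hs.le j hj)
      · rw [pnO j hjZ]; exact hs.le j hj
    · intro i hi hid
      rcases hsplit i hi hid with h | h
      · rw [μnA i h]; exact hZ.1 (hout.mem i h)
      · obtain ⟨h1, h2, h3, h4⟩ := hout' i hi h
        rw [μnO i h3]; exact hs.mem i hi h1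
    · intro i hi hid i' hi' hid' heq
      rcases hsplit i hi hid with h | h <;> rcases hsplit i' hi' hid' with h' | h'
      · rw [μnA i h, μnA i' h'] at heq
        exact hout.inj i h i' h' heq
      · obtain ⟨h1, h2, h3, h4⟩ := hout' i' hi' h'
        rw [μnA i h, μnO i' h3] at heq
        exact absurd (heq ▸ hout.mem i h) h2
      · obtain ⟨h1, h2, h3, h4⟩ := hout' i hi h
        rw [μnO i h3, μnA i' h'] at heq
        exact absurd (heq.symm ▸ hout.mem i' h') h2
      · obtain ⟨h1, h2, h3, h4⟩ := hout' i hi h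
        obtain ⟨h1', h2', h3', h4'⟩ := hout' i' hi' h'
        rw [μnO i h3, μnO i' h3'] at heq
        exact hs.inj i hi h1 i' hi' h1' heq
    · intro i hi hid j hj
      rcases hsplit i hi hid with h | h
      · rw [μnA i h, pnZ (ν i) (hout.mem i h)]; exact F5 i h j hj
      · obtain ⟨h1, h2, h3, h4⟩ := hout' i hi h
        rw [μnO i h3]; exact F4 i hi h j hj
    · intro j hj hun
      have hjZ : j ∉ Z := by
        intro hjZ
        obtain ⟨i, hi, hij⟩ := hsurj j hjZ
        apply hun i (hW'W (hA hi)) (fun h => hd (h ▸ hi))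
        rw [μnA i hi, hij]
      rw [pnO j hjZ]
      apply hs.neat j hj
      intro i hi hif hij
      have hiW : i ∉ W' := by
        intro h
        rcases ((hW'mem i).mp h).2 with h4 | h4
        · exact hif h4
        · rw [hij] at h4; exact hjZ h4
      obtain ⟨h1, h2, h3, h4⟩ := hout' i hi hiW
      apply hun i hi h4
      rw [μnO i h3, hij]
    · intro X hXO hXne hXρ
      obtain ⟨S, h1, h2⟩ := hlinked X hXO hXne hXρ
      exact h1.trans (Finset.card_le_card (fun i hi => Finset.mem_filter.mpr (h2 i hi)))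
  · intro j hj
    by_cases hjZ : j ∈ Z
    · rw [pnZ j hjZ]; exact hq j hjZ
    · rw [pnO j hjZ]; exact hp j hj
  · intro Z' hZ'
    have hZZ' : Z ⊆ Z' := by
      by_contra hcon
      have hXne : (Z.filter (fun j => j ∉ Z')).Nonempty := by
        rw [Finset.not_subset] at hcon
        obtain ⟨j, hj, hj'⟩ := hcon
        exact ⟨j, Finset.mem_filter.mpr ⟨hj, hj'⟩⟩
      have h1 := hout.linked (Z.filter (fun j => j ∉ Z')) (Finset.filter_subset _ _) hXne
        (fun j hj h => (Finset.mem_filter.mp hj).2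
          (hZ'.2.1 (demd j (Finset.mem_filter.mp hj).1 h)))
      have h2 : ∃ i ∈ A.filter (fun i => ∃ j ∈ Z.filter (fun j => j ∉ Z'), j ∈ Dem Z q i),
          ν i ∉ Z.filter (fun j => j ∉ Z') := by
        by_contra hcon2
        push Not at hcon2
        have h3 := Finset.card_le_card_of_injOn ν hcon2
          (fun a ha b hb hab => hout.inj a (Finset.mem_filter.mp ha).1 b
            (Finset.mem_filter.mp hb).1 hab)
        have h4 := h1.trans h3
        omega
      obtain ⟨i, hi, hνi⟩ := h2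
      rw [Finset.mem_filter] at hi
      obtain ⟨hiA, j, hj, hjD⟩ := hi
      rw [Finset.mem_filter] at hj
      have hνZ' : ν i ∈ Z' := by
        by_contra h
        exact hνi (Finset.mem_filter.mpr ⟨hout.mem i hiA, h⟩)
      have h5 := hZ'.2.2 i (hW'W (hA hiA)) (fun h => hd (h ▸ hiA)) (by
        rw [μnA i hiA]; exact hνZ')
      exact hj.2 (h5 (demA i hiA j hjD))
    obtain ⟨-, j0, hj0, hj0Z, hj0o⟩ := ho d hdW'
    have h6 : j0 ∈ Dem O pn d := by
      rw [memDem]
      refine ⟨hj0, fun j' hj' => ?_⟩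
      rw [pnO j0 hj0Z, hj0o]
      exact F6 j' hj'
    have h7 : insert j0 Z ⊆ Z' := by
      intro j hj
      rw [Finset.mem_insert] at hj
      rcases hj with rfl | hj
      · exact hZ'.2.1 h6
      · exact hZZ' hj
    have h8 := Finset.card_le_card h7
    rw [Finset.card_insert_of_notMem hj0Z] at h8
    exact h8

end H85.Cake
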