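import Pool.Agent.H85.Cake.MarketDef
import Pool.Agent.H85.Cake.MMarks
import Pool.Agent.H85.Cake.MNew

/-!
# The market theorem   (taken by helper85)
-/

namespace H85.Cake

variable {G J Γ : Type} [LinearOrder Γ]

/-- Cost of a price step with `z` items. -/
def stepCost (z : ℕ) : ℕ := (z + 1) * z + ∑ i ∈ Finset.range z, 4 ^ (i + 1)

theorem geo4 (z : ℕ) : 3 * ∑ i ∈ Finset.range z, 4 ^ (i + 1) + 4 = 4 ^ (z + 1) := by
  induction z with
  | zero => simp
  | succ z ih => rw [Finset.sum_range_succ, pow_succ 4 (z + 1)]; omega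

theorem quad4 (m : ℕ) : (m + 1) * (m + 2) ≤ 3 * 4 ^ m := by
  induction m with
  | zero => simp
  | succ m ih => rw [pow_succ]; nlinarith

theorem stepCost_le (m : ℕ) : stepCost (m + 1) ≤ 9 * 4 ^ m := by
  have h1 := geo4 (m + 1)
  have h2 := quad4 m
  have h3 : 4 ^ (m + 1 + 1) = 16 * 4 ^ m := by ring
  unfold stepCost
  have h4 : (m + 1 + 1) * (m + 1) = (m + 1) * (m + 2) := by ring
  rw [h4]
  omega

theorem total_cost (m : ℕ) : 4 ^ m + ∑ i ∈ Finset.Ico 0 (m + 1), stepCost i ≤ 4 ^ (m + 1) := by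
  induction m with
  | zero => simp [stepCost]
  | succ m ih =>
    rw [Finset.sum_Ico_succ_top (by omega)]
    have h1 := stepCost_le m
    have h2 : 4 ^ (m + 1 + 1) = 16 * 4 ^ m := by ring
    have h3 : 4 ^ (m + 1) = 4 * 4 ^ m := by ring
    omega

/-- Markets with at most `z` agents can be solved. -/
def IH (G J Γ : Type) [LinearOrder Γ] (z : ℕ) : Prop :=
  ∀ (W : Finset G) (O : Finset J) (ρ : J → G → Γ) (K : J → Set (G → Γ)),
    (∀ j, Chain (K j)) → (∀ j ∈ O, ρ j ∈ K j) → W.card ≤ O.card → W.card ≤ z →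
    MForce (fun K' => ∃ (p : J → G → Γ) (μ : G → J), (∀ j ∈ O, p j ∈ K' j) ∧
      Outcome W O ρ p μ) (4 ^ W.card) K

theorem inner [Nonempty G] [Nonempty J] {W' : Finset G} {Z : Finset J} {p : J → G → Γ}
    {o : G → Γ} {M : G → J → G → Γ} {K : J → Set (G → Γ)} (hctx : Ctx W' Z p o M K)
    (ih : IH G J Γ Z.card) (a : ℕ) (ha : a ≤ Z.card) :
    MForce (fun K' => (∀ j, K j ⊆ K' j) ∧ (∀ j, Chain (K' j)) ∧
      ∃ (A : Finset G) (ρA q : J → G → Γ) (ν : G → J), A ⊆ W' ∧ A.card = a ∧
        IsRho W' Z M A ρA ∧ (∀ j ∈ Z, q j ∈ K' j) ∧ Outcome A Z ρA q ν ∧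
        ∀ i ∈ A, o i ≤ q (ν i) i) (∑ i ∈ Finset.range a, 4 ^ (i + 1)) K := by
  classical
  induction a with
  | zero =>
    refine .done ⟨fun _ => subset_rfl, hctx.chain, ?_⟩
    have hne : ∃ k ∈ W', k ∉ (∅ : Finset G) := by
      have : 0 < W'.card := by rw [hctx.card]; omega
      obtain ⟨k, hk⟩ := Finset.card_pos.1 this
      exact ⟨k, hk, by simp⟩
    obtain ⟨ρA, h1, h2⟩ := isRho_exists (Z := Z) (A := ∅) hctx.chain hctx.hM hne
    refine ⟨∅, ρA, ρA, fun _ => Classical.arbitrary J, by simp, by simp, h1, h2, ?_, by simp⟩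
    exact
      { le := fun j _ => SLe.refl _
        mem := by simp
        inj := by simp
        ef := by simp
        neat := fun _ _ _ => rfl
        linked := by
          intro X _ hX hX'
          obtain ⟨j, hj⟩ := hX
          exact absurd rfl (hX' j hj) }
  | succ a iha =>
    rw [Finset.sum_range_succ]
    refine (iha (by omega)).bind ?_
    rintro K' ⟨hKK, hch, A, ρA, q, ν, hAW, hAc, hρ, hq, hout, ho⟩
    have hctx' := hctx.mono hKK hch
    -- an unmatched item
    have hex : ∃ j0 ∈ Z, ∀ i ∈ A, ν i ≠ j0 := by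
      by_contra hcon
      push Not at hcon
      have : Z ⊆ A.image ν := by
        intro j hj
        obtain ⟨i, hi, rfl⟩ := hcon j hj
        exact Finset.mem_image_of_mem _ hi
      have h1 := Finset.card_le_card this
      have h2 := Finset.card_image_le (s := A) (f := ν)
      omega
    obtain ⟨j0, hj0, hun⟩ := hex
    obtain ⟨k, hk, hkA, hk1, hk2⟩ := hctx'.pick hAW hρ hq hout hj0 hun
    have hcard : (insert k A).card = a + 1 := by rw [Finset.card_insert_of_notMem hkA, hAc]
    have hne : ∃ k' ∈ W', k' ∉ insert k A := by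
      by_contra hcon
      push Not at hcon
      have h1 := Finset.card_le_card (show W' ⊆ insert k A from fun x hx => hcon x hx)
      have h2 := hctx.card
      omega
    obtain ⟨ρA', hρ', hρK⟩ := isRho_exists (Z := Z) (A := insert k A) hch hctx'.hM hne
    have := ih (insert k A) Z ρA' K' hch hρK (by omega) (by omega)
    rw [hcard] at this
    refine (this.inv hch).mono le_rfl ?_
    rintro K'' ⟨⟨q', ν', hq', hout'⟩, hKK', hch'⟩
    refine ⟨fun j => (hKK j).trans (hKK' j), hch', insert k A, ρA', q', ν', ?_, hcard, hρ', hq',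
      hout', ?_⟩
    · exact Finset.insert_subset hk hAW
    · exact (hctx'.mono hKK' hch').grow hAW hρ (fun j hj => hKK' j (hq j hj)) hout ho hj0 hun hk
        hkA hk1 hk2 hρ' hq' hout'

open Classical in
theorem stepB [Nonempty G] [Nonempty J] {W : Finset G} {O : Finset J} {ρ p : J → G → Γ}
    {μ : G → J} {f : G} (hs : PState W O ρ p μ f) (hWO : W.card ≤ O.card) {Z : Finset J}
    (hZ : Closed W O p μ f Z) (hmat : ∀ j ∈ Z, ∃ i ∈ W, i ≠ f ∧ μ i = j)
    (hcrit : ∀ Y ⊆ Z, Y.Nonempty → Y.card + 1 ≤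
        (W.filter (fun i => (i = f ∨ μ i ∈ Z) ∧ ∃ j ∈ Y, j ∈ Dem O p i)).card)
    {K : J → Set (G → Γ)} (hK : ∀ j, Chain (K j)) (hp : ∀ j ∈ O, p j ∈ K j)
    (ih : IH G J Γ Z.card) :
    MForce (fun K' => (∀ j, Chain (K' j)) ∧ ∃ (pn : J → G → Γ) (μn : G → J) (d : G),
      PState W O ρ pn μn d ∧ (∀ j ∈ O, pn j ∈ K' j) ∧
      ∀ Z', Closed W O pn μn d Z' → Z.card + 1 ≤ Z'.card) (stepCost Z.card) K := by
  -- the agents
  set W' := W.filter (fun i => i = f ∨ μ i ∈ Z) with hW'
  have hZc : Z.card + 1 ≤ W.card := by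
    have h1 : Z ⊆ (W.erase f).image μ := by
      intro j hj
      obtain ⟨i, hi, hif, rfl⟩ := hmat j hj
      exact Finset.mem_image_of_mem _ (Finset.mem_erase.2 ⟨hif, hi⟩)
    have h2 := Finset.card_le_card h1
    have h3 := Finset.card_image_le (s := W.erase f) (f := μ)
    rw [Finset.card_erase_of_mem hs.free] at h3
    have h4 : 0 < W.card := Finset.card_pos.2 ⟨f, hs.free⟩
    omega
  have hW'c : W'.card = Z.card + 1 := by
    have h1 : W' = insert f (W.filter (fun i => i ≠ f ∧ μ i ∈ Z)) := by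
      ext i
      simp only [hW', Finset.mem_filter, Finset.mem_insert]
      constructor
      · rintro ⟨h, h'⟩
        rcases h' with rfl | h'
        · exact Or.inl rfl
        · by_cases hif : i = f
          · exact Or.inl hif
          · exact Or.inr ⟨h, hif, h'⟩
      · rintro (rfl | ⟨h, _, h'⟩)
        · exact ⟨hs.free, Or.inl rfl⟩
        · exact ⟨h, Or.inr h'⟩
    have h2 : (W.filter (fun i => i ≠ f ∧ μ i ∈ Z)).card = Z.card := by
      have h3 : (W.filter (fun i => i ≠ f ∧ μ i ∈ Z)).image μ = Z := by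
        ext j
        simp only [Finset.mem_image, Finset.mem_filter]
        constructor
        · rintro ⟨i, ⟨_, _, h⟩, rfl⟩
          exact h
        · intro hj
          obtain ⟨i, hi, hif, rfl⟩ := hmat j hj
          exact ⟨i, ⟨hi, hif, hj⟩, rfl⟩
      have h4 := Finset.card_image_of_injOn (s := W.filter (fun i => i ≠ f ∧ μ i ∈ Z)) (f := μ) (by
        intro i hi i' hi' h
        simp only [Finset.coe_filter, Set.mem_ofPred_eq] at hi hi'
        exact hs.inj i hi.1 hi.2.1 i' hi'.1 hi'.2.1 h)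
      rw [h3] at h4
      exact h4.symm
    rw [h1, Finset.card_insert_of_notMem (by simp), h2]
  -- outside options
  have hout : ∃ j, j ∈ O ∧ j ∉ Z := by
    by_contra hcon
    push Not at hcon
    have := Finset.card_le_card (show O ⊆ Z from fun j hj => hcon j hj)
    omega
  have homax : ∀ i : G, ∃ j, (j ∈ O ∧ j ∉ Z) ∧ ∀ j' ∈ O, j' ∉ Z → p j' i ≤ p j i := by
    intro i
    have hne : (O.filter (fun j => j ∉ Z)).Nonempty := by
      obtain ⟨j, h1, h2⟩ := hout
      exact ⟨j, Finset.mem_filter.2 ⟨h1, h2⟩⟩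
    obtain ⟨j, hj, hj'⟩ := Finset.exists_max_image _ (fun j => p j i) hne
    exact ⟨j, Finset.mem_filter.1 hj, fun j' h1 h2 => hj' j' (Finset.mem_filter.2 ⟨h1, h2⟩)⟩
  choose jm hjm hjm' using homax
  set o : G → Γ := fun i => p (jm i) i with ho
  have hDZ : ∀ i ∈ W', Dem O p i ⊆ Z := by
    intro i hi
    obtain ⟨hiW, h⟩ := Finset.mem_filter.1 hi
    by_cases hif : i = f
    · rw [hif]; exact hZ.2.1
    · rcases h with h | h
      · exact absurd h hif
      · exact hZ.2.2 i hiW hif h
  have hcst : stepCost Z.card = W'.card * Z.card + ∑ i ∈ Finset.range Z.card, 4 ^ (i + 1) := by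
    rw [hW'c]; rfl
  rw [hcst]
  refine (marks W' Z p o K hK (fun j hj => hp j (hZ.1 hj))).bind ?_
  rintro K1 ⟨hK1, hc1, M, hM1, hM2, hM3⟩
  have hctx : Ctx W' Z p o M K1 :=
    { card := hW'c
      chain := hc1
      hp := fun j hj => hK1 j (hp j (hZ.1 hj))
      hM := hM1
      low := hM2
      high := hM3
      crit := by
        intro Y hY hYne
        refine (hcrit Y hY hYne).trans (Finset.card_le_card ?_)
        intro i hi
        simp only [Finset.mem_filter] at hi
        obtain ⟨hiW, hi', j, hjY, hjD⟩ := hi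
        have hiW' : i ∈ W' := Finset.mem_filter.2 ⟨hiW, hi'⟩
        rw [Finset.mem_filter]
        refine ⟨hiW', j, hjY, ?_, ?_⟩
        · simp only [Dem, Finset.mem_filter] at hjD ⊢
          exact ⟨hY hjY, fun j' hj' => hjD.2 j' (hZ.1 hj')⟩
        · by_contra hcon
          push Not at hcon
          have : jm i ∈ Dem O p i := by
            simp only [Dem, Finset.mem_filter] at hjD ⊢
            exact ⟨(hjm i).1, fun j' hj' => (hjD.2 j' hj').trans hcon⟩
          exact (hjm i).2 (hDZ i hiW' this) }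
  refine (inner hctx ih Z.card le_rfl).mono le_rfl ?_
  rintro K2 ⟨hK2, hc2, A, ρA, q, ν, hAW, hAc, hρ, hq, hA, hoA⟩
  have hctx2 := hctx.mono hK2 hc2
  refine ⟨hc2, ?_⟩
  -- the last agent
  have hd : ∃ d ∈ W', d ∉ A := by
    by_contra hcon
    push Not at hcon
    have := Finset.card_le_card (show W' ⊆ A from fun x hx => hcon x hx)
    omega
  obtain ⟨d, hdW, hdA⟩ := hd
  have hWA : W' = insert d A := by
    symm
    apply Finset.eq_of_subset_of_card_le (Finset.insert_subset hdW hAW)
    rw [Finset.card_insert_of_notMem hdA]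
    omega
  obtain ⟨pn, μn, h1, h2, h3⟩ := newState hs hZ hmat (K := K2)
    (fun j hj => hK2 j (hK1 j (hp j hj))) (o := o) hW' (by
      intro i hi
      exact ⟨fun j hj hjZ => hjm' i j hj hjZ, jm i, (hjm i).1, (hjm i).2, rfl⟩)
    hctx2 hdA hWA hρ hq hA hoA
  exact ⟨pn, μn, d, h1, h2, h3⟩

theorem loopM [Nonempty G] [Nonempty J] {W : Finset G} {O : Finset J} {ρ : J → G → Γ}
    (hWO : W.card ≤ O.card) (ih : IH G J Γ (W.card - 1)) (t : ℕ) :
    ∀ (z : ℕ), W.card ≤ z + t → ∀ (p : J → G → Γ) (μ : G → J) (f : G) (K : J → Set (G → Γ)),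
      PState W O ρ p μ f → (∀ j, Chain (K j)) → (∀ j ∈ O, p j ∈ K j) →
      (∀ Z, Closed W O p μ f Z → z ≤ Z.card) →
      MForce (fun K' => ∃ (p : J → G → Γ) (μ : G → J), (∀ j ∈ O, p j ∈ K' j) ∧
        Outcome W O ρ p μ) (∑ i ∈ Finset.Ico z W.card, stepCost i) K := by
  classical
  induction t using Nat.strong_induction_on with
  | _ t iht =>
    intro z hz p μ f K hs hK hp hcl
    have hWpos : 0 < W.card := Finset.card_pos.2 ⟨f, hs.free⟩
    have hO : O.Nonempty := Finset.card_pos.1 (by omega)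
    rcases reach hO hs with ⟨μ', h⟩ | ⟨Z, hZ, hZne, hmat, hcrit⟩
    · exact .done ⟨p, μ', hp, h⟩
    · have hzZ := hcl Z hZ
      have hZc : Z.card + 1 ≤ W.card := by
        have h1 : Z ⊆ (W.erase f).image μ := by
          intro j hj
          obtain ⟨i, hi, hif, rfl⟩ := hmat j hj
          exact Finset.mem_image_of_mem _ (Finset.mem_erase.2 ⟨hif, hi⟩)
        have h2 := Finset.card_le_card h1
        have h3 := Finset.card_image_le (s := W.erase f) (f := μ)
        rw [Finset.card_erase_of_mem hs.free] at h3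
        omega
      have hstep := stepB hs hWO hZ hmat (by convert hcrit) hK hp (by
        intro W1 O1 ρ1 K1 h1 h2 h3 h4
        exact ih W1 O1 ρ1 K1 h1 h2 h3 (by omega))
      have hcost : stepCost Z.card + ∑ i ∈ Finset.Ico (Z.card + 1) W.card, stepCost i ≤
          ∑ i ∈ Finset.Ico z W.card, stepCost i := by
        rw [← Finset.sum_eq_sum_Ico_succ_bot (by omega)]
        exact Finset.sum_le_sum_of_subset (Finset.Ico_subset_Ico_left hzZ)
      refine MForce.mono (hstep.bind ?_) hcost (fun _ h => h)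
      rintro K' ⟨hc', pn, μn, d, h1, h2, h3⟩
      exact iht (W.card - (Z.card + 1)) (by omega) (Z.card + 1) (by omega) pn μn d K' h1 hc' h2 h3

theorem marketIH [Nonempty G] [Nonempty J] (z : ℕ) : IH G J Γ z := by
  classical
  induction z with
  | zero =>
    intro W O ρ K hK hρ hc hz
    have hW : W = ∅ := Finset.card_eq_zero.1 (by omega)
    subst hW
    refine .done ⟨ρ, fun _ => Classical.arbitrary J, hρ, ?_⟩
    exact
      { le := fun j _ => SLe.refl _
        mem := by simp
        inj := by simp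
        ef := by simp
        neat := fun _ _ _ => rfl
        linked := by
          intro X _ hX hX'
          obtain ⟨j, hj⟩ := hX
          exact absurd rfl (hX' j hj) }
  | succ z ihz =>
    intro W O ρ K hK hρ hc hz
    rcases Nat.lt_or_ge W.card (z + 1) with h | h
    · exact ihz W O ρ K hK hρ hc (by omega)
    · have hW : W.card = z + 1 := by omega
      obtain ⟨f, hf⟩ := Finset.card_pos.1 (show 0 < W.card by omega)
      have hec : (W.erase f).card = z := by rw [Finset.card_erase_of_mem hf]; omega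
      have h0 := ihz (W.erase f) O ρ K hK hρ (by omega) (by omega)
      rw [hec] at h0
      refine MForce.mono (h0.bind_inv (Q := fun K' => ∃ (p : J → G → Γ) (μ : G → J),
        (∀ j ∈ O, p j ∈ K' j) ∧ Outcome W O ρ p μ) hK
        (N' := ∑ i ∈ Finset.Ico 0 W.card, stepCost i) ?_) (by rw [hW]; exact total_cost z)
        (fun _ h => h)
      rintro K' ⟨p, μ, hp, hout⟩ hKK hch
      refine loopM hc (by rw [hW]; exact ihz) W.card 0 (by omega) p μ f K' ?_ hch hp
        (fun _ _ => Nat.zero_le _)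
      exact
        { free := hf
          le := hout.le
          mem := fun i hi hif => hout.mem i (Finset.mem_erase.2 ⟨hif, hi⟩)
          inj := fun i hi hif i' hi' hif' h => hout.inj i (Finset.mem_erase.2 ⟨hif, hi⟩) i'
            (Finset.mem_erase.2 ⟨hif', hi'⟩) h
          ef := fun i hi hif j hj => hout.ef i (Finset.mem_erase.2 ⟨hif, hi⟩) j hj
          neat := fun j hj h => hout.neat j hj (fun i hi => h i (Finset.mem_erase.1 hi).2
            (Finset.mem_erase.1 hi).1)
          linked := by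
            intro X hX hXne hX'
            refine (hout.linked X hX hXne hX').trans (Finset.card_le_card ?_)
            intro i hi
            rw [Finset.mem_filter] at hi ⊢
            exact ⟨(Finset.mem_erase.1 hi.1).2, hi.2⟩ }

theorem market : MarketStatement (fun m => 4 ^ m) := by
  intro G J Γ _ _ _ W O ρ K hK hρ hc
  exact marketIH W.card W O ρ K hK hρ hc le_rfl

end H85.Cake
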