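import Pool.Agent.H85.Cake.Line

/-!
# Initial lines and reading off the result   (JOB CAKE-INIT)

`initLine`: PROOF: induction on `l`: `l = []`: `top k = (β k, 0)`, `Lp = []`.  `l = a :: l'`: from
`top', Lp'` for `l'` take `top k = toLex (re (top' k) + a k, (ofLex (top' k)).2 + 1)` (or
`lex_above`) and `Lp = (a, top') :: Lp'`.  For a decomposition `l = l1 ++ l2`: if `l1 = []` the
point is `top` (`IsLine.sum_eq`, `re (lastPt ..) = β`), else use the induction hypothesis.

`extract`: for a point `x` of a line: if `x = top`, `T = []`, `Rm = Lp.map fst`; if `x = s.2` with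
`s ∈ Lp`, `Lp = L1 ++ s :: L2`: `T = atoms (L1 ++ [s])`, `Rm = atoms L2`, and
`re (x k) = re (lastPt x L2 k) + (atoms L2).sum k = β k + ..` (`IsLine.sum_eq` for the line from `x`,
`isLine_append`).  If `x = s.2`, `s ∈ Lv`: `T = atoms Lp`, `Rm = 0`,
`re (lastPt top Lp k) = re (x k) + (sum of multiples of unit) k` (`IsLine.sum_eq` for
`Lv = L1 ++ s :: L2` from `lastPt top Lp` to `x`).
-/

namespace H85.Cake

variable {G : Type}

theorem initLine (β unit : G → ℝ) (l : List (G → ℝ)) (hl : ∀ v ∈ l, 0 ≤ v) :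
    ∃ (top : G → ℝ ×ₗ ℝ) (Lp : List ((G → ℝ) × (G → ℝ ×ₗ ℝ))),
      LineOK β unit top Lp [] ∧ Lp.map Prod.fst = l ∧
      ∀ l1 l2 : List (G → ℝ), l = l1 ++ l2 →
        ∃ x ∈ pts top Lp, ∀ k, re (x k) = β k + l2.sum k := by
  induction l with
  | nil =>
    refine ⟨fun k => toLex (β k, 0), [], ⟨trivial, fun k => rfl, ?_⟩, rfl, ?_⟩
    · intro s hs
      exact absurd hs List.not_mem_nil
    · intro l1 l2 h
      obtain ⟨rfl, rfl⟩ := List.append_eq_nil_iff.1 h.symm
      exact ⟨_, Or.inl rfl, fun k => by simp [re]⟩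
  | cons a l' ih =>
    obtain ⟨top', Lp', hOK, hmap, hpt⟩ := ih (fun v hv => hl v (List.mem_cons_of_mem _ hv))
    have ha : 0 ≤ a := hl a List.mem_cons_self
    have hex : ∀ k, ∃ p : ℝ ×ₗ ℝ, re p = re (top' k) + a k ∧ top' k < p := by
      intro k
      have h0 : 0 ≤ a k := ha k
      exact lex_above (top' k) (by linarith)
    choose top htop1 htop2 using hex
    have hline : IsLine top' (Lp' ++ []) := hOK.line
    have hline2 : IsLine top (((a, top') :: Lp') ++ []) :=
      ⟨fun k => htop2 k, ha, htop1, hline⟩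
    refine ⟨top, (a, top') :: Lp', ⟨hline2, fun k => hOK.base k, ?_⟩, ?_, ?_⟩
    · intro s hs
      exact absurd hs List.not_mem_nil
    · rw [List.map_cons, hmap]
    · intro l1 l2 h
      cases l1 with
      | nil =>
        refine ⟨top, Or.inl rfl, fun k => ?_⟩
        rw [List.append_nil] at hline2
        have h1 := hline2.sum_eq k
        have h2 : lastPt top ((a, top') :: Lp') = lastPt top' Lp' := rfl
        have h3 : (atoms ((a, top') :: Lp')).sum = (a :: l').sum := by
          have h4 : atoms ((a, top') :: Lp') = ((a :: l' : List (G → ℝ)) : Multiset (G → ℝ)) := by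
            unfold atoms
            rw [List.map_cons, hmap]
          rw [h4, Multiset.sum_coe]
        rw [h1, h2, hOK.base k, h3, h, List.nil_append]
      | cons b l1' =>
        rw [List.cons_append] at h
        obtain ⟨-, h5⟩ := List.cons.inj h
        obtain ⟨x, hx, hxk⟩ := hpt l1' l2 h5
        exact ⟨x, (lineA_pts_cons top (a, top') Lp' x).2 (Or.inr hx), hxk⟩

theorem extract_aux_atoms_append (L1 L2 : List ((G → ℝ) × (G → ℝ ×ₗ ℝ))) :
    atoms (L1 ++ L2) = atoms L1 + atoms L2 := by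
  unfold atoms
  rw [List.map_append]
  rfl

theorem extract_aux_virt {unit : G → ℝ} (L : List ((G → ℝ) × (G → ℝ ×ₗ ℝ)))
    (h : ∀ s ∈ L, ∃ t : ℝ, 0 ≤ t ∧ s.1 = t • unit) :
    ∃ t : ℝ, 0 ≤ t ∧ (atoms L).sum = t • unit := by
  induction L with
  | nil => exact ⟨0, le_rfl, by simp [atoms]⟩
  | cons s L ih =>
    obtain ⟨t, ht, hs⟩ := ih (fun s hs => h s (List.mem_cons_of_mem _ hs))
    obtain ⟨t', ht', hs'⟩ := h s List.mem_cons_self
    have h1 : atoms (s :: L) = s.1 ::ₘ atoms L := rfl
    exact ⟨t' + t, add_nonneg ht' ht, by rw [h1, Multiset.sum_cons, hs, hs', add_smul]⟩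

theorem extract {β unit : G → ℝ} {top : G → ℝ ×ₗ ℝ} {Lp Lv : List ((G → ℝ) × (G → ℝ ×ₗ ℝ))}
    (h : LineOK β unit top Lp Lv) {x : G → ℝ ×ₗ ℝ} (hx : x ∈ pts top (Lp ++ Lv)) :
    ∃ T Rm : Multiset (G → ℝ), atoms Lp = T + Rm ∧ (x = top → T = 0) ∧
      ((∀ k, re (x k) = β k + Rm.sum k) ∨
       (Rm = 0 ∧ ∃ t : ℝ, 0 ≤ t ∧ ∀ k, re (x k) = β k - t * unit k)) := by
  obtain ⟨hp, hv⟩ := (isLine_append top Lp Lv).1 h.line
  by_cases hxt : x = top
  · refine ⟨0, atoms Lp, (zero_add _).symm, fun _ => rfl, Or.inl fun k => ?_⟩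
    rw [hxt, hp.sum_eq k, h.base k]
  · rcases hx with hx | ⟨s, hs, hx⟩
    · exact absurd hx hxt
    · rcases List.mem_append.1 hs with hs | hs
      · obtain ⟨L1, L2, hL⟩ := List.append_of_mem hs
        have hL' : Lp = (L1 ++ [s]) ++ L2 := by rw [hL]; simp
        refine ⟨atoms (L1 ++ [s]), atoms L2, ?_, fun h => absurd h hxt, Or.inl fun k => ?_⟩
        · rw [← extract_aux_atoms_append, ← hL']
        · rw [hL', isLine_append] at hp
          have h1 : lastPt top (L1 ++ [s]) = s.2 := by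
            rw [lastPt_append]; rfl
          rw [h1] at hp
          have h2 := hp.2.sum_eq k
          have h3 := h.base k
          rw [hL', lastPt_append, h1] at h3
          rw [hx, h2, h3]
      · obtain ⟨L1, L2, hL⟩ := List.append_of_mem hs
        have hL' : Lv = (L1 ++ [s]) ++ L2 := by rw [hL]; simp
        refine ⟨atoms Lp, 0, (add_zero _).symm, fun h => absurd h hxt, Or.inr ⟨rfl, ?_⟩⟩
        rw [hL', isLine_append] at hv
        obtain ⟨t, ht, hsum⟩ := extract_aux_virt (unit := unit) (L1 ++ [s]) (fun s' hs' =>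
          h.virt s' (by rw [hL']; exact List.mem_append_left _ hs'))
        refine ⟨t, ht, fun k => ?_⟩
        have h1 : lastPt (lastPt top Lp) (L1 ++ [s]) = s.2 := by
          rw [lastPt_append]; rfl
        have h2 := hv.1.sum_eq k
        rw [h1, h.base k, hsum] at h2
        have h3 : (t • unit) k = t * unit k := rfl
        rw [h3] at h2
        rw [hx]
        linarith

end H85.Cake
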