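import Pool.Agent.H85.Cake.MG

/-!
# Ranks of the items of a complete market outcome   (JOB CAKE-RANK)

`Outcome.rank`: for `W = O = univ` (agents and items indexed by the same finite type), there is a
rank function `< card G` such that items of rank `0` are at their start level and every other item
is tied, for the agent holding an item of smaller rank.

PROOF.  Define sets `R m` of items recursively: `R 0 = {j | p j = ρ j}`,
`R (m+1) = R m ∪ {j | ∃ k, μ k ∈ R m ∧ p j k = p (μ k) k}`.  If `R m ≠ univ` then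
`R (m+1) ≠ R m`: let `X = (R m)ᶜ`, nonempty, no `j ∈ X` has `p j = ρ j` (`R 0 ⊆ R m`); by `linked`
there are at least `X.card + 1` agents `k` with some `j ∈ X ∩ Dem univ p k`; `μ` is injective so
one of them has `μ k ∉ X`, i.e. `μ k ∈ R m`; `j ∈ Dem univ p k` means `p j k ≥ p (μ k) k` and
`ef` gives `≤`: so `j ∈ R (m+1) ∖ R m`.  Also `R 0` is nonempty (take `X = univ` in `linked`:
`card + 1 ≤ card` impossible, so some `j` has `p j = ρ j`).  By counting `R (card G - 1) = univ`.
Let `rank j` be the least `m` with `j ∈ R m` (`Nat.find`); `rank j < card G`; if `rank j = 0`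
then `p j = ρ j`; if `rank j = m + 1`, `j ∈ R (m+1) ∖ R m`, so there is `k` with `μ k ∈ R m`
(so `rank (μ k) ≤ m < rank j`) and `p j k = p (μ k) k`.
-/

namespace H85.Cake

variable {G Γ : Type} [LinearOrder Γ]

open Classical in
/-- the items reached after `m` steps -/
noncomputable def rankSet [Fintype G] (ρ p : G → G → Γ) (μ : G → G) : ℕ → Finset G
  | 0 => Finset.univ.filter (fun j => p j = ρ j)
  | m + 1 => rankSet ρ p μ m ∪
      Finset.univ.filter (fun j => ∃ k, μ k ∈ rankSet ρ p μ m ∧ p j k = p (μ k) k)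

theorem rankSet_zero_mem [Fintype G] {ρ p : G → G → Γ} {μ : G → G} {j : G} :
    j ∈ rankSet ρ p μ 0 ↔ p j = ρ j := by
  simp [rankSet]

theorem rankSet_succ_mem [Fintype G] {ρ p : G → G → Γ} {μ : G → G} {j : G} {m : ℕ} :
    j ∈ rankSet ρ p μ (m + 1) ↔ j ∈ rankSet ρ p μ m ∨
      ∃ k, μ k ∈ rankSet ρ p μ m ∧ p j k = p (μ k) k := by
  simp [rankSet]

theorem rankSet_zero_subset [Fintype G] (ρ p : G → G → Γ) (μ : G → G) (m : ℕ) :
    rankSet ρ p μ 0 ⊆ rankSet ρ p μ m := by
  induction m with
  | zero => exact subset_rfl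
  | succ m ih => exact ih.trans fun j hj => rankSet_succ_mem.2 (Or.inl hj)

theorem Outcome.rank_step [Fintype G] {ρ p : G → G → Γ} {μ : G → G}
    (h : Outcome (Finset.univ : Finset G) (Finset.univ : Finset G) ρ p μ) {m : ℕ}
    (hm : rankSet ρ p μ m ≠ Finset.univ) :
    ∃ j k, j ∉ rankSet ρ p μ m ∧ μ k ∈ rankSet ρ p μ m ∧ p j k = p (μ k) k := by
  classical
  set X : Finset G := (rankSet ρ p μ m)ᶜ with hX
  have hXne : X.Nonempty := by
    rw [Finset.nonempty_iff_ne_empty]
    intro h0
    apply hm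
    rw [hX, Finset.compl_eq_empty_iff] at h0
    exact h0
  have hXρ : ∀ j ∈ X, p j ≠ ρ j := by
    intro j hj hcon
    rw [hX, Finset.mem_compl] at hj
    exact hj (rankSet_zero_subset ρ p μ m (rankSet_zero_mem.2 hcon))
  have h1 := h.linked X (Finset.subset_univ _) hXne hXρ
  have h2 : ∃ k ∈ Finset.univ.filter (fun i => ∃ j ∈ X, j ∈ Dem Finset.univ p i), μ k ∉ X := by
    by_contra hcon
    push Not at hcon
    have h3 : (Finset.univ.filter (fun i => ∃ j ∈ X, j ∈ Dem Finset.univ p i)).card ≤ X.card := by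
      apply Finset.card_le_card_of_injOn μ
      · intro k hk
        exact hcon k hk
      · intro a _ b _ hab
        exact h.inj a (Finset.mem_univ a) b (Finset.mem_univ b) hab
    have h4 : (Finset.univ.filter (fun i => ∃ j ∈ X, j ∈ Dem Finset.univ p i)).card
        ≤ X.card := by convert h3
    have h5 : X.card + 1 ≤ X.card := by
      refine le_trans ?_ h4
      convert h1
    omega
  obtain ⟨k, hk, hk'⟩ := h2
  obtain ⟨j, hjX, hjD⟩ := (Finset.mem_filter.1 hk).2
  refine ⟨j, k, ?_, ?_, ?_⟩
  · rw [hX, Finset.mem_compl] at hjX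
    exact hjX
  · rw [hX, Finset.mem_compl, not_not] at hk'
    exact hk'
  · apply le_antisymm
    · exact h.ef k (Finset.mem_univ k) j (Finset.mem_univ j)
    · have h6 : ∀ j', p j' k ≤ p j k := by simpa [Dem] using hjD
      exact h6 (μ k)

theorem Outcome.rankSet_card [Fintype G] {ρ p : G → G → Γ} {μ : G → G}
    (h : Outcome (Finset.univ : Finset G) (Finset.univ : Finset G) ρ p μ) (m : ℕ) :
    rankSet ρ p μ m = Finset.univ ∨ m + 1 ≤ (rankSet ρ p μ m).card := by
  classical
  induction m with
  | zero =>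
    by_cases h0 : rankSet ρ p μ 0 = Finset.univ
    · exact Or.inl h0
    · obtain ⟨j, k, _, hk, _⟩ := h.rank_step h0
      exact Or.inr (Finset.card_pos.2 ⟨_, hk⟩)
  | succ m ih =>
    have hsub : rankSet ρ p μ m ⊆ rankSet ρ p μ (m + 1) :=
      fun j hj => rankSet_succ_mem.2 (Or.inl hj)
    by_cases h0 : rankSet ρ p μ m = Finset.univ
    · left
      rw [h0] at hsub
      exact Finset.eq_univ_iff_forall.2 fun x => hsub (Finset.mem_univ x)
    · right
      obtain ⟨j, k, hj, hk, hjk⟩ := h.rank_step h0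
      have h1 : rankSet ρ p μ m ⊂ rankSet ρ p μ (m + 1) :=
        (Finset.ssubset_iff_of_subset hsub).2
          ⟨j, rankSet_succ_mem.2 (Or.inr ⟨k, hk, hjk⟩), hj⟩
      have h2 := Finset.card_lt_card h1
      have h3 := ih.resolve_left h0
      omega

theorem Outcome.rank [Fintype G] [Nonempty G] {ρ p : G → G → Γ} {μ : G → G}
    (h : Outcome (Finset.univ : Finset G) (Finset.univ : Finset G) ρ p μ) :
    ∃ rank : G → ℕ, (∀ j, rank j < Fintype.card G) ∧
      ∀ j, p j = ρ j ∨ ∃ k, rank (μ k) < rank j ∧ p j k = p (μ k) k := by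
  classical
  have hpos : 0 < Fintype.card G := Fintype.card_pos
  have huniv : rankSet ρ p μ (Fintype.card G - 1) = Finset.univ := by
    rcases h.rankSet_card (Fintype.card G - 1) with h1 | h1
    · exact h1
    · apply Finset.eq_univ_of_card
      apply le_antisymm (Finset.card_le_univ _)
      omega
  have hex : ∀ j, ∃ m, j ∈ rankSet ρ p μ m :=
    fun j => ⟨_, huniv ▸ Finset.mem_univ j⟩
  refine ⟨fun j => Nat.find (hex j), fun j => ?_, fun j => ?_⟩
  · have h1 : Nat.find (hex j) ≤ Fintype.card G - 1 :=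
      Nat.find_min' (hex j) (huniv ▸ Finset.mem_univ j)
    show Nat.find (hex j) < Fintype.card G
    omega
  · have h1 := Nat.find_spec (hex j)
    rcases hm : Nat.find (hex j) with _ | m
    · left
      rw [hm] at h1
      exact rankSet_zero_mem.1 h1
    · right
      rw [hm] at h1
      have h2 : j ∉ rankSet ρ p μ m := Nat.find_min (hex j) (by omega)
      rcases rankSet_succ_mem.1 h1 with h3 | ⟨k, hk, hjk⟩
      · exact absurd h3 h2
      · refine ⟨k, ?_, hjk⟩
        show Nat.find (hex (μ k)) < Nat.find (hex j)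
        rw [hm]
        exact Nat.lt_succ_of_le (Nat.find_min' (hex (μ k)) hk)

end H85.Cake
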