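import Pool.Agent.H85.Cake.VLine

/-!
# The mark game is played in the split game   (JOB CAKE-SIM)

`sim`: a strategy in the mark game, started from points of lines, is a strategy in the split game
started from the atoms of the physical segments.

PROOF.  Induction on `hF`, generalizing `Lp Lv`.
* `done`: take the same lines and `K' = K`.
* `move j i q hq γ hγ h`: `q ∈ K j ⊆ pts (top j) (Lp j ++ Lv j)`, so `γ ≤ q i ≤ top j i`
  (`IsLine.sle_of_mem`).  In each case we produce new lines `Lp' Lv'` (only those of `j` change)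
  with `pts (old) ⊆ pts (new)` and a point `x ∈ pts (new j)` with `x i = γ`, and then apply `h` and the
  induction hypothesis to `K' j' := pts (top j') (Lp' j' ++ Lv' j')` (chains by `IsLine.chain`).
  (1) `γ ≤ lastPt (top j) (Lp j) i`: `vinsert` for the virtual part (starting point
  `lastPt (top j) (Lp j)`); no move (`Force.mono` from `N` to `N+1`); `Lp` unchanged.
  (2) otherwise `IsLine.locate` in `Lp j` (`isLine_append`): either a point exists already (no
  change), or `Lp j = L1 ++ s :: L2` and we make the split of the atom `s.1` by agent `i` at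
  `r = re (lastPt (top j) L1 i) - re γ` (`Force.move`; the position is
  `∑ j', atoms (Lp j') = s.1 ::ₘ rest`), and for each answer `a', a''` `IsLine.insert` (for the
  physical line; then append the virtual part, its starting point
  `lastPt (top j) (Lp j)` is unchanged since the last segment ends at the same point:
  `lastPt_append`) gives the new line `L1 ++ (a', p) :: (a'', s.2) :: L2`, whose atoms are
  `a' ::ₘ a'' ::ₘ` the others.
-/

namespace H85.Cake

variable {G J : Type}

theorem sim_split {β unit : G → ℝ} {top : G → ℝ ×ₗ ℝ}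
    {L1 L2 Lv : List ((G → ℝ) × (G → ℝ ×ₗ ℝ))} {s : (G → ℝ) × (G → ℝ ×ₗ ℝ)}
    (hOK : LineOK β unit top (L1 ++ s :: L2) Lv) {a' a'' : G → ℝ} {p : G → ℝ ×ₗ ℝ}
    (hp : IsLine top (L1 ++ (a', p) :: (a'', s.2) :: L2)) :
    LineOK β unit top (L1 ++ (a', p) :: (a'', s.2) :: L2) Lv ∧
      pts top ((L1 ++ s :: L2) ++ Lv) ⊆ pts top ((L1 ++ (a', p) :: (a'', s.2) :: L2) ++ Lv) ∧
      p ∈ pts top ((L1 ++ (a', p) :: (a'', s.2) :: L2) ++ Lv) := by
  have hlast : lastPt top (L1 ++ (a', p) :: (a'', s.2) :: L2) = lastPt top (L1 ++ s :: L2) := by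
    rw [lastPt_append, lastPt_append]
    rfl
  refine ⟨⟨?_, ?_, hOK.virt⟩, ?_, ?_⟩
  · rw [isLine_append]
    refine ⟨hp, ?_⟩
    rw [hlast]
    exact ((isLine_append _ _ _).1 hOK.line).2
  · intro k
    rw [hlast]
    exact hOK.base k
  · rintro x (hx | ⟨s', hs', hx⟩)
    · exact Or.inl hx
    · right
      simp only [List.mem_append, List.mem_cons] at hs'
      rcases hs' with (h | h | h) | h
      · exact ⟨s', by simp [h], hx⟩
      · exact ⟨(a'', s.2), by simp, by rw [hx, h]⟩
      · exact ⟨s', by simp [h], hx⟩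
      · exact ⟨s', by simp [h], hx⟩
  · exact Or.inr ⟨(a', p), by simp, rfl⟩

theorem sim_atoms_append (L1 L2 : List ((G → ℝ) × (G → ℝ ×ₗ ℝ))) :
    atoms (L1 ++ L2) = atoms L1 + atoms L2 := by
  unfold atoms
  rw [List.map_append, Multiset.coe_add]

theorem sim_atoms_cons (s : (G → ℝ) × (G → ℝ ×ₗ ℝ)) (L : List ((G → ℝ) × (G → ℝ ×ₗ ℝ))) :
    atoms (s :: L) = s.1 ::ₘ atoms L := by
  unfold atoms
  rw [List.map_cons, Multiset.cons_coe]

theorem sim [Fintype J] [DecidableEq J] (β : J → G → ℝ) (unit : G → ℝ) (hu : ∀ k, 0 < unit k)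
    (top : J → G → ℝ ×ₗ ℝ) {P : (J → Set (G → ℝ ×ₗ ℝ)) → Prop} {N : ℕ}
    {K : J → Set (G → ℝ ×ₗ ℝ)} (hF : MForce P N K)
    (Lp Lv : J → List ((G → ℝ) × (G → ℝ ×ₗ ℝ)))
    (hL : ∀ j, LineOK (β j) unit (top j) (Lp j) (Lv j))
    (hK : ∀ j, K j ⊆ pts (top j) (Lp j ++ Lv j)) :
    Force (fun M => ∃ (Lp' Lv' : J → List ((G → ℝ) × (G → ℝ ×ₗ ℝ)))
        (K' : J → Set (G → ℝ ×ₗ ℝ)), (∀ j, LineOK (β j) unit (top j) (Lp' j) (Lv' j)) ∧
        M = ∑ j, atoms (Lp' j) ∧ P K' ∧ ∀ j, K' j ⊆ pts (top j) (Lp' j ++ Lv' j))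
      N (∑ j, atoms (Lp j)) := by
  induction hF generalizing Lp Lv with
  | @done N K h => exact .done ⟨Lp, Lv, K, hL, rfl, h, hK⟩
  | @move N K j i q hq γ hγ h ih =>
    have key : ∀ Lp' Lv' : J → List ((G → ℝ) × (G → ℝ ×ₗ ℝ)),
        (∀ j', LineOK (β j') unit (top j') (Lp' j') (Lv' j')) →
        (∀ j', pts (top j') (Lp j' ++ Lv j') ⊆ pts (top j') (Lp' j' ++ Lv' j')) →
        (∃ x ∈ pts (top j) (Lp' j ++ Lv' j), x i = γ) →
        Force (fun M => ∃ (Lp' Lv' : J → List ((G → ℝ) × (G → ℝ ×ₗ ℝ)))
          (K' : J → Set (G → ℝ ×ₗ ℝ)), (∀ j, LineOK (β j) unit (top j) (Lp' j) (Lv' j)) ∧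
          M = ∑ j, atoms (Lp' j) ∧ P K' ∧ ∀ j, K' j ⊆ pts (top j) (Lp' j ++ Lv' j))
        N (∑ j, atoms (Lp' j)) := by
      intro Lp' Lv' h1 h2 h3
      exact ih (fun j' => pts (top j') (Lp' j' ++ Lv' j')) (fun j' => (hK j').trans (h2 j'))
        (fun j' => (h1 j').line.chain) h3 Lp' Lv' h1 (fun j' => subset_rfl)
    have hq' := hK j hq
    have hγtop : γ ≤ top j i := hγ.trans (((hL j).line.sle_of_mem hq').le i)
    obtain ⟨hl1, hl2⟩ := (isLine_append _ _ _).1 (hL j).line
    rcases le_or_gt γ (lastPt (top j) (Lp j) i) with hcase | hcase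
    · obtain ⟨Lv1, hv1, hv2, hv3, x, hx, hxi⟩ := vinsert hu hl2 (hL j).virt i γ hcase
      refine (key Lp (Function.update Lv j Lv1) ?_ ?_ ?_).mono (Nat.le_succ N) (fun M h => h)
      · intro j'
        by_cases hj : j' = j
        · subst hj
          rw [Function.update_self]
          exact ⟨(isLine_append _ _ _).2 ⟨hl1, hv1⟩, (hL j').base, hv2⟩
        · rw [Function.update_of_ne hj]
          exact hL j'
      · intro j'
        by_cases hj : j' = j
        · subst hj
          rw [Function.update_self, pts_append, pts_append]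
          exact Set.union_subset_union_right _ hv3
        · rw [Function.update_of_ne hj]
      · refine ⟨x, ?_, hxi⟩
        rw [Function.update_self, pts_append]
        exact Or.inr hx
    · rcases hl1.locate i γ hγtop hcase.le with ⟨x, hx, hxi⟩ | ⟨L1, L2, s, hLp, hs1, hs2⟩
      · refine (key Lp Lv hL (fun _ => subset_rfl) ⟨x, ?_, hxi⟩).mono (Nat.le_succ N)
          (fun M h => h)
        rw [pts_append]
        exact Or.inl hx
      · have hline : IsLine (top j) (L1 ++ s :: L2) := by rw [← hLp]; exact hl1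
        obtain ⟨hr0, hr1, hins⟩ := hline.insert i γ hs1 hs2
        have hOK : LineOK (β j) unit (top j) (L1 ++ s :: L2) (Lv j) := by
          rw [← hLp]; exact hL j
        have hpos : ∑ j', atoms (Lp j') = s.1 ::ₘ
            (atoms L1 + atoms L2 + ∑ j' ∈ Finset.univ.erase j, atoms (Lp j')) := by
          rw [← Finset.add_sum_erase Finset.univ (fun j' => atoms (Lp j')) (Finset.mem_univ j)]
          rw [hLp, sim_atoms_append, sim_atoms_cons, Multiset.add_cons, Multiset.cons_add]
        rw [hpos]
        refine .move s.1 i (re (lastPt (top j) L1 i) - re γ) hr0 hr1 ?_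
        intro a' a'' h1 h2 h3 h4
        obtain ⟨p, hpi, hp⟩ := hins a' a'' h1 h2 h3 h4
        obtain ⟨hn1, hn2, hn3⟩ := sim_split hOK hp
        have hpos' : ∑ j', atoms (Function.update Lp j (L1 ++ (a', p) :: (a'', s.2) :: L2) j') =
            a' ::ₘ a'' ::ₘ
              (atoms L1 + atoms L2 + ∑ j' ∈ Finset.univ.erase j, atoms (Lp j')) := by
          rw [← Finset.add_sum_erase Finset.univ
            (fun j' => atoms (Function.update Lp j (L1 ++ (a', p) :: (a'', s.2) :: L2) j'))
            (Finset.mem_univ j)]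
          have hs : ∑ j' ∈ Finset.univ.erase j,
              atoms (Function.update Lp j (L1 ++ (a', p) :: (a'', s.2) :: L2) j') =
              ∑ j' ∈ Finset.univ.erase j, atoms (Lp j') := by
            apply Finset.sum_congr rfl
            intro j' hj'
            rw [Function.update_of_ne (Finset.ne_of_mem_erase hj')]
          rw [hs, Function.update_self, sim_atoms_append, sim_atoms_cons, sim_atoms_cons,
            Multiset.add_cons, Multiset.add_cons, Multiset.cons_add, Multiset.cons_add]
        rw [← hpos']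
        refine key _ Lv ?_ ?_ ?_
        · intro j'
          by_cases hj : j' = j
          · subst hj
            rw [Function.update_self]
            exact hn1
          · rw [Function.update_of_ne hj]
            exact hL j'
        · intro j'
          by_cases hj : j' = j
          · subst hj
            rw [Function.update_self, hLp]
            exact hn2
          · rw [Function.update_of_ne hj]
        · refine ⟨p, ?_, hpi⟩
          rw [Function.update_self]
          exact hn3

end H85.Cake
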