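import Pool.Agent.H85.Cake.Force

/-!
# The trimming theorem: statement
-/

namespace H85.Cake

/-- The result of trimming.  Items and agents are both indexed by `G`.  Item `b` has base values
`β b k` (`k` the agent) and `h` layers with values `S b i k`; `T b` is the part trimmed off,
`Rm b` the part of the layers that remains, `w b` the (virtual) values of the trimmed item, `μ` the
matching. -/
structure TrimOut {G : Type} [Fintype G] (h : ℕ) (β : G → G → ℝ) (unit : G → ℝ)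
    (S : G → Fin h → G → ℝ) (T Rm : G → Multiset (G → ℝ)) (w : G → G → ℝ)
    (μ : Equiv.Perm G) (rank : G → ℕ) : Prop where
  total : ∀ b, (T b).sum + (Rm b).sum = ∑ i, S b i
  ef : ∀ k b, w b k ≤ w (μ k) k
  phys : ∀ b, (∀ k, w b k = β b k + (Rm b).sum k) ∨
    (Rm b = 0 ∧ ∃ t : ℝ, 0 ≤ t ∧ ∀ k, w b k = β b k - t * unit k)
  depth : ∀ b, ∀ d ≤ h,
    (∀ k, β b k + ∑ i ∈ Finset.univ.filter (fun i : Fin h => d ≤ i.val), S b i k ≤ w b k) ∨
    (∀ k, w b k ≤ β b k + ∑ i ∈ Finset.univ.filter (fun i : Fin h => d ≤ i.val), S b i k)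
  rank_lt : ∀ b, rank b < Fintype.card G
  rank : ∀ b, (T b = 0 ∧ ∀ k, w b k = β b k + ∑ i, S b i k) ∨
    ∃ k, rank (μ k) < rank b ∧ w b k = w (μ k) k

/-- The trimming theorem with cost `T (card G)`. -/
def TrimStatement (T : ℕ → ℕ) : Prop :=
  ∀ (G : Type) [Fintype G] [DecidableEq G] [Nonempty G] (h : ℕ) (β : G → G → ℝ) (unit : G → ℝ),
    (∀ k, 0 < unit k) → ∀ L : G → Fin h → Multiset (G → ℝ), (∀ b i, NN (L b i)) →
    Force (fun M' => ∃ (Tr Rm : G → Multiset (G → ℝ)) (w : G → G → ℝ) (μ : Equiv.Perm G)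
      (rank : G → ℕ), M' = ∑ b, (Tr b + Rm b) ∧
        TrimOut h β unit (fun b i => (L b i).sum) Tr Rm w μ rank)
      (T (Fintype.card G)) (∑ b, ∑ i, L b i)

end H85.Cake
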