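import Pool.Agent.H85.Cake.MarketDef
import Pool.Agent.H85.Cake.TrimDef
import Pool.Agent.H85.Cake.Sim
import Pool.Agent.H85.Cake.Init
import Pool.Agent.H85.Cake.Rank

/-!
# The trimming theorem from the market theorem   (JOB CAKE-TRIM)

PROOF.  For every item `b` let `l b = (List.finRange h).flatMap (fun i => (L b i).toList)` (atoms of
layer `0` first), and `top b, Lp b` from `initLine (β b) unit (l b)`; `Lv b = []`.  Let
`K b = pts (top b) (Lp b)` (a chain, `IsLine.chain`).  Apply `hM` with `J = G`, `Γ = ℝ ×ₗ ℝ`,
`W = O = univ`, `ρ b = top b`, with the invariants `MForce.inv` (so `K b ⊆ K' b`, chains), then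
`sim`.  `∑ b, atoms (Lp b) = ∑ b, ∑ i, L b i` since `atoms (Lp b) = ↑(l b)`.
At the end we get lines `Lp' Lv'`, `p b ∈ K' b ⊆ pts (top b) (Lp' b ++ Lv' b)`, `μ : G → G`
injective, so a permutation.  `w b k = re (p b k)`; `Tr b, Rm b` from `extract`.
* total: `atoms (Lp' b) = Tr b + Rm b`; its sum is `re (top b k) - re (lastPt .. k)` (`sum_eq`)
  `= re (top b k) - β b k`, the same as for the initial line, i.e. `∑ i, (L b i).sum k`.
* ef: `re_mono` of `Outcome.ef`.
* phys: `extract`.
* depth: `l b = l1 ++ l2` with `l1` the atoms of the layers `i < d`, `l2` those of the layers `≥ d`;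
  `initLine` gives a point `x ∈ K b ⊆ K' b` with
  `re (x k) = β b k + l2.sum k = β b k + ∑_{i ≥ d} (L b i).sum k`; compare `x` with `p b` in the chain
  `K' b`: all coordinates `≤` or all `≥`, `re_mono`.
* rank: `Outcome.rank`; `p b = top b` gives `Tr b = 0` by `extract` and
  `w b k = re (top b k) = β b k + ∑ i, (L b i).sum k`.
-/

namespace H85.Cake

theorem trimA_coe_flatMap {G : Type} {h : ℕ} (f : Fin h → Multiset (G → ℝ)) (t : List (Fin h)) :
    ((t.flatMap (fun i => (f i).toList) : List (G → ℝ)) : Multiset (G → ℝ)) = (t.map f).sum := by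
  induction t with
  | nil => rfl
  | cons a t ih =>
    rw [List.flatMap_cons, ← Multiset.coe_add, ih, List.map_cons, List.sum_cons,
      Multiset.coe_toList]

theorem trimA_drop {M : Type} [AddCommMonoid M] {h : ℕ} (f : Fin h → M) (d : ℕ) :
    ((((List.finRange h).drop d)).map f).sum
      = ∑ i ∈ Finset.univ.filter (fun i : Fin h => d ≤ i.val), f i := by
  classical
  have hnd : ((List.finRange h).drop d).Nodup := (List.nodup_finRange h).drop
  rw [← List.sum_toFinset f hnd]
  refine Finset.sum_congr ?_ (fun _ _ => rfl)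
  ext i
  rw [List.mem_toFinset, Finset.mem_filter]
  constructor
  · intro hi
    refine ⟨Finset.mem_univ _, ?_⟩
    obtain ⟨m, hm, hmi⟩ := List.mem_iff_getElem.1 hi
    rw [List.getElem_drop, List.getElem_finRange] at hmi
    rw [← hmi]
    simp
  · rintro ⟨-, hi⟩
    rw [List.mem_iff_getElem]
    have hl : i.val - d < ((List.finRange h).drop d).length := by
      rw [List.length_drop, List.length_finRange]
      have := i.isLt
      omega
    refine ⟨i.val - d, hl, ?_⟩
    rw [List.getElem_drop, List.getElem_finRange]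
    ext
    simp
    omega

theorem trimA_sum_sum {G : Type} {ι : Type} (s : Finset ι) (f : ι → Multiset (G → ℝ)) (k : G) :
    (∑ i ∈ s, f i).sum k = ∑ i ∈ s, (f i).sum k := by
  have h1 : (∑ i ∈ s, f i).sum = ∑ i ∈ s, (f i).sum :=
    map_sum (Multiset.sumAddMonoidHom : Multiset (G → ℝ) →+ (G → ℝ)) f s
  rw [h1, Finset.sum_apply]

theorem trim_of_market {T : ℕ → ℕ} (hM : MarketStatement T) : TrimStatement T := by
  intro G _ _ _ h β unit hu L hL
  classical
  have hl : ∀ b, ∀ v ∈ (List.finRange h).flatMap (fun i => (L b i).toList), 0 ≤ v := by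
    intro b v hv
    obtain ⟨i, -, hi⟩ := List.mem_flatMap.1 hv
    exact hL b i v (Multiset.mem_toList.1 hi)
  have hinit := fun b => initLine (β b) unit
    ((List.finRange h).flatMap (fun i => (L b i).toList)) (hl b)
  choose top Lp hOK hmap hdec using hinit
  have hline : ∀ b, IsLine (top b) (Lp b) := by
    intro b
    have := (hOK b).line
    rwa [List.append_nil] at this
  have hchain : ∀ b, Chain (pts (top b) (Lp b)) := fun b => (hline b).chain
  have hF := hM G G (ℝ ×ₗ ℝ) Finset.univ Finset.univ top (fun b => pts (top b) (Lp b)) hchain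
    (fun b _ => Or.inl rfl) le_rfl
  have hF2 := hF.inv hchain
  have hS := sim β unit hu top hF2 Lp (fun _ => []) hOK (by
    intro j
    rw [List.append_nil])
  have hat : ∀ b, atoms (Lp b) = ∑ i, L b i := by
    intro b
    unfold atoms
    rw [hmap b, trimA_coe_flatMap, ← Fin.sum_univ_def]
  have hpos : ∑ b, atoms (Lp b) = ∑ b, ∑ i, L b i := Finset.sum_congr rfl (fun b _ => hat b)
  have htop : ∀ b k, re (top b k) = β b k + ∑ i, (L b i).sum k := by
    intro b k
    rw [(hline b).sum_eq k, (hOK b).base k, hat b, trimA_sum_sum]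
  rw [hpos, Finset.card_univ] at hS
  refine hS.mono le_rfl ?_
  rintro M ⟨Lp', Lv', K', hOK', rfl, ⟨⟨p, μ, hp, hout⟩, hKK', hch⟩, hK'⟩
  have hinj : Function.Injective μ := fun a b hab =>
    hout.inj a (Finset.mem_univ _) b (Finset.mem_univ _) hab
  have hext := fun b => extract (hOK' b) (hK' b (hp b (Finset.mem_univ _)))
  choose Tr Rm hTR hTop hph using hext
  obtain ⟨rank, hr1, hr2⟩ := hout.rank
  refine ⟨Tr, Rm, fun b k => re (p b k),
    Equiv.ofBijective μ (Finite.injective_iff_bijective.1 hinj), rank, ?_, ?_⟩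
  · exact Finset.sum_congr rfl (fun b _ => hTR b)
  · refine { total := ?_, ef := ?_, phys := ?_, depth := ?_, rank_lt := hr1, rank := ?_ }
    · intro b
      funext k
      have h1 : IsLine (top b) (Lp' b) := ((isLine_append _ _ _).1 (hOK' b).line).1
      have h2 := h1.sum_eq k
      rw [(hOK' b).base k, hTR b, Multiset.sum_add, htop b k] at h2
      rw [Finset.sum_apply]
      exact (add_left_cancel h2).symm
    · intro k b
      exact re_mono (hout.ef k (Finset.mem_univ _) b (Finset.mem_univ _))
    · intro b
      exact hph b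
    · intro b d _
      obtain ⟨x, hx, hxk⟩ := hdec b (((List.finRange h).take d).flatMap (fun i => (L b i).toList))
        (((List.finRange h).drop d).flatMap (fun i => (L b i).toList)) (by
          rw [← List.flatMap_append, List.take_append_drop])
      have hsum : ∀ k, (((List.finRange h).drop d).flatMap (fun i => (L b i).toList)).sum k
          = ∑ i ∈ Finset.univ.filter (fun i : Fin h => d ≤ i.val), (L b i).sum k := by
        intro k
        rw [← Multiset.sum_coe, trimA_coe_flatMap, trimA_drop, trimA_sum_sum]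
      have hxK : x ∈ K' b := hKK' b hx
      rcases (hch b).sle_or (hp b (Finset.mem_univ _)) hxK with h1 | h1
      · refine Or.inr (fun k => ?_)
        have h2 := re_mono (h1.le k)
        rw [hxk k, hsum k] at h2
        exact h2
      · refine Or.inl (fun k => ?_)
        have h2 := re_mono (h1 k).le
        rw [hxk k, hsum k] at h2
        exact h2
    · intro b
      rcases hr2 b with h1 | ⟨k, hk1, hk2⟩
      · refine Or.inl ⟨hTop b h1, fun k => ?_⟩
        have h2 : re (p b k) = re (top b k) := by rw [h1]
        rw [h2, htop b k]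
      · exact Or.inr ⟨k, hk1, congrArg re hk2⟩

end H85.Cake
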