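import Pool.Agent.H85.Cake.Halve

/-!
# Many small nearly equal disjoint parts   (JOB CAKE-LAYERS)

Let `c = card G * (card G * H^2)` be the cost of `halve`.

`pool`: induction on `m`: halve `M`, keep `A`, `B` goes to the rest: frame rule `Force.frame`, and
`(1 - 1/H) * (π/2) ≤ A.sum k ≤ (1 + 1/H) * (π/2)`.  (Note `0 ≤ 1 - 1/H`.)

`tree`: induction on `h`: halve `M` and apply the induction hypothesis to both halves
(`Force.frame` twice; `2 ^ (h+1)` leaves indexed by `Fin (2^h) ⊕ Fin (2^h)`; it may be easier to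
state the result with a multiset/list of `2^h` parts, or for an arbitrary index type of
cardinality `2^h`); cost `c + 2 * (2^h - 1) * c ≤ (2^(h+1) - 1) * c` (prove with the cost
`(2^h - 1) * c`).

`layers`: `pool` with `m = e - h`, then `tree` with `h` for the pool (frame: the rest), then use an
injection `G × Fin n' → Fin (2^h)` (cardinalities) and put the unused leaves into `B`.
-/

namespace H85.Cake

variable {G : Type}

theorem layers_NN_left {A B : Multiset (G → ℝ)} (h : NN (A + B)) : NN A :=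
  fun v hv => h v (Multiset.mem_add.2 (Or.inl hv))

theorem layers_NN_right {A B : Multiset (G → ℝ)} (h : NN (A + B)) : NN B :=
  fun v hv => h v (Multiset.mem_add.2 (Or.inr hv))

theorem layers_one_sub_inv_nonneg {H : ℕ} (hH : 1 ≤ H) : (0 : ℝ) ≤ 1 - 1 / (H : ℝ) := by
  have h1 : (1 : ℝ) ≤ H := by exact_mod_cast hH
  rw [sub_nonneg, div_le_one (by linarith)]
  exact h1

theorem layers_halve_lower {H : ℕ} (hH : 1 ≤ H) {a s : ℝ} (h : |a - s / 2| ≤ s / (2 * H)) :
    (1 - 1 / (H:ℝ)) * (s / 2) ≤ a ∧ a ≤ (1 + 1 / (H:ℝ)) * (s / 2) := by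
  have h1 : (0 : ℝ) < H := by
    have : (1 : ℝ) ≤ H := by exact_mod_cast hH
    linarith
  rw [abs_le] at h
  have h2 : s / (2 * H) = 1 / (H : ℝ) * (s / 2) := by
    field_simp
  rw [h2] at h
  constructor <;> nlinarith [h.1, h.2]

theorem pool [Fintype G] (H m : ℕ) (hH : 1 ≤ H) {M : Multiset (G → ℝ)} (hM : NN M) :
    Force (fun M' => ∃ A B : Multiset (G → ℝ), M' = A + B ∧
      ∀ k, (1 - 1 / (H:ℝ)) ^ m * (M.sum k / 2 ^ m) ≤ A.sum k ∧
        A.sum k ≤ (1 + 1 / (H:ℝ)) ^ m * (M.sum k / 2 ^ m))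
      (m * (Fintype.card G * (Fintype.card G * H ^ 2))) M := by
  induction m generalizing M with
  | zero =>
    refine .done ⟨M, 0, by simp, fun k => ?_⟩
    simp
  | succ m ih =>
    have hcost : (m + 1) * (Fintype.card G * (Fintype.card G * H ^ 2)) =
        Fintype.card G * (Fintype.card G * H ^ 2) +
          m * (Fintype.card G * (Fintype.card G * H ^ 2)) := by ring
    rw [hcost]
    refine (halve H hH hM).bind_inv hM ?_
    rintro M' ⟨A, B, rfl, hA, -⟩ hNN -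
    refine ((ih (layers_NN_left hNN)).frame B).mono le_rfl ?_
    rintro M'' ⟨M₁, ⟨A', B', rfl, hA'⟩, rfl⟩
    refine ⟨A', B' + B, by rw [add_assoc], fun k => ?_⟩
    have h1 := layers_halve_lower hH (hA k)
    have h2 := hA' k
    have h3 := layers_one_sub_inv_nonneg hH
    have h4 : (0 : ℝ) ≤ 1 + 1 / (H : ℝ) := by positivity
    constructor
    · refine le_trans ?_ h2.1
      calc (1 - 1 / (H:ℝ)) ^ (m + 1) * (M.sum k / 2 ^ (m + 1))
          = (1 - 1 / (H:ℝ)) ^ m * (((1 - 1 / (H:ℝ)) * (M.sum k / 2)) / 2 ^ m) := by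
            rw [pow_succ, pow_succ]; field_simp
        _ ≤ (1 - 1 / (H:ℝ)) ^ m * (A.sum k / 2 ^ m) := by
            apply mul_le_mul_of_nonneg_left _ (pow_nonneg h3 m)
            exact div_le_div_of_nonneg_right h1.1 (by positivity)
    · refine h2.2.trans ?_
      calc (1 + 1 / (H:ℝ)) ^ m * (A.sum k / 2 ^ m)
          ≤ (1 + 1 / (H:ℝ)) ^ m * (((1 + 1 / (H:ℝ)) * (M.sum k / 2)) / 2 ^ m) := by
            apply mul_le_mul_of_nonneg_left _ (pow_nonneg h4 m)
            exact div_le_div_of_nonneg_right h1.2 (by positivity)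
        _ = (1 + 1 / (H:ℝ)) ^ (m + 1) * (M.sum k / 2 ^ (m + 1)) := by
            rw [pow_succ, pow_succ]; field_simp

theorem tree' [Fintype G] (H h : ℕ) (hH : 1 ≤ H) {M : Multiset (G → ℝ)} (hM : NN M) :
    Force (fun M' => ∃ L : Fin (2 ^ h) → Multiset (G → ℝ), M' = ∑ i, L i ∧
      ∀ i k, (1 - 1 / (H:ℝ)) ^ h * (M.sum k / 2 ^ h) ≤ (L i).sum k ∧
        (L i).sum k ≤ (1 + 1 / (H:ℝ)) ^ h * (M.sum k / 2 ^ h))
      ((2 ^ h - 1) * (Fintype.card G * (Fintype.card G * H ^ 2))) M := by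
  induction h generalizing M with
  | zero =>
    refine .done ⟨fun _ => M, ?_, fun i k => ?_⟩
    · simp
    · simp
  | succ h ih =>
    have hcost : (2 ^ (h + 1) - 1) * (Fintype.card G * (Fintype.card G * H ^ 2)) =
        Fintype.card G * (Fintype.card G * H ^ 2) +
          ((2 ^ h - 1) * (Fintype.card G * (Fintype.card G * H ^ 2)) +
          (2 ^ h - 1) * (Fintype.card G * (Fintype.card G * H ^ 2))) := by
      have h1 : 2 ^ (h + 1) - 1 = 1 + ((2 ^ h - 1) + (2 ^ h - 1)) := by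
        have : 1 ≤ 2 ^ h := Nat.one_le_two_pow
        rw [pow_succ]
        omega
      rw [h1]
      ring
    rw [hcost]
    refine (halve H hH hM).bind_inv hM ?_
    rintro M' ⟨A, B, rfl, hA, hB⟩ hNN -
    refine ((ih (layers_NN_left hNN)).frame B).bind ?_
    rintro M'' ⟨M₁, ⟨L₁, rfl, hL₁⟩, rfl⟩
    rw [add_comm (∑ i, L₁ i) B]
    refine ((ih (layers_NN_right hNN)).frame (∑ i, L₁ i)).mono le_rfl ?_
    rintro M'' ⟨M₁, ⟨L₂, rfl, hL₂⟩, rfl⟩
    have hcard : Fintype.card (Fin (2 ^ (h + 1))) = Fintype.card (Fin (2 ^ h) ⊕ Fin (2 ^ h)) := by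
      rw [Fintype.card_sum, Fintype.card_fin, Fintype.card_fin]
      ring
    let e : Fin (2 ^ (h + 1)) ≃ Fin (2 ^ h) ⊕ Fin (2 ^ h) := Fintype.equivOfCardEq hcard
    refine ⟨fun i => Sum.elim L₁ L₂ (e i), ?_, fun i k => ?_⟩
    · rw [Equiv.sum_comp e (Sum.elim L₁ L₂), Fintype.sum_sum_type]
      simp only [Sum.elim_inl, Sum.elim_inr]
      rw [add_comm]
    · have key : ∀ (C : Multiset (G → ℝ)) (x : ℝ), |C.sum k - M.sum k / 2| ≤ M.sum k / (2 * H) →
          ((1 - 1 / (H:ℝ)) ^ h * (C.sum k / 2 ^ h) ≤ x ∧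
            x ≤ (1 + 1 / (H:ℝ)) ^ h * (C.sum k / 2 ^ h)) →
          ((1 - 1 / (H:ℝ)) ^ (h + 1) * (M.sum k / 2 ^ (h + 1)) ≤ x ∧
            x ≤ (1 + 1 / (H:ℝ)) ^ (h + 1) * (M.sum k / 2 ^ (h + 1))) := by
        intro C x hC h2
        have h1 := layers_halve_lower hH hC
        have h3 := layers_one_sub_inv_nonneg hH
        have h4 : (0 : ℝ) ≤ 1 + 1 / (H : ℝ) := by positivity
        constructor
        · refine le_trans ?_ h2.1
          calc (1 - 1 / (H:ℝ)) ^ (h + 1) * (M.sum k / 2 ^ (h + 1))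
              = (1 - 1 / (H:ℝ)) ^ h * (((1 - 1 / (H:ℝ)) * (M.sum k / 2)) / 2 ^ h) := by
                rw [pow_succ, pow_succ]; field_simp
            _ ≤ (1 - 1 / (H:ℝ)) ^ h * (C.sum k / 2 ^ h) := by
                apply mul_le_mul_of_nonneg_left _ (pow_nonneg h3 h)
                exact div_le_div_of_nonneg_right h1.1 (by positivity)
        · refine h2.2.trans ?_
          calc (1 + 1 / (H:ℝ)) ^ h * (C.sum k / 2 ^ h)
              ≤ (1 + 1 / (H:ℝ)) ^ h * (((1 + 1 / (H:ℝ)) * (M.sum k / 2)) / 2 ^ h) := by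
                apply mul_le_mul_of_nonneg_left _ (pow_nonneg h4 h)
                exact div_le_div_of_nonneg_right h1.2 (by positivity)
            _ = (1 + 1 / (H:ℝ)) ^ (h + 1) * (M.sum k / 2 ^ (h + 1)) := by
                rw [pow_succ, pow_succ]; field_simp
      show (1 - 1 / (H:ℝ)) ^ (h + 1) * (M.sum k / 2 ^ (h + 1)) ≤ (Sum.elim L₁ L₂ (e i)).sum k ∧
        (Sum.elim L₁ L₂ (e i)).sum k ≤ (1 + 1 / (H:ℝ)) ^ (h + 1) * (M.sum k / 2 ^ (h + 1))
      rcases e i with x | x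
      · exact key A _ (hA k) (hL₁ x k)
      · exact key B _ (hB k) (hL₂ x k)

theorem tree [Fintype G] (H h : ℕ) (hH : 1 ≤ H) {M : Multiset (G → ℝ)} (hM : NN M) :
    Force (fun M' => ∃ L : Fin (2 ^ h) → Multiset (G → ℝ), M' = ∑ i, L i ∧
      ∀ i k, (1 - 1 / (H:ℝ)) ^ h * (M.sum k / 2 ^ h) ≤ (L i).sum k ∧
        (L i).sum k ≤ (1 + 1 / (H:ℝ)) ^ h * (M.sum k / 2 ^ h))
      (2 ^ h * (Fintype.card G * (Fintype.card G * H ^ 2))) M :=
  (tree' H h hH hM).mono (Nat.mul_le_mul_right _ (Nat.sub_le _ _)) (fun _ h => h)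

theorem layers [Fintype G] (H e h n' : ℕ) (hH : 1 ≤ H) (he : h ≤ e)
    (hn : Fintype.card G * n' ≤ 2 ^ h) {M : Multiset (G → ℝ)} (hM : NN M) :
    Force (fun M' => ∃ (L : G → Fin n' → Multiset (G → ℝ)) (B : Multiset (G → ℝ)),
      M' = ∑ b, ∑ i, L b i + B ∧
      ∀ b i k, (1 - 1 / (H:ℝ)) ^ e * (M.sum k / 2 ^ e) ≤ (L b i).sum k ∧
        (L b i).sum k ≤ (1 + 1 / (H:ℝ)) ^ e * (M.sum k / 2 ^ e))
      ((e + 2 ^ h) * (Fintype.card G * (Fintype.card G * H ^ 2))) M := by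
  classical
  obtain ⟨d, rfl⟩ : ∃ d, e = d + h := ⟨e - h, by omega⟩
  have hcost : d * (Fintype.card G * (Fintype.card G * H ^ 2)) +
      2 ^ h * (Fintype.card G * (Fintype.card G * H ^ 2)) ≤
      (d + h + 2 ^ h) * (Fintype.card G * (Fintype.card G * H ^ 2)) := by
    rw [← Nat.add_mul]
    exact Nat.mul_le_mul_right _ (by omega)
  refine Force.mono ?_ hcost (fun _ h => h)
  refine (pool H d hH hM).bind_inv hM ?_
  rintro M' ⟨A, B, rfl, hA⟩ hNN -
  refine ((tree H h hH (layers_NN_left hNN)).frame B).mono le_rfl ?_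
  rintro M'' ⟨M₁, ⟨L, rfl, hL⟩, rfl⟩
  have hcard : Fintype.card (G × Fin n') ≤ Fintype.card (Fin (2 ^ h)) := by
    rw [Fintype.card_prod, Fintype.card_fin, Fintype.card_fin]
    exact hn
  obtain ⟨emb⟩ := Function.Embedding.nonempty_of_card_le hcard
  refine ⟨fun b i => L (emb (b, i)), ∑ x ∈ (Finset.univ.map emb)ᶜ, L x + B, ?_, ?_⟩
  · rw [← add_assoc]
    congr 1
    have h1 : ∑ b, ∑ i, L (emb (b, i)) = ∑ x ∈ Finset.univ.map emb, L x := by
      rw [Finset.sum_map, Fintype.sum_prod_type]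
    rw [h1, Finset.sum_add_sum_compl]
  · intro b i k
    have h1 := hA k
    have h2 := hL (emb (b, i)) k
    have h3 := layers_one_sub_inv_nonneg hH
    have h4 : (0 : ℝ) ≤ 1 + 1 / (H : ℝ) := by positivity
    constructor
    · refine le_trans ?_ h2.1
      calc (1 - 1 / (H:ℝ)) ^ (d + h) * (M.sum k / 2 ^ (d + h))
          = (1 - 1 / (H:ℝ)) ^ h * (((1 - 1 / (H:ℝ)) ^ d * (M.sum k / 2 ^ d)) / 2 ^ h) := by
            rw [pow_add, pow_add]; field_simp
        _ ≤ (1 - 1 / (H:ℝ)) ^ h * (A.sum k / 2 ^ h) := by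
            apply mul_le_mul_of_nonneg_left _ (pow_nonneg h3 h)
            exact div_le_div_of_nonneg_right h1.1 (by positivity)
    · refine h2.2.trans ?_
      calc (1 + 1 / (H:ℝ)) ^ h * (A.sum k / 2 ^ h)
          ≤ (1 + 1 / (H:ℝ)) ^ h * (((1 + 1 / (H:ℝ)) ^ d * (M.sum k / 2 ^ d)) / 2 ^ h) := by
            apply mul_le_mul_of_nonneg_left _ (pow_nonneg h4 h)
            exact div_le_div_of_nonneg_right h1.2 (by positivity)
        _ = (1 + 1 / (H:ℝ)) ^ (d + h) * (M.sum k / 2 ^ (d + h)) := by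
            rw [pow_add, pow_add]; field_simp

end H85.Cake
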