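import Pool.Agent.H85.Cake.TrimDef
import Pool.Agent.H85.Cake.Layers

/-!
# Repairing small envies   (JOB CAKE-FIX)

`n = card G`, `s = 2^{-e}`, `lo = s/4 = 1/2^(e+2)`, `hi ≥ 16 n^2 lo`, `κ = 1/(4n)`, `H = 8 n e`.
`β' b k` = value of the bundle `b` for agent `k`, `U k` = value agent `k` wants, gap
`g k b = U k - β' b k ≥ 0`.  Own gap `g k k < lo * r k` (`r = R.sum`), every gap is `< 2 lo r k` or
`≥ hi r k`.

`fix_num` (numerics): `(1 - 1/H)^e ≥ 1 - e/H = 1 - 1/(8n) ≥ 1 - κ` (Bernoulli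
`one_add_mul_le_pow`), `(1 + 1/H)^e ≤ 1 / (1 - 1/H)^e ≤ 1 / (1 - 1/(8n)) ≤ 1 + 1/(4n)`
(`(1 + x)(1 - x) ≤ 1`).

`fixTrim` (the pure real-number argument on the result `TrimOut` of the trimming theorem with
`h = n` layers, `unit = r`; layers have values `S b i k ∈ [(1-κ) s r k, (1+κ) s r k]`).  Let
`Q = n s (1+κ)`.  For every `b` choose `t b ≥ 0` (`0` in the first case of `phys`) with
`β' b k - t b * r k ≤ w b k ≤ β' b k - t b * r k + Q * r k` for all `k` (first case: `w = β' + Rm.sum`,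
`0 ≤ Rm.sum k ≤ ∑ i, S b i k ≤ Q r k` by `total`, nonnegativity).
(A) `g k (μ k) < 2 lo r k` for all `k`.  For each `k`: `w (μ k) k ≥ w k k` (`ef`), so
`β' (μ k) k - t (μ k) r k + Q r k ≥ β' k k - t k * r k`, i.e.
`t k - t (μ k) + Q ≥ (g k (μ k) - g k k) / r k ≥ -lo`.  If some `k0` has
`g k0 (μ k0) ≥ hi r k0` then its term is `≥ hi - lo`; summing over `k` (`∑ t k = ∑ t (μ k)`):
`n Q ≥ hi - n lo`; but `n Q + n lo = n^2 s (1 + κ) + n lo = 4 n^2 lo (1+κ) + n lo ≤ 5 n^2 lo + n lo +
.. < 16 n^2 lo ≤ hi`: contradiction.  So by the dichotomy the gap is `< 2 lo r k`.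
(B) for every `b` and every `k'`: `w b k' ≥ β' b k' + ∑_{i ≥ rank b} S b i k'`.  Strong induction on
`rank b`.  If the first alternative of `rank` holds: `w b = β' b + ∑_i S b i`, fine.  Otherwise there is
`k` with `m := rank (μ k) < rank b`, `w b k = w (μ k) k`.  `d = m + 1 ≤ n` (`rank_lt`).  By `depth`
for `d` either `w b ≥ β' b + ∑_{i ≥ d} S b i` in all coordinates (done, as `rank b ≥ d` and
`S ≥ 0`), or `w b k ≤ β' b k + ∑_{i ≥ m+1} S b i k ≤ β' b k + (n-m-1) s (1+κ) r k`.  But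
`w b k = w (μ k) k ≥ β' (μ k) k + ∑_{i ≥ m} S (μ k) i k ≥ β' (μ k) k + (n-m) s (1-κ) r k` (induction
hypothesis), and `β' (μ k) k = U k - g k (μ k) > U k - 2 lo r k ≥ β' b k - 2 lo r k` (A).  So
`(n-m) s (1-κ) - 2 lo < (n-m-1) s (1+κ)`, i.e. `s (1 - κ (2 (n-m) - 1)) < 2 lo = s/2`; but
`κ (2(n-m) - 1) ≤ (2n-1)/(4n) < 1/2`: contradiction.
(`#{i : Fin n | d ≤ i} = n - d`.)
(C) so `w b k' > β' b k'` (`rank b ≤ n - 1`, the layer `n-1` has positive value), so the second
alternative of `phys` is impossible and `w b k = β' b k + (Rm b).sum k`.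
(D) if `g k b ≥ hi r k`: `w (μ k) k - w b k ≥ β' (μ k) k - (β' b k + Q r k) ≥
g k b - g k (μ k) - Q r k ≥ (hi - 2 lo - Q) r k ≥ hi/2 * r k`, because
`2 lo + Q = 2 lo + 4 n lo (1+κ) ≤ 2 lo + 5 n lo ≤ 8 n^2 lo ≤ hi/2` (`n ≥ 1`; for `n = 1` `7 ≤ 8`).

`fix`: apply `layers` (with `h = Nat.clog 2 (n*n)`, `n' = n`; `n * n ≤ 2^h`), then the trimming
theorem for the layers (frame: the rest `B`) with base `β'` and `unit = R.sum`; take
`y b = Rm b`, `R' = ∑ Tr b + B`.
-/

namespace H85.Cake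

variable {G : Type}

theorem fix_num {n e : ℕ} (hn : 1 ≤ n) (he : 1 ≤ e) :
    1 - 1 / (4 * (n:ℝ)) ≤ (1 - 1 / ((8 * n * e : ℕ) : ℝ)) ^ e ∧
    (1 + 1 / ((8 * n * e : ℕ) : ℝ)) ^ e ≤ 1 + 1 / (4 * (n:ℝ)) := by
  have hn' : (1:ℝ) ≤ n := by exact_mod_cast hn
  have he' : (1:ℝ) ≤ e := by exact_mod_cast he
  push_cast
  set a : ℝ := 1 / (8 * (n:ℝ) * e) with ha
  have ha0 : 0 < a := by positivity
  have ha1 : a ≤ 1 := by
    rw [ha, div_le_one (by positivity)]
    nlinarith
  set x : ℝ := 1 / (8 * (n:ℝ)) with hx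
  have hx0 : 0 < x := by positivity
  have hx1 : x ≤ 1 / 8 := by
    rw [hx]
    apply one_div_le_one_div_of_le (by norm_num)
    linarith
  have hx2 : 1 / (4 * (n:ℝ)) = 2 * x := by
    rw [hx]; field_simp; norm_num
  have hea : (e:ℝ) * a = x := by
    rw [ha, hx]; field_simp
  have h1 : 1 - x ≤ (1 - a) ^ e := by
    have := one_add_mul_le_pow (a := -a) (by linarith) e
    rw [mul_neg, hea] at this
    simpa [sub_eq_add_neg] using this
  refine ⟨?_, ?_⟩
  · rw [hx2]
    linarith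
  · rw [hx2]
    have h2 : (1 + a) ^ e * (1 - a) ^ e ≤ 1 := by
      rw [← mul_pow]
      apply pow_le_one₀
      · nlinarith
      · nlinarith
    have h3 : (1 + a) ^ e * (1 - x) ≤ 1 :=
      (mul_le_mul_of_nonneg_left h1 (by positivity)).trans h2
    by_contra hcon
    push Not at hcon
    nlinarith

private theorem fx_sum_nonneg {M : Multiset (G → ℝ)} (hM : NN M) (k : G) : 0 ≤ M.sum k :=
  (Multiset.sum_nonneg hM) k

private theorem fx_card (n d : ℕ) :
    (Finset.univ.filter (fun i : Fin n => d ≤ i.val)).card = n - d := by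
  rcases lt_or_ge d n with h | h
  · have : Finset.univ.filter (fun i : Fin n => d ≤ i.val) = Finset.Ici (⟨d, h⟩ : Fin n) := by
      ext i
      simp [Fin.le_def]
    rw [this, Fin.card_Ici]
  · have : Finset.univ.filter (fun i : Fin n => d ≤ i.val) = ∅ := by
      ext i
      simp only [Finset.mem_filter, Finset.mem_univ, true_and, Finset.notMem_empty, iff_false]
      omega
    rw [this, Finset.card_empty]
    omega

private theorem fx_aux [Fintype G] [Nonempty G] (n : ℕ) (hndef : n = Fintype.card G) {β' : G → G → ℝ} {U r : G → ℝ} (hr : ∀ k, 0 < r k)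
    {s lo hi κ : ℝ} (hs : 0 < s) (hlo : lo = s / 4)
    (hhi : 16 * (n : ℝ) ^ 2 * lo ≤ hi) (hκ : κ = 1 / (4 * (n : ℝ)))
    (hU : ∀ k b, β' b k ≤ U k) (hown : ∀ k, U k - β' k k < lo * r k)
    (hgap : ∀ k b, U k - β' b k < 2 * lo * r k ∨ hi * r k ≤ U k - β' b k)
    {S : G → Fin n → G → ℝ}
    (hS1 : ∀ b i k, (1 - κ) * (s * r k) ≤ S b i k) (hS2 : ∀ b i k, S b i k ≤ (1 + κ) * (s * r k))
    {T Rm : G → Multiset (G → ℝ)} (hT : ∀ b, NN (T b)) (hRm : ∀ b, NN (Rm b)) {w : G → G → ℝ}
    {μ : Equiv.Perm G} {rank : G → ℕ} (h : TrimOut n β' r S T Rm w μ rank) :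
    (∀ b k, w b k = β' b k + (Rm b).sum k) ∧
    (∀ k b, hi * r k ≤ U k - β' b k → hi / 2 * r k ≤ w (μ k) k - w b k) := by
  classical
  have hn1 : 1 ≤ n := hndef ▸ Fintype.card_pos
  have hn1' : (1:ℝ) ≤ n := by exact_mod_cast hn1
  have hκ0 : 0 < κ := by rw [hκ]; positivity
  have hnκ : (n:ℝ) * κ = 1 / 4 := by rw [hκ]; field_simp
  have hκ1 : κ ≤ 1 / 4 := by nlinarith
  have hs4 : s = 4 * lo := by linarith
  have hlo0 : 0 < lo := by linarith
  set Q : ℝ := n * (s * (1 + κ)) with hQ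
  have hQ' : Q = 4 * n * lo + lo := by
    rw [hQ, hs4]
    linear_combination 4 * lo * hnκ
  have hQ0 : 0 ≤ Q := by rw [hQ']; positivity
  have hS0 : ∀ b i k, 0 ≤ S b i k := by
    intro b i k
    have h1 := hS1 b i k
    have h2 : 0 ≤ (1 - κ) * (s * r k) := mul_nonneg (by linarith) (mul_pos hs (hr k)).le
    linarith
  have hsumS : ∀ b k, ∑ i, S b i k ≤ Q * r k := by
    intro b k
    have h1 : ∑ i : Fin n, S b i k ≤ ∑ _i : Fin n, (1 + κ) * (s * r k) :=
      Finset.sum_le_sum fun i _ => hS2 b i k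
    rw [Finset.sum_const, Finset.card_univ, Fintype.card_fin, nsmul_eq_mul] at h1
    rw [hQ]
    linarith
  have hRmle : ∀ b k, (Rm b).sum k ≤ Q * r k := by
    intro b k
    have h1 := congrFun (h.total b) k
    rw [Pi.add_apply, Finset.sum_apply] at h1
    have h2 := fx_sum_nonneg (hT b) k
    have h3 := hsumS b k
    linarith
  -- the shifts
  have ht : ∀ b, ∃ t : ℝ, 0 ≤ t ∧ ∀ k, β' b k - t * r k ≤ w b k ∧
      w b k ≤ β' b k - t * r k + Q * r k := by
    intro b
    rcases h.phys b with h1 | ⟨-, t, ht0, h1⟩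
    · refine ⟨0, le_rfl, fun k => ?_⟩
      have h2 := fx_sum_nonneg (hRm b) k
      have h3 := hRmle b k
      rw [h1 k]
      constructor <;> linarith
    · refine ⟨t, ht0, fun k => ?_⟩
      rw [h1 k]
      have := mul_nonneg hQ0 (hr k).le
      constructor <;> linarith
  choose t ht0 ht using ht
  -- (A)
  have hterm : ∀ k, (U k - β' (μ k) k) - lo * r k < (t k - t (μ k) + Q) * r k := by
    intro k
    have h1 := h.ef k k
    have h2 := (ht k k).1
    have h3 := (ht (μ k) k).2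
    have h4 := hown k
    linarith
  have hterm' : ∀ k, -lo < t k - t (μ k) + Q := by
    intro k
    have h1 := hterm k
    have h2 := hU k (μ k)
    have h3 : -lo * r k < (t k - t (μ k) + Q) * r k := by linarith
    exact lt_of_mul_lt_mul_right h3 (hr k).le
  have hA : ∀ k, U k - β' (μ k) k < 2 * lo * r k := by
    intro k0
    rcases hgap k0 (μ k0) with h1 | h1
    · exact h1
    · exfalso
      have h2 : hi - lo < t k0 - t (μ k0) + Q := by
        have h3 := hterm k0
        have h4 : (hi - lo) * r k0 < (t k0 - t (μ k0) + Q) * r k0 := by linarith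
        exact lt_of_mul_lt_mul_right h4 (hr k0).le
      have h5 : ∑ k, (t k - t (μ k) + Q) = n * Q := by
        rw [Finset.sum_add_distrib, Finset.sum_sub_distrib, Equiv.sum_comp μ t, sub_self, zero_add,
          Finset.sum_const, Finset.card_univ, nsmul_eq_mul, ← hndef]
      have h6 : ∑ k, (-lo + if k = k0 then hi else 0) ≤ ∑ k, (t k - t (μ k) + Q) := by
        refine Finset.sum_le_sum fun k _ => ?_
        by_cases hk : k = k0
        · subst hk
          rw [if_pos rfl]
          linarith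
        · rw [if_neg hk, add_zero]
          exact (hterm' k).le
      rw [h5, Finset.sum_add_distrib, Finset.sum_ite_eq' Finset.univ k0,
        if_pos (Finset.mem_univ _), Finset.sum_const, Finset.card_univ, nsmul_eq_mul] at h6
      rw [← hndef] at h6
      have h7 : (n:ℝ) * Q = 4 * (n:ℝ) ^ 2 * lo + n * lo := by
        rw [hQ']; ring
      have h8 : (n:ℝ) * lo ≤ (n:ℝ) ^ 2 * lo := by
        apply mul_le_mul_of_nonneg_right _ hlo0.le
        nlinarith
      have h9 : 0 < (n:ℝ) ^ 2 * lo := by positivity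
      nlinarith
  -- tails
  have htlS : ∀ b d k, (((n - d : ℕ) : ℝ)) * ((1 - κ) * (s * r k)) ≤
      ∑ i ∈ Finset.univ.filter (fun i : Fin n => d ≤ i.val), S b i k := by
    intro b d k
    have h1 : ∑ _i ∈ Finset.univ.filter (fun i : Fin n => d ≤ i.val), (1 - κ) * (s * r k) ≤
        ∑ i ∈ Finset.univ.filter (fun i : Fin n => d ≤ i.val), S b i k :=
      Finset.sum_le_sum fun i _ => hS1 b i k
    rwa [Finset.sum_const, fx_card, nsmul_eq_mul] at h1
  have htlS2 : ∀ b d k, ∑ i ∈ Finset.univ.filter (fun i : Fin n => d ≤ i.val), S b i k ≤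
      (((n - d : ℕ) : ℝ)) * ((1 + κ) * (s * r k)) := by
    intro b d k
    have h1 : ∑ i ∈ Finset.univ.filter (fun i : Fin n => d ≤ i.val), S b i k ≤
        ∑ _i ∈ Finset.univ.filter (fun i : Fin n => d ≤ i.val), (1 + κ) * (s * r k) :=
      Finset.sum_le_sum fun i _ => hS2 b i k
    rwa [Finset.sum_const, fx_card, nsmul_eq_mul] at h1
  have htlanti : ∀ b d d' k, d ≤ d' →
      ∑ i ∈ Finset.univ.filter (fun i : Fin n => d' ≤ i.val), S b i k ≤
      ∑ i ∈ Finset.univ.filter (fun i : Fin n => d ≤ i.val), S b i k := by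
    intro b d d' k hdd
    refine Finset.sum_le_sum_of_subset_of_nonneg ?_ fun i _ _ => hS0 b i k
    intro i hi'
    simp only [Finset.mem_filter, Finset.mem_univ, true_and] at hi' ⊢
    omega
  -- (B)
  have hB : ∀ m : ℕ, ∀ b, rank b = m → ∀ k',
      β' b k' + ∑ i ∈ Finset.univ.filter (fun i : Fin n => rank b ≤ i.val), S b i k' ≤ w b k' := by
    intro m
    induction m using Nat.strong_induction_on with
    | _ m ih =>
      intro b hb k'
      rcases h.rank b with ⟨-, h1⟩ | ⟨k, hk1, hk2⟩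
      · rw [h1 k']
        have h2 := htlanti b 0 (rank b) k' (Nat.zero_le _)
        have h3 : Finset.univ.filter (fun i : Fin n => 0 ≤ i.val) = Finset.univ := by
          ext i; simp
        rw [h3] at h2
        linarith
      · have hrb := h.rank_lt b
        rw [← hndef] at hrb
        have hd : rank (μ k) + 1 ≤ n := by omega
        rcases h.depth b (rank (μ k) + 1) hd with h1 | h1
        · have h2 := h1 k'
          have h3 := htlanti b (rank (μ k) + 1) (rank b) k' (by omega)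
          linarith
        · exfalso
          have h2 := h1 k
          have h3 := htlS2 b (rank (μ k) + 1) k
          have h4 := ih (rank (μ k)) (by omega) (μ k) rfl k
          have h5 := htlS (μ k) (rank (μ k)) k
          have h6 := hA k
          have h7 := hU k b
          have hN1 : ((n - (rank (μ k) + 1) : ℕ) : ℝ) = (n:ℝ) - rank (μ k) - 1 := by
            rw [Nat.cast_sub hd]; push_cast; ring
          have hN2 : ((n - rank (μ k) : ℕ) : ℝ) = (n:ℝ) - rank (μ k) := by
            rw [Nat.cast_sub (by omega)]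
          rw [hN1] at h3
          rw [hN2] at h5
          set N : ℝ := (n:ℝ) - rank (μ k) with hN
          have hNn : N ≤ n := by
            rw [hN]
            have : (0:ℝ) ≤ rank (μ k) := Nat.cast_nonneg _
            linarith
          have h8 : (N * ((1 - κ) * s) - 2 * lo) * r k < ((N - 1) * ((1 + κ) * s)) * r k := by
            have e1 : N * ((1 - κ) * (s * r k)) = N * ((1 - κ) * s) * r k := by ring
            have e2 : (N - 1) * ((1 + κ) * (s * r k)) = (N - 1) * ((1 + κ) * s) * r k := by ring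
            rw [e1] at h5
            rw [e2] at h3
            rw [sub_mul]
            linarith
          have h9 := lt_of_mul_lt_mul_right h8 (hr k).le
          have h10 : s * (1 - κ * (2 * N - 1)) < s * (1 / 2) := by
            have : N * ((1 - κ) * s) - (N - 1) * ((1 + κ) * s) = s * (1 - κ * (2 * N - 1)) := by
              ring
            linarith
          have h11 := lt_of_mul_lt_mul_left h10 hs.le
          have h12 : κ * N ≤ 1 / 4 := by
            rw [← hnκ, mul_comm (n:ℝ)]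
            exact mul_le_mul_of_nonneg_left hNn hκ0.le
          nlinarith
  -- (C)
  have hC : ∀ b k, β' b k < w b k := by
    intro b k
    have h1 := hB (rank b) b rfl k
    have h2 := htlS b (rank b) k
    have h3 := h.rank_lt b
    rw [← hndef] at h3
    have h4 : (1:ℝ) ≤ ((n - rank b : ℕ) : ℝ) := by
      have : 1 ≤ n - rank b := by omega
      exact_mod_cast this
    have h5 : 0 < (1 - κ) * (s * r k) := mul_pos (by linarith) (mul_pos hs (hr k))
    have h6 := mul_le_mul_of_nonneg_right h4 h5.le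
    linarith
  have hC' : ∀ b k, w b k = β' b k + (Rm b).sum k := by
    intro b
    rcases h.phys b with h1 | ⟨-, t', ht0', h1⟩
    · exact h1
    · exfalso
      obtain ⟨k⟩ := (inferInstance : Nonempty G)
      have h2 := hC b k
      rw [h1 k] at h2
      have := mul_nonneg ht0' (hr k).le
      linarith
  refine ⟨hC', ?_⟩
  intro k b hkb
  have h1 := hC (μ k) k
  have h2 := hRmle b k
  have h3 := hA k
  rw [hC' b k]
  have h4 : (2 * lo + Q) * r k ≤ hi / 2 * r k := by
    refine mul_le_mul_of_nonneg_right ?_ (hr k).le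
    have h8 : (n:ℝ) * lo ≤ (n:ℝ) ^ 2 * lo := by
      apply mul_le_mul_of_nonneg_right _ hlo0.le
      nlinarith
    have h9 : lo ≤ (n:ℝ) * lo := by nlinarith
    rw [hQ']
    nlinarith
  have h5 : hi * r k = hi / 2 * r k + hi / 2 * r k := by ring
  have h6 : (2 * lo + Q) * r k = 2 * lo * r k + Q * r k := by ring
  linarith

theorem fixTrim [Fintype G] [Nonempty G] {β' : G → G → ℝ} {U r : G → ℝ} (hr : ∀ k, 0 < r k)
    {s lo hi κ : ℝ} (hs : 0 < s) (hlo : lo = s / 4)
    (hhi : 16 * (Fintype.card G : ℝ) ^ 2 * lo ≤ hi) (hκ : κ = 1 / (4 * (Fintype.card G : ℝ)))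
    (hU : ∀ k b, β' b k ≤ U k) (hown : ∀ k, U k - β' k k < lo * r k)
    (hgap : ∀ k b, U k - β' b k < 2 * lo * r k ∨ hi * r k ≤ U k - β' b k)
    {S : G → Fin (Fintype.card G) → G → ℝ}
    (hS1 : ∀ b i k, (1 - κ) * (s * r k) ≤ S b i k) (hS2 : ∀ b i k, S b i k ≤ (1 + κ) * (s * r k))
    {T Rm : G → Multiset (G → ℝ)} (hT : ∀ b, NN (T b)) (hRm : ∀ b, NN (Rm b)) {w : G → G → ℝ}
    {μ : Equiv.Perm G} {rank : G → ℕ} (h : TrimOut (Fintype.card G) β' r S T Rm w μ rank) :
    (∀ b k, w b k = β' b k + (Rm b).sum k) ∧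
    (∀ k b, hi * r k ≤ U k - β' b k → hi / 2 * r k ≤ w (μ k) k - w b k) :=
  fx_aux (Fintype.card G) rfl hr hs hlo hhi hκ hU hown hgap hS1 hS2 hT hRm h

theorem fix {T : ℕ → ℕ} (hT : TrimStatement T) [Fintype G] [DecidableEq G] [Nonempty G]
    {β' : G → G → ℝ} {U : G → ℝ} {R : Multiset (G → ℝ)} (hR : NN R) (hr : ∀ k, 0 < R.sum k)
    (e : ℕ) (he1 : 1 ≤ e) (he : Nat.clog 2 (Fintype.card G * Fintype.card G) ≤ e) {lo hi : ℝ}
    (hlo : lo = 1 / 2 ^ (e + 2)) (hhi : 16 * (Fintype.card G : ℝ) ^ 2 * lo ≤ hi)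
    (hU : ∀ k b, β' b k ≤ U k) (hown : ∀ k, U k - β' k k < lo * R.sum k)
    (hgap : ∀ k b, U k - β' b k < 2 * lo * R.sum k ∨ hi * R.sum k ≤ U k - β' b k) :
    Force (fun M' => ∃ (μ : Equiv.Perm G) (y : G → Multiset (G → ℝ)) (R' : Multiset (G → ℝ)),
      M' = ∑ b, y b + R' ∧
      (∀ k b, β' b k + (y b).sum k ≤ β' (μ k) k + (y (μ k)).sum k) ∧
      (∀ k b, hi * R.sum k ≤ U k - β' b k →
        hi / 2 * R.sum k ≤ (β' (μ k) k + (y (μ k)).sum k) - (β' b k + (y b).sum k)))
      ((e + 2 ^ Nat.clog 2 (Fintype.card G * Fintype.card G)) *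
        (Fintype.card G * (Fintype.card G * (8 * Fintype.card G * e) ^ 2)) +
        T (Fintype.card G)) R := by
  have hn1 : 1 ≤ Fintype.card G := Fintype.card_pos
  have hnum := fix_num (n := Fintype.card G) (e := e) hn1 he1
  have hH : 1 ≤ 8 * Fintype.card G * e := Nat.one_le_iff_ne_zero.2 (by positivity)
  have h1 := layers (G := G) (8 * Fintype.card G * e) e
    (Nat.clog 2 (Fintype.card G * Fintype.card G)) (Fintype.card G) hH he
    (Nat.le_pow_clog (by norm_num) _) hR
  refine h1.bind_inv hR ?_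
  rintro M' ⟨L, B, rfl, hL⟩ hNN hsum
  have hLNN : ∀ b i, NN (L b i) := by
    intro b i v hv
    apply hNN
    rw [Multiset.mem_add, Multiset.mem_sum]
    left
    refine ⟨b, Finset.mem_univ b, ?_⟩
    rw [Multiset.mem_sum]
    exact ⟨i, Finset.mem_univ i, hv⟩
  have h2 := (hT G (Fintype.card G) β' R.sum hr L hLNN).frame B
  refine h2.mono_inv hNN le_rfl ?_
  rintro M'' ⟨M₁, ⟨Tr, Rm, w, μ, rank, rfl, hout⟩, rfl⟩ hNN'' -
  have hTr : ∀ b, NN (Tr b) := by
    intro b v hv
    apply hNN''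
    rw [Multiset.mem_add, Multiset.mem_sum]
    left
    refine ⟨b, Finset.mem_univ b, ?_⟩
    rw [Multiset.mem_add]
    exact Or.inl hv
  have hRm : ∀ b, NN (Rm b) := by
    intro b v hv
    apply hNN''
    rw [Multiset.mem_add, Multiset.mem_sum]
    left
    refine ⟨b, Finset.mem_univ b, ?_⟩
    rw [Multiset.mem_add]
    exact Or.inr hv
  have hs : (0:ℝ) < 1 / 2 ^ e := by positivity
  have hlo' : lo = 1 / 2 ^ e / 4 := by
    rw [hlo, pow_add]
    field_simp
    norm_num
  have hx : ∀ k, R.sum k / 2 ^ e = 1 / 2 ^ e * R.sum k := by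
    intro k
    ring
  have hout2 := fixTrim (G := G) (β' := β') (U := U) (r := R.sum) hr (s := 1 / 2 ^ e) (lo := lo)
    (hi := hi) (κ := 1 / (4 * (Fintype.card G : ℝ))) hs hlo' hhi rfl hU hown hgap
    (S := fun b i => (L b i).sum)
    (by
      intro b i k
      refine le_trans ?_ (hL b i k).1
      rw [hx]
      exact mul_le_mul_of_nonneg_right hnum.1 (mul_pos hs (hr k)).le)
    (by
      intro b i k
      refine (hL b i k).2.trans ?_
      rw [hx]
      exact mul_le_mul_of_nonneg_right hnum.2 (mul_pos hs (hr k)).le)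
    hTr hRm hout
  refine ⟨μ, Rm, ∑ b, Tr b + B, ?_, ?_, ?_⟩
  · rw [Finset.sum_add_distrib]
    abel
  · intro k b
    rw [← hout2.1, ← hout2.1]
    exact hout.ef k b
  · intro k b hkb
    rw [← hout2.1, ← hout2.1]
    exact hout2.2 k b hkb

end H85.Cake
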