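import Pool.Agent.H85.Cake.MG

/-!
# Lexicographic utilities   (JOB CAKE-LEX)

Utilities are elements of `ℝ ×ₗ ℝ` (`Lex (ℝ × ℝ)`, linear order of Mathlib); `re` is the first
(real) coordinate, the second coordinate is an infinitesimal correction.

`lex_between`: cases: `re u < x < re w`: `p = (x, 0)`; `re u = x < re w`: `p = (x, u.2 + 1)`;
`re u < x = re w`: `p = (x, w.2 - 1)`; `re u = x = re w`: `u.2 < w.2` and `p = (x, (u.2+w.2)/2)`.
`lex_below`: `p = (x, w.2 - 1)` for `x ≤ re w`.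
-/

namespace H85.Cake

/-- The real part of a lexicographic utility. -/
def re (x : ℝ ×ₗ ℝ) : ℝ := (ofLex x).1

theorem re_mono {u w : ℝ ×ₗ ℝ} (h : u ≤ w) : re u ≤ re w := by
  rcases (Prod.Lex.le_iff).1 h with h | h
  · exact h.le
  · exact h.1.le

theorem lt_of_re_lt {u w : ℝ ×ₗ ℝ} (h : re u < re w) : u < w :=
  (Prod.Lex.lt_iff).2 (Or.inl h)

theorem lex_lt_of_eq {u w : ℝ ×ₗ ℝ} (h : re u = re w) (h' : (ofLex u).2 < (ofLex w).2) : u < w :=
  (Prod.Lex.lt_iff).2 (Or.inr ⟨h, h'⟩)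

@[simp] theorem re_mk (a b : ℝ) : re (toLex (a, b)) = a := rfl

theorem lex_between {u w : ℝ ×ₗ ℝ} (h : u < w) {x : ℝ} (h1 : re u ≤ x) (h2 : x ≤ re w) :
    ∃ p : ℝ ×ₗ ℝ, re p = x ∧ u < p ∧ p < w := by
  rcases h1.lt_or_eq with h1 | h1
  · rcases h2.lt_or_eq with h2 | h2
    · exact ⟨toLex (x, 0), rfl, lt_of_re_lt h1, lt_of_re_lt h2⟩
    · refine ⟨toLex (x, (ofLex w).2 - 1), rfl, lt_of_re_lt h1, lex_lt_of_eq h2 ?_⟩
      simp
  · rcases h2.lt_or_eq with h2 | h2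
    · refine ⟨toLex (x, (ofLex u).2 + 1), rfl, lex_lt_of_eq h1 ?_, lt_of_re_lt h2⟩
      simp
    · have h3 : (ofLex u).2 < (ofLex w).2 := by
        rcases (Prod.Lex.lt_iff).1 h with h4 | h4
        · exact absurd h4 (by
            have : re u = re w := h1.trans h2
            exact this.not_lt)
        · exact h4.2
      refine ⟨toLex (x, ((ofLex u).2 + (ofLex w).2) / 2), rfl, lex_lt_of_eq h1 ?_, lex_lt_of_eq h2 ?_⟩
      · simp only [ofLex_toLex]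
        linarith
      · simp only [ofLex_toLex]
        linarith

theorem lex_below (w : ℝ ×ₗ ℝ) {x : ℝ} (h : x ≤ re w) : ∃ p : ℝ ×ₗ ℝ, re p = x ∧ p < w := by
  rcases h.lt_or_eq with h | h
  · exact ⟨toLex (x, 0), rfl, lt_of_re_lt h⟩
  · refine ⟨toLex (x, (ofLex w).2 - 1), rfl, lex_lt_of_eq h ?_⟩
    simp

theorem lex_above (w : ℝ ×ₗ ℝ) {x : ℝ} (h : re w ≤ x) : ∃ p : ℝ ×ₗ ℝ, re p = x ∧ w < p := by
  rcases h.lt_or_eq with h | h
  · exact ⟨toLex (x, 0), rfl, lt_of_re_lt h⟩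
  · refine ⟨toLex (x, (ofLex w).2 + 1), rfl, lex_lt_of_eq h ?_⟩
    simp

end H85.Cake
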