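import Pool.Agent.H85.Cake.LineDefs

/-!
# Lines: basic lemmas   (JOB CAKE-LINE)

All by induction on the list (generalizing the starting point).

* `isLine_append`, `lastPt_append`, `mem_pts_append`.
* `IsLine.sle_of_mem`: every point is `SLe` the starting point; `IsLine.last_sle`: the last point
  is `SLe` every point.
* `IsLine.chain`: the points form a chain.
* `IsLine.sum_eq`: `re (q k) = re (lastPt q L k) + ((atoms L).sum) k`.
* `IsLine.locate`: find the segment containing the value `γ` of agent `i`.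
  Induction: for `s :: L`: if `γ ≤ s.2 i` use the induction hypothesis for `s.2, L`
  (a point of `pts s.2 L` is a point of `pts q (s :: L)`), and put `L1 := s :: L1'`; if
  `s.2 i < γ`: if `γ = q i` the point is `q`, else `L1 = []`.
* `IsLine.insert`: insert a point.  Let `z = lastPt q L1` (the point before `s`),
  `r = re (z i) - re γ`; `re (s.2 i) ≤ re γ ≤ re (z i)` and `re (z k) = re (s.2 k) + s.1 k`, so
  `0 ≤ r ≤ s.1 i`.  Given the split `a' + a'' = s.1`, choose `p i = γ` and for `k ≠ i` by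
  `lex_between` (`s.2 k < z k`, `re (s.2 k) ≤ re (z k) - a' k ≤ re (z k)`) a value `p k` with
  `re (p k) = re (z k) - a' k`, `s.2 k < p k < z k`.
-/

namespace H85.Cake

variable {G : Type}

theorem isLine_append (q : G → ℝ ×ₗ ℝ) (L1 L2 : List ((G → ℝ) × (G → ℝ ×ₗ ℝ))) :
    IsLine q (L1 ++ L2) ↔ IsLine q L1 ∧ IsLine (lastPt q L1) L2 := by
  induction L1 generalizing q with
  | nil => simp [IsLine, lastPt]
  | cons s L ih =>
    rw [List.cons_append]
    simp only [IsLine, lastPt, ih, and_assoc]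

theorem lastPt_append (q : G → ℝ ×ₗ ℝ) (L1 L2 : List ((G → ℝ) × (G → ℝ ×ₗ ℝ))) :
    lastPt q (L1 ++ L2) = lastPt (lastPt q L1) L2 := by
  induction L1 generalizing q with
  | nil => rfl
  | cons s L ih =>
    rw [List.cons_append]
    exact ih s.2

theorem lineA_pts_cons (q : G → ℝ ×ₗ ℝ) (s : (G → ℝ) × (G → ℝ ×ₗ ℝ))
    (L : List ((G → ℝ) × (G → ℝ ×ₗ ℝ))) (x : G → ℝ ×ₗ ℝ) :
    x ∈ pts q (s :: L) ↔ x = q ∨ x ∈ pts s.2 L := by
  simp only [pts, Set.mem_ofPred_eq, List.mem_cons, exists_eq_or_imp]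

theorem lastPt_mem (q : G → ℝ ×ₗ ℝ) (L : List ((G → ℝ) × (G → ℝ ×ₗ ℝ))) :
    lastPt q L ∈ pts q L := by
  induction L generalizing q with
  | nil => exact Or.inl rfl
  | cons s L ih => exact (lineA_pts_cons q s L _).2 (Or.inr (ih s.2))

theorem pts_append (q : G → ℝ ×ₗ ℝ) (L1 L2 : List ((G → ℝ) × (G → ℝ ×ₗ ℝ))) :
    pts q (L1 ++ L2) = pts q L1 ∪ pts (lastPt q L1) L2 := by
  induction L1 generalizing q with
  | nil =>
    ext x
    simp only [List.nil_append, lastPt, Set.mem_union]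
    refine ⟨Or.inr, fun h => h.elim ?_ id⟩
    rintro (rfl | ⟨s, hs, -⟩)
    · exact Or.inl rfl
    · exact absurd hs List.not_mem_nil
  | cons s L ih =>
    ext x
    rw [List.cons_append, lineA_pts_cons, ih, Set.mem_union, Set.mem_union, lineA_pts_cons, or_assoc]
    rfl

theorem IsLine.sle_of_mem {q : G → ℝ ×ₗ ℝ} {L : List ((G → ℝ) × (G → ℝ ×ₗ ℝ))}
    (h : IsLine q L) {x : G → ℝ ×ₗ ℝ} (hx : x ∈ pts q L) : SLe x q := by
  induction L generalizing q with
  | nil =>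
    rcases hx with rfl | ⟨s, hs, -⟩
    · exact SLe.refl _
    · exact absurd hs List.not_mem_nil
  | cons s L ih =>
    rcases (lineA_pts_cons q s L x).1 hx with rfl | hx
    · exact SLe.refl _
    · exact (ih h.2.2.2 hx).trans h.1.sle

theorem IsLine.chain {q : G → ℝ ×ₗ ℝ} {L : List ((G → ℝ) × (G → ℝ ×ₗ ℝ))}
    (h : IsLine q L) : Chain (pts q L) := by
  induction L generalizing q with
  | nil =>
    intro a ha b hb
    rcases ha with rfl | ⟨s, hs, -⟩
    · rcases hb with rfl | ⟨s, hs, -⟩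
      · exact Or.inl rfl
      · exact absurd hs List.not_mem_nil
    · exact absurd hs List.not_mem_nil
  | cons s L ih =>
    have key : ∀ a ∈ pts s.2 L, SLt a q := by
      intro a ha
      rcases IsLine.sle_of_mem h.2.2.2 ha with rfl | h1
      · exact h.1
      · exact h1.trans h.1
    intro a ha b hb
    rcases (lineA_pts_cons q s L a).1 ha with ha | ha
    · rcases (lineA_pts_cons q s L b).1 hb with hb | hb
      · exact Or.inl (ha.trans hb.symm)
      · exact Or.inr (Or.inr (ha ▸ key b hb))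
    · rcases (lineA_pts_cons q s L b).1 hb with hb | hb
      · exact Or.inr (Or.inl (hb ▸ key a ha))
      · exact ih h.2.2.2 a ha b hb

theorem IsLine.sum_eq {q : G → ℝ ×ₗ ℝ} {L : List ((G → ℝ) × (G → ℝ ×ₗ ℝ))}
    (h : IsLine q L) (k : G) : re (q k) = re (lastPt q L k) + (atoms L).sum k := by
  induction L generalizing q with
  | nil => simp [lastPt, atoms]
  | cons s L ih =>
    have h1 : atoms (s :: L) = s.1 ::ₘ atoms L := rfl
    have h2 := h.2.2.1 k
    have h3 := ih h.2.2.2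
    have h4 : lastPt q (s :: L) = lastPt s.2 L := rfl
    rw [h1, Multiset.sum_cons, Pi.add_apply, h2, h3, h4]
    ring

theorem IsLine.locate {q : G → ℝ ×ₗ ℝ} {L : List ((G → ℝ) × (G → ℝ ×ₗ ℝ))}
    (h : IsLine q L) (i : G) (γ : ℝ ×ₗ ℝ) (h1 : γ ≤ q i) (h2 : lastPt q L i ≤ γ) :
    (∃ x ∈ pts q L, x i = γ) ∨
    ∃ (L1 L2 : List ((G → ℝ) × (G → ℝ ×ₗ ℝ))) (s : (G → ℝ) × (G → ℝ ×ₗ ℝ)),
      L = L1 ++ s :: L2 ∧ s.2 i < γ ∧ γ < lastPt q L1 i := by
  induction L generalizing q with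
  | nil => exact Or.inl ⟨q, Or.inl rfl, le_antisymm h2 h1⟩
  | cons s L ih =>
    rcases le_or_gt γ (s.2 i) with h3 | h3
    · rcases ih h.2.2.2 h3 h2 with ⟨x, hx, hxi⟩ | ⟨L1, L2, s', h4, h5, h6⟩
      · exact Or.inl ⟨x, (lineA_pts_cons q s L x).2 (Or.inr hx), hxi⟩
      · refine Or.inr ⟨s :: L1, L2, s', ?_, h5, h6⟩
        rw [h4, List.cons_append]
    · rcases h1.eq_or_lt with h4 | h4
      · exact Or.inl ⟨q, Or.inl rfl, h4.symm⟩
      · exact Or.inr ⟨[], L, s, rfl, h3, h4⟩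

theorem IsLine.insert {q : G → ℝ ×ₗ ℝ} {L1 L2 : List ((G → ℝ) × (G → ℝ ×ₗ ℝ))}
    {s : (G → ℝ) × (G → ℝ ×ₗ ℝ)} (h : IsLine q (L1 ++ s :: L2)) (i : G) (γ : ℝ ×ₗ ℝ)
    (h1 : s.2 i < γ) (h2 : γ < lastPt q L1 i) :
    0 ≤ re (lastPt q L1 i) - re γ ∧ re (lastPt q L1 i) - re γ ≤ s.1 i ∧
    ∀ a' a'' : G → ℝ, 0 ≤ a' → 0 ≤ a'' → a' + a'' = s.1 →
      a' i = re (lastPt q L1 i) - re γ →
      ∃ p : G → ℝ ×ₗ ℝ, p i = γ ∧ IsLine q (L1 ++ (a', p) :: (a'', s.2) :: L2) := by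
  classical
  obtain ⟨hL1, h3, h4, h5, h6⟩ := (isLine_append q L1 (s :: L2)).1 h
  set z := lastPt q L1 with hz
  have e1 : re γ ≤ re (z i) := re_mono h2.le
  have e2 : re (s.2 i) ≤ re γ := re_mono h1.le
  have e3 := h5 i
  refine ⟨by linarith, by linarith, ?_⟩
  intro a' a'' ha' ha'' hsum hi
  have hk : ∀ k, ∃ p : ℝ ×ₗ ℝ, (k = i → p = γ) ∧ re p = re (z k) - a' k ∧ s.2 k < p ∧ p < z k := by
    intro k
    by_cases hki : k = i
    · subst hki
      exact ⟨γ, fun _ => rfl, by rw [hi]; ring, h1, h2⟩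
    · have h7 : 0 ≤ a' k := ha' k
      have h8 : 0 ≤ a'' k := ha'' k
      have h9 : a' k + a'' k = s.1 k := congrFun hsum k
      obtain ⟨p, hp1, hp2, hp3⟩ := lex_between (h3 k) (x := re (z k) - a' k)
        (by rw [h5 k]; linarith) (by linarith)
      exact ⟨p, fun h => absurd h hki, hp1, hp2, hp3⟩
  choose p hp1 hp2 hp3 hp4 using hk
  refine ⟨p, hp1 i rfl, (isLine_append q L1 _).2 ⟨hL1, hp4, ha', ?_, hp3, ha'', ?_, h6⟩⟩
  · intro k
    show re (z k) = re (p k) + a' k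
    rw [hp2 k]; ring
  · intro k
    show re (p k) = re (s.2 k) + a'' k
    have h9 : a' k + a'' k = s.1 k := congrFun hsum k
    rw [hp2 k, h5 k, ← h9]; ring

end H85.Cake
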