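import Pool.Agent.H85.Cake.Lex
import Pool.Agent.H85.Cake.Force

/-!
# Lines: definitions

A line is a strictly decreasing (in all coordinates) sequence of points, starting from `q`; a
segment `(a, x)` consists of its vector of values `a` and the point `x` after it (when the segment
has been trimmed).
-/

namespace H85.Cake

variable {G : Type}

/-- The list of segments `L` is a line starting at the point `q`. -/
def IsLine : (G → ℝ ×ₗ ℝ) → List ((G → ℝ) × (G → ℝ ×ₗ ℝ)) → Prop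
  | _, [] => True
  | q, s :: L => SLt s.2 q ∧ 0 ≤ s.1 ∧ (∀ k, re (q k) = re (s.2 k) + s.1 k) ∧ IsLine s.2 L

/-- The last point of a line. -/
def lastPt : (G → ℝ ×ₗ ℝ) → List ((G → ℝ) × (G → ℝ ×ₗ ℝ)) → (G → ℝ ×ₗ ℝ)
  | q, [] => q
  | _, s :: L => lastPt s.2 L

/-- The points of a line. -/
def pts (q : G → ℝ ×ₗ ℝ) (L : List ((G → ℝ) × (G → ℝ ×ₗ ℝ))) : Set (G → ℝ ×ₗ ℝ) :=
  {x | x = q ∨ ∃ s ∈ L, x = s.2}

/-- The atoms of a line. -/
def atoms (L : List ((G → ℝ) × (G → ℝ ×ₗ ℝ))) : Multiset (G → ℝ) :=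
  (L.map Prod.fst : List (G → ℝ))

/-- A line for an item with base values `β`: physical segments `Lp`, then virtual segments `Lv`
whose values are multiples of `unit`. -/
structure LineOK (β unit : G → ℝ) (top : G → ℝ ×ₗ ℝ)
    (Lp Lv : List ((G → ℝ) × (G → ℝ ×ₗ ℝ))) : Prop where
  line : IsLine top (Lp ++ Lv)
  base : ∀ k, re (lastPt top Lp k) = β k
  virt : ∀ s ∈ Lv, ∃ t : ℝ, 0 ≤ t ∧ s.1 = t • unit

end H85.Cake
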