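import Pool.Agent.H85.Cake.MG

/-!
# Augmentation or a critical set   (JOB CAKE-MREACH)

`reach`: for a state with a free agent `f` either all agents of `W` can be matched (an `Outcome`
with the same levels), or there is a closed set `Z` of matched items, which is critical.

PROOF.  Notation `D i = Dem O p i` (nonempty if `O` is nonempty; `μ i ∈ D i` for `i ∈ W`, `i ≠ f`
by `ef`).  `O` itself is closed.  Let `Z` be a closed set (`Closed W O p μ f Z`) of smallest
cardinality.

CASE (a): `Z` contains an item `j*` with `μ i ≠ j*` for all `i ∈ W ∖ f`.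
Let `U0 = {μ i | i ∈ W ∖ f} ∪ {j*}`, `U0.card = W.card`.
HALL: every `W1 ⊆ W` has `W1.card ≤ ((W1.biUnion D) ∩ U0).card`.  Let
`Y = image μ (W1 ∖ f) ⊆ (⋃ D) ∩ U0`.  If `f ∉ W1`: `Y.card = W1.card`, fine.  If `f ∈ W1`,
`Y.card = W1.card - 1`; suppose the inequality fails, then `(W1.biUnion D) ∩ U0 = Y`.  Let
`Z2 = Z.filter (fun j => j ∈ Y ∨ j ∉ U0)`.  `j* ∉ Z2` (`j* ∈ U0`, `j* ∉ Y` since `j*` is
unmatched), so `Z2.card < Z.card`.  But `Z2` is closed: `D f ⊆ Z`, and an element of `D f ∩ U0` is in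
`Y` since `f ∈ W1`.  If `i ∈ W ∖ f`, `μ i ∈ Z2`: `μ i ∈ U0` so `μ i ∈ Y`, so `i ∈ W1` (injectivity),
so `D i ∩ U0 ⊆ Y`, and `D i ⊆ Z` as `μ i ∈ Z`; so `D i ⊆ Z2`.  Contradiction with minimality.
By Hall's theorem (`Finset.all_card_le_biUnion_card_iff_exists_injective`, for the index type
`↥W` and the sets `D i ∩ U0`) there is an injective `μ'` on `W` with `μ' i ∈ D i ∩ U0`; its image
is `U0` by cardinality.  `Outcome W O ρ p μ'`: `le` same; `mem`, `inj` clear; `ef`: `μ' i ∈ D i`;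
`neat`: if `j` is not in the image of `μ'` it is not in `U0`, so not in the image of `μ` on
`W ∖ f`: `p j = ρ j`; `linked` same statement.

CASE (b): every item of `Z` is `μ i` for some `i ∈ W`, `i ≠ f`.  Claim: for nonempty `Y ⊆ Z`:
`Y.card + 1 ≤ #{i ∈ W | (i = f ∨ μ i ∈ Z) ∧ ∃ j ∈ Y, j ∈ D i}`.  The set contains
`{i ∈ W | i ≠ f, μ i ∈ Y}` which has `Y.card` elements.  `Z ∖ Y` is smaller than `Z`, so not
closed: either `D f ⊄ Z ∖ Y`, so (as `D f ⊆ Z`) `D f` meets `Y`: `f` is an additional element;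
or some `i ∈ W ∖ f` has `μ i ∈ Z ∖ Y` and `D i ⊄ Z ∖ Y`, so `D i` meets `Y`: `i` is an additional
element.
`Z` is nonempty because `D f` is nonempty (`O` nonempty: a maximum exists).
-/

namespace H85.Cake

variable {G J Γ : Type} [LinearOrder Γ]

open Classical in
private theorem reach_mem_Dem {W : Finset G} {O : Finset J} {ρ p : J → G → Γ} {μ : G → J} {f : G}
    (hs : PState W O ρ p μ f) {i : G} (hi : i ∈ W) (hif : i ≠ f) : μ i ∈ Dem O p i :=
  Finset.mem_filter.2 ⟨hs.mem i hi hif, fun j' hj' => hs.ef i hi hif j' hj'⟩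

open Classical in
private theorem reach_min (W : Finset G) (O : Finset J) (p : J → G → Γ) (μ : G → J) (f : G) :
    ∃ Z, Closed W O p μ f Z ∧ ∀ Z', Closed W O p μ f Z' → Z.card ≤ Z'.card := by
  have hO : Closed W O p μ f O :=
    ⟨subset_rfl, Finset.filter_subset _ _, fun i _ _ _ => Finset.filter_subset _ _⟩
  obtain ⟨Z, hZ, hmin⟩ := Finset.exists_min_image
    (O.powerset.filter (fun Z => Closed W O p μ f Z)) Finset.card
    ⟨O, Finset.mem_filter.2 ⟨Finset.mem_powerset_self O, hO⟩⟩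
  exact ⟨Z, (Finset.mem_filter.1 hZ).2, fun Z' hZ' =>
    hmin Z' (Finset.mem_filter.2 ⟨Finset.mem_powerset.2 hZ'.1, hZ'⟩)⟩

open Classical in
private theorem reach_a {W : Finset G} {O : Finset J} {ρ p : J → G → Γ} {μ : G → J} {f : G}
    (hs : PState W O ρ p μ f) {Z : Finset J} (hZ : Closed W O p μ f Z)
    (hmin : ∀ Z', Closed W O p μ f Z' → Z.card ≤ Z'.card) {js : J} (hjZ : js ∈ Z)
    (hjs : ∀ i ∈ W, i ≠ f → μ i ≠ js) : ∃ μ', Outcome W O ρ p μ' := by
  set U0 : Finset J := insert js ((W.erase f).image μ) with hU0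
  have hinj : ∀ i ∈ W.erase f, ∀ i' ∈ W.erase f, μ i = μ i' → i = i' := by
    intro i hi i' hi' h
    rw [Finset.mem_erase] at hi hi'
    exact hs.inj i hi.2 hi.1 i' hi'.2 hi'.1 h
  have hjs' : js ∉ (W.erase f).image μ := by
    intro h
    obtain ⟨i, hi, hi'⟩ := Finset.mem_image.1 h
    rw [Finset.mem_erase] at hi
    exact hjs i hi.2 hi.1 hi'
  have hU0c : U0.card = W.card := by
    rw [hU0, Finset.card_insert_of_notMem hjs', Finset.card_image_of_injOn (fun i hi i' hi' h =>
      hinj i hi i' hi' h), Finset.card_erase_add_one hs.free]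
  have hHall : ∀ s : Finset W, s.card ≤ (s.biUnion fun i => Dem O p i.1 ∩ U0).card := by
    intro s
    set W1 : Finset G := s.map (Function.Embedding.subtype _) with hW1
    have hW1c : W1.card = s.card := Finset.card_map _
    have hW1W : ∀ i ∈ W1, i ∈ W := by
      intro i hi
      obtain ⟨x, -, rfl⟩ := Finset.mem_map.1 hi
      exact x.2
    set Y : Finset J := (W1.erase f).image μ with hY
    have hYc : Y.card = (W1.erase f).card := by
      rw [hY]
      refine Finset.card_image_of_injOn fun i hi i' hi' h => ?_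
      rw [Finset.mem_coe, Finset.mem_erase] at hi hi'
      exact hs.inj i (hW1W i hi.2) hi.1 i' (hW1W i' hi'.2) hi'.1 h
    have hmemU : ∀ i ∈ W1, ∀ j, j ∈ Dem O p i → j ∈ U0 →
        j ∈ s.biUnion fun i => Dem O p i.1 ∩ U0 := by
      intro i hi j hj hjU
      obtain ⟨x, hx, rfl⟩ := Finset.mem_map.1 hi
      exact Finset.mem_biUnion.2 ⟨x, hx, Finset.mem_inter.2 ⟨hj, hjU⟩⟩
    have hYsub : Y ⊆ s.biUnion fun i => Dem O p i.1 ∩ U0 := by
      intro j hj
      obtain ⟨i, hi, rfl⟩ := Finset.mem_image.1 hj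
      rw [Finset.mem_erase] at hi
      refine hmemU i hi.2 _ (reach_mem_Dem hs (hW1W i hi.2) hi.1) ?_
      exact Finset.mem_insert_of_mem (Finset.mem_image_of_mem μ
        (Finset.mem_erase.2 ⟨hi.1, hW1W i hi.2⟩))
    by_cases hf : f ∈ W1
    · by_contra hcon
      push Not at hcon
      have hcc : (W1.erase f).card + 1 = W1.card := Finset.card_erase_add_one hf
      have heq : Y = s.biUnion fun i => Dem O p i.1 ∩ U0 :=
        Finset.eq_of_subset_of_card_le hYsub (by omega)
      set Z2 : Finset J := Z.filter (fun j => j ∈ Y ∨ j ∉ U0) with hZ2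
      have hjY : js ∉ Y := by
        intro h
        obtain ⟨i, hi, hi'⟩ := Finset.mem_image.1 h
        rw [Finset.mem_erase] at hi
        exact hjs i (hW1W i hi.2) hi.1 hi'
      have hjZ2 : js ∉ Z2 := by
        intro h
        rcases (Finset.mem_filter.1 h).2 with h1 | h1
        · exact hjY h1
        · exact h1 (Finset.mem_insert_self _ _)
      have hcl : Closed W O p μ f Z2 := by
        refine ⟨(Finset.filter_subset _ _).trans hZ.1, ?_, ?_⟩
        · intro j hj
          refine Finset.mem_filter.2 ⟨hZ.2.1 hj, ?_⟩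
          by_cases hjU : j ∈ U0
          · left
            rw [heq]
            exact hmemU f hf j hj hjU
          · exact Or.inr hjU
        · intro i hi hif hμ j hj
          rw [hZ2, Finset.mem_filter] at hμ
          refine Finset.mem_filter.2 ⟨hZ.2.2 i hi hif hμ.1 hj, ?_⟩
          have hμU : μ i ∈ U0 := Finset.mem_insert_of_mem (Finset.mem_image_of_mem μ
            (Finset.mem_erase.2 ⟨hif, hi⟩))
          have hμY : μ i ∈ Y := by
            rcases hμ.2 with h | h
            · exact h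
            · exact absurd hμU h
          obtain ⟨i', hi', he⟩ := Finset.mem_image.1 hμY
          rw [Finset.mem_erase] at hi'
          have hii : i' = i := hs.inj i' (hW1W i' hi'.2) hi'.1 i hi hif he
          by_cases hjU : j ∈ U0
          · left
            rw [heq]
            exact hmemU i (hii ▸ hi'.2) j hj hjU
          · exact Or.inr hjU
      have hlt : Z2.card < Z.card :=
        Finset.card_lt_card ⟨Finset.filter_subset _ _, fun h => hjZ2 (h hjZ)⟩
      exact absurd (hmin Z2 hcl) (by omega)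
    · rw [← hW1c, ← Finset.erase_eq_of_notMem hf, ← hYc]
      exact Finset.card_le_card hYsub
  obtain ⟨g, hg1, hg2⟩ := (Finset.all_card_le_biUnion_card_iff_exists_injective
    (fun i : W => Dem O p i.1 ∩ U0)).1 hHall
  set μ' : G → J := fun i => if h : i ∈ W then g ⟨i, h⟩ else js with hμ'
  have hμ'W : ∀ i (h : i ∈ W), μ' i = g ⟨i, h⟩ := fun i h => by
    rw [hμ']
    exact dif_pos h
  have hμ'm : ∀ i ∈ W, μ' i ∈ Dem O p i ∧ μ' i ∈ U0 := by
    intro i hi
    rw [hμ'W i hi]
    exact Finset.mem_inter.1 (hg2 ⟨i, hi⟩)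
  have hinj' : ∀ i ∈ W, ∀ i' ∈ W, μ' i = μ' i' → i = i' := by
    intro i hi i' hi' h
    rw [hμ'W i hi, hμ'W i' hi'] at h
    exact congrArg Subtype.val (hg1 h)
  have himg : W.image μ' = U0 := by
    refine Finset.eq_of_subset_of_card_le ?_ ?_
    · intro j hj
      obtain ⟨i, hi, rfl⟩ := Finset.mem_image.1 hj
      exact (hμ'm i hi).2
    · rw [Finset.card_image_of_injOn (fun i hi i' hi' h => hinj' i hi i' hi' h), hU0c]
  refine ⟨μ', hs.le, ?_, hinj', ?_, ?_, hs.linked⟩
  · intro i hi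
    exact (Finset.mem_filter.1 (hμ'm i hi).1).1
  · intro i hi j hj
    exact (Finset.mem_filter.1 (hμ'm i hi).1).2 j hj
  · intro j hj hne
    refine hs.neat j hj fun i hi hif he => ?_
    have hjU : j ∈ U0 := by
      rw [← he]
      exact Finset.mem_insert_of_mem (Finset.mem_image_of_mem μ (Finset.mem_erase.2 ⟨hif, hi⟩))
    rw [← himg] at hjU
    obtain ⟨i', hi', he'⟩ := Finset.mem_image.1 hjU
    exact hne i' hi' he'

open Classical in
theorem reach {W : Finset G} {O : Finset J} {ρ p : J → G → Γ} {μ : G → J} {f : G}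
    (hO : O.Nonempty) (hs : PState W O ρ p μ f) :
    (∃ μ', Outcome W O ρ p μ') ∨
    ∃ Z, Closed W O p μ f Z ∧ Z.Nonempty ∧ (∀ j ∈ Z, ∃ i ∈ W, i ≠ f ∧ μ i = j) ∧
      (∀ Y ⊆ Z, Y.Nonempty → Y.card + 1 ≤
        (W.filter (fun i => (i = f ∨ μ i ∈ Z) ∧ ∃ j ∈ Y, j ∈ Dem O p i)).card) := by
  obtain ⟨Z, hZ, hmin⟩ := reach_min W O p μ f
  by_cases hcase : ∃ js ∈ Z, ∀ i ∈ W, i ≠ f → μ i ≠ js
  · obtain ⟨js, hjZ, hjs⟩ := hcase
    exact Or.inl (reach_a hs hZ hmin hjZ hjs)
  right
  push Not at hcase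
  refine ⟨Z, hZ, ?_, hcase, ?_⟩
  · obtain ⟨j, hj, hmax⟩ := Finset.exists_max_image O (fun j => p j f) hO
    exact ⟨j, hZ.2.1 (Finset.mem_filter.2 ⟨hj, fun j' hj' => hmax j' hj'⟩)⟩
  · intro Y hYZ hYne
    set B : Finset G := (W.erase f).filter (fun i => μ i ∈ Y) with hB
    have hBc : Y.card ≤ B.card := by
      have h1 : Y ⊆ B.image μ := by
        intro j hj
        obtain ⟨i, hi, hif, he⟩ := hcase j (hYZ hj)
        refine Finset.mem_image.2 ⟨i, Finset.mem_filter.2 ⟨Finset.mem_erase.2 ⟨hif, hi⟩, ?_⟩, he⟩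
        rw [he]
        exact hj
      exact (Finset.card_le_card h1).trans Finset.card_image_le
    set S : Finset G := W.filter (fun i => (i = f ∨ μ i ∈ Z) ∧ ∃ j ∈ Y, j ∈ Dem O p i) with hS
    have hBS : B ⊆ S := by
      intro i hi
      rw [hB, Finset.mem_filter, Finset.mem_erase] at hi
      exact Finset.mem_filter.2 ⟨hi.1.2, Or.inr (hYZ hi.2), μ i, hi.2,
        reach_mem_Dem hs hi.1.2 hi.1.1⟩
    have hnc : ¬ Closed W O p μ f (Z \ Y) := by
      intro h
      have h1 := hmin _ h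
      have h2 : (Z \ Y).card < Z.card := by
        refine Finset.card_lt_card ⟨Finset.sdiff_subset, fun h3 => ?_⟩
        obtain ⟨j, hj⟩ := hYne
        exact (Finset.mem_sdiff.1 (h3 (hYZ hj))).2 hj
      omega
    have hex : ∃ e ∈ S, e ∉ B := by
      by_cases hD : Dem O p f ⊆ Z \ Y
      · have h3 : ¬ ∀ i ∈ W, i ≠ f → μ i ∈ Z \ Y → Dem O p i ⊆ Z \ Y := fun h =>
          hnc ⟨Finset.sdiff_subset.trans hZ.1, hD, h⟩
        push Not at h3
        obtain ⟨i, hi, hif, hμ, hDi⟩ := h3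
        obtain ⟨j, hj, hjn⟩ := Finset.not_subset.1 hDi
        rw [Finset.mem_sdiff] at hμ
        have hjZ : j ∈ Z := hZ.2.2 i hi hif hμ.1 hj
        have hjY : j ∈ Y := by
          by_contra h
          exact hjn (Finset.mem_sdiff.2 ⟨hjZ, h⟩)
        refine ⟨i, Finset.mem_filter.2 ⟨hi, Or.inr hμ.1, j, hjY, hj⟩, fun h => ?_⟩
        exact hμ.2 (Finset.mem_filter.1 h).2
      · obtain ⟨j, hj, hjn⟩ := Finset.not_subset.1 hD
        have hjZ : j ∈ Z := hZ.2.1 hj
        have hjY : j ∈ Y := by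
          by_contra h
          exact hjn (Finset.mem_sdiff.2 ⟨hjZ, h⟩)
        refine ⟨f, Finset.mem_filter.2 ⟨hs.free, Or.inl rfl, j, hjY, hj⟩, fun h => ?_⟩
        exact (Finset.mem_erase.1 (Finset.mem_filter.1 h).1).1 rfl
    obtain ⟨e, heS, heB⟩ := hex
    calc Y.card + 1 ≤ B.card + 1 := by omega
      _ = (insert e B).card := (Finset.card_insert_of_notMem heB).symm
      _ ≤ S.card := Finset.card_le_card (Finset.insert_subset heS hBS)

end H85.Cake
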