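import Pool.Agent.H85.Cake.MOpt
import Pool.Agent.H85.Cake.MReach

/-!
# One price step: the data
-/

namespace H85.Cake

variable {G J Γ : Type} [LinearOrder Γ]

open Classical in
/-- The data of a price step: agents `W'`, items `Z`, current levels `p`, outside options `o`,
marks `M k j` (the point of the chain of `j` where agent `k` is indifferent with his outside
option, or `p j` if he does not like `j` better than the outside option anyway). -/
structure Ctx (W' : Finset G) (Z : Finset J) (p : J → G → Γ) (o : G → Γ) (M : G → J → G → Γ)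
    (K : J → Set (G → Γ)) : Prop where
  card : W'.card = Z.card + 1
  chain : ∀ j, Chain (K j)
  hp : ∀ j ∈ Z, p j ∈ K j
  hM : ∀ k ∈ W', ∀ j ∈ Z, M k j ∈ K j
  low : ∀ k ∈ W', ∀ j ∈ Z, p j k ≤ o k → M k j = p j
  high : ∀ k ∈ W', ∀ j ∈ Z, o k < p j k → M k j k = o k
  crit : ∀ Y ⊆ Z, Y.Nonempty → Y.card + 1 ≤
    (W'.filter (fun i => ∃ j ∈ Y, j ∈ Dem Z p i ∧ o i < p j i)).card

/-- `ρA j` is the lowest of the marks of the agents of `W'` outside `A`. -/
def IsRho (W' : Finset G) (Z : Finset J) (M : G → J → G → Γ) (A : Finset G) (ρA : J → G → Γ) :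
    Prop :=
  ∀ j ∈ Z, (∃ k ∈ W', k ∉ A ∧ ρA j = M k j) ∧ ∀ k ∈ W', k ∉ A → SLe (ρA j) (M k j)

theorem Ctx.mono {W' : Finset G} {Z : Finset J} {p : J → G → Γ} {o : G → Γ}
    {M : G → J → G → Γ} {K K' : J → Set (G → Γ)} (h : Ctx W' Z p o M K)
    (hK : ∀ j, K j ⊆ K' j) (hc : ∀ j, Chain (K' j)) : Ctx W' Z p o M K' :=
  { card := h.card
    chain := hc
    hp := fun j hj => hK j (h.hp j hj)
    hM := fun k hk j hj => hK j (h.hM k hk j hj)
    low := h.low
    high := h.high
    crit := h.crit }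

/-- Marks are below the current level. -/
theorem Ctx.mark_le {W' : Finset G} {Z : Finset J} {p : J → G → Γ} {o : G → Γ}
    {M : G → J → G → Γ} {K : J → Set (G → Γ)} (h : Ctx W' Z p o M K) {k : G} (hk : k ∈ W')
    {j : J} (hj : j ∈ Z) : SLe (M k j) (p j) := by
  rcases le_or_gt (p j k) (o k) with h1 | h1
  · rw [h.low k hk j hj h1]; exact SLe.refl _
  · refine ((h.chain j).slt_of_lt (h.hM k hk j hj) (h.hp j hj) (k := k) ?_).sle
    rw [h.high k hk j hj h1]; exact h1

/-- The value of a mark is at most the outside option. -/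
theorem Ctx.mark_val {W' : Finset G} {Z : Finset J} {p : J → G → Γ} {o : G → Γ}
    {M : G → J → G → Γ} {K : J → Set (G → Γ)} (h : Ctx W' Z p o M K) {k : G} (hk : k ∈ W')
    {j : J} (hj : j ∈ Z) : M k j k ≤ o k := by
  rcases le_or_gt (p j k) (o k) with h1 | h1
  · rw [h.low k hk j hj h1]; exact h1
  · exact (h.high k hk j hj h1).le

end H85.Cake
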