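import Mathlib

/-!
# The mark game: definitions

Agents `G`, items `J`, a linear order `Γ` of utilities.  A point of the chain of an item is the
vector `G → Γ` of its utilities for all agents.  The known points of every item form a chain for
the strict coordinatewise order `SLt`.  A query `(j, i, γ)`, where `γ` is at most the utility for
agent `i` of some known point of item `j`, reveals a point `p` of the chain of `j` with `p i = γ`
(the adversary may reveal more points of any chains).
-/

namespace H85.Cake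

variable {G J Γ : Type} [LinearOrder Γ]

/-- Strictly smaller in every coordinate. -/
def SLt (a b : G → Γ) : Prop := ∀ k, a k < b k

/-- Weakly below in the chain: equal or strictly smaller in every coordinate. -/
def SLe (a b : G → Γ) : Prop := a = b ∨ SLt a b

def Chain (S : Set (G → Γ)) : Prop := ∀ a ∈ S, ∀ b ∈ S, a = b ∨ SLt a b ∨ SLt b a

theorem SLe.refl (a : G → Γ) : SLe a a := Or.inl rfl

theorem SLt.trans {a b c : G → Γ} (h : SLt a b) (h' : SLt b c) : SLt a c :=
  fun k => (h k).trans (h' k)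

theorem SLe.trans {a b c : G → Γ} (h : SLe a b) (h' : SLe b c) : SLe a c := by
  rcases h with rfl | h
  · exact h'
  · rcases h' with rfl | h'
    · exact Or.inr h
    · exact Or.inr (h.trans h')

theorem SLe.le {a b : G → Γ} (h : SLe a b) (k : G) : a k ≤ b k := by
  rcases h with rfl | h
  · exact le_rfl
  · exact (h k).le

theorem SLt.sle {a b : G → Γ} (h : SLt a b) : SLe a b := Or.inr h

theorem SLt.ne [Nonempty G] {a b : G → Γ} (h : SLt a b) : a ≠ b := by
  rintro rfl
  exact lt_irrefl _ (h (Classical.arbitrary G))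

theorem Chain.sle_or {S : Set (G → Γ)} (h : Chain S) {a b : G → Γ} (ha : a ∈ S) (hb : b ∈ S) :
    SLe a b ∨ SLt b a := by
  rcases h a ha b hb with h | h | h
  · exact Or.inl (Or.inl h)
  · exact Or.inl (Or.inr h)
  · exact Or.inr h

/-- In a chain a strict inequality of one coordinate decides. -/
theorem Chain.slt_of_lt {S : Set (G → Γ)} (h : Chain S) {a b : G → Γ} (ha : a ∈ S) (hb : b ∈ S)
    {k : G} (hk : a k < b k) : SLt a b := by
  rcases h a ha b hb with h | h | h
  · subst h; exact absurd hk (lt_irrefl _)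
  · exact h
  · exact absurd hk (not_lt.2 (h k).le)

theorem Chain.sle_of_le {S : Set (G → Γ)} (h : Chain S) {a b : G → Γ} (ha : a ∈ S) (hb : b ∈ S)
    {k : G} (hk : a k ≤ b k) : SLe a b := by
  rcases h.sle_or ha hb with h | h
  · exact h
  · exact absurd hk (not_le.2 (h k))

theorem Chain.eq_of_eq {S : Set (G → Γ)} (h : Chain S) {a b : G → Γ} (ha : a ∈ S) (hb : b ∈ S)
    {k : G} (hk : a k = b k) : a = b := by
  rcases h a ha b hb with h | h | h
  · exact h
  · exact absurd hk (ne_of_lt (h k))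
  · exact absurd hk (ne_of_gt (h k))

theorem Chain.mono {S T : Set (G → Γ)} (h : Chain T) (hST : S ⊆ T) : Chain S :=
  fun a ha b hb => h a (hST ha) b (hST hb)

/-- `MForce P N K`: from the known points `K j` one can force `P` in at most `N` queries. -/
inductive MForce (P : (J → Set (G → Γ)) → Prop) : ℕ → (J → Set (G → Γ)) → Prop
  | done {N : ℕ} {K : J → Set (G → Γ)} (h : P K) : MForce P N K
  | move {N : ℕ} {K : J → Set (G → Γ)} (j : J) (i : G) (q : G → Γ) (hq : q ∈ K j) (γ : Γ)
      (hγ : γ ≤ q i)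
      (h : ∀ K' : J → Set (G → Γ), (∀ j', K j' ⊆ K' j') → (∀ j', Chain (K' j')) →
        (∃ p ∈ K' j, p i = γ) → MForce P N K') : MForce P (N + 1) K

variable {P Q : (J → Set (G → Γ)) → Prop} {N N' : ℕ} {K : J → Set (G → Γ)}

theorem MForce.mono (h : MForce P N K) (hN : N ≤ N') (hPQ : ∀ K, P K → Q K) : MForce Q N' K := by
  induction h generalizing N' with
  | done h => exact .done (hPQ _ h)
  | move j i q hq γ hγ h ih =>
    obtain ⟨m, rfl⟩ : ∃ m, N' = m + 1 := ⟨N' - 1, by omega⟩
    exact .move j i q hq γ hγ (fun K' a b c => ih K' a b c (by omega))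

theorem MForce.bind (h : MForce P N K) (hPQ : ∀ K, P K → MForce Q N' K) :
    MForce Q (N + N') K := by
  induction h with
  | done h => exact (hPQ _ h).mono (by omega) (fun _ h => h)
  | @move n _ j i q hq γ hγ h ih =>
    have : n + 1 + N' = (n + N') + 1 := by omega
    rw [this]
    exact .move j i q hq γ hγ (fun K' a b c => ih K' a b c)

/-- The known points only grow, and stay chains. -/
theorem MForce.inv (h : MForce P N K) (hK : ∀ j, Chain (K j)) :
    MForce (fun K' => P K' ∧ (∀ j, K j ⊆ K' j) ∧ ∀ j, Chain (K' j)) N K := by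
  induction h with
  | done h => exact .done ⟨h, fun _ => subset_rfl, hK⟩
  | move j i q hq γ hγ h ih =>
    refine .move j i q hq γ hγ (fun K' a b c => ?_)
    refine (ih K' a b c b).mono le_rfl ?_
    rintro K'' ⟨h1, h2, h3⟩
    exact ⟨h1, fun j => (a j).trans (h2 j), h3⟩

/-- Bind, with the invariants. -/
theorem MForce.bind_inv (h : MForce P N K) (hK : ∀ j, Chain (K j))
    (hPQ : ∀ K', P K' → (∀ j, K j ⊆ K' j) → (∀ j, Chain (K' j)) → MForce Q N' K') :
    MForce Q (N + N') K :=
  (h.inv hK).bind (fun K' h => hPQ K' h.1 h.2.1 h.2.2)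

open Classical in
/-- The items of `O` which are best for agent `i` at the levels `p`. -/
noncomputable def Dem (O : Finset J) (p : J → G → Γ) (i : G) : Finset J :=
  O.filter (fun j => ∀ j' ∈ O, p j' i ≤ p j i)

open Classical in
/-- The result of the market: agents `W`, items `O`, start levels `ρ`, final levels `p`,
matching `μ`. -/
structure Outcome (W : Finset G) (O : Finset J) (ρ p : J → G → Γ) (μ : G → J) : Prop where
  le : ∀ j ∈ O, SLe (p j) (ρ j)
  mem : ∀ i ∈ W, μ i ∈ O
  inj : ∀ i ∈ W, ∀ i' ∈ W, μ i = μ i' → i = i'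
  ef : ∀ i ∈ W, ∀ j ∈ O, p j i ≤ p (μ i) i
  neat : ∀ j ∈ O, (∀ i ∈ W, μ i ≠ j) → p j = ρ j
  linked : ∀ X ⊆ O, X.Nonempty → (∀ j ∈ X, p j ≠ ρ j) →
    X.card + 1 ≤ (W.filter (fun i => ∃ j ∈ X, j ∈ Dem O p i)).card

open Classical in
/-- An intermediate state of the market: agent `f ∈ W` is free, all the others are matched. -/
structure PState (W : Finset G) (O : Finset J) (ρ p : J → G → Γ) (μ : G → J) (f : G) : Prop where
  free : f ∈ W
  le : ∀ j ∈ O, SLe (p j) (ρ j)
  mem : ∀ i ∈ W, i ≠ f → μ i ∈ O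
  inj : ∀ i ∈ W, i ≠ f → ∀ i' ∈ W, i' ≠ f → μ i = μ i' → i = i'
  ef : ∀ i ∈ W, i ≠ f → ∀ j ∈ O, p j i ≤ p (μ i) i
  neat : ∀ j ∈ O, (∀ i ∈ W, i ≠ f → μ i ≠ j) → p j = ρ j
  linked : ∀ X ⊆ O, X.Nonempty → (∀ j ∈ X, p j ≠ ρ j) →
    X.card + 1 ≤ (W.filter (fun i => ∃ j ∈ X, j ∈ Dem O p i)).card

/-- `Z` is closed under alternating ties from the free agent `f`. -/
def Closed (W : Finset G) (O : Finset J) (p : J → G → Γ) (μ : G → J) (f : G) (Z : Finset J) :
    Prop :=
  Z ⊆ O ∧ Dem O p f ⊆ Z ∧ ∀ i ∈ W, i ≠ f → μ i ∈ Z → Dem O p i ⊆ Z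

end H85.Cake
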