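import Pool.Agent.H85.Cake.MG

/-!
# Optimality of market outcomes   (JOB CAKE-MOPT)

`Outcome.optimal`: an outcome `(p, μ)` (neat, linked) is best for all agents among all envy-free
`(p', μ')` below the start levels `ρ`.

PROOF.  Let `B = {j ∈ O | SLt (p j) (p' j)}`.  Suppose `B` is nonempty.  For `j ∈ B`:
`p j ≠ ρ j` (since `SLt (p j) (p' j)`, `SLe (p' j) (ρ j)`: `p j k < p' j k ≤ ρ j k`, a coordinate
`k` exists by `[Nonempty G]`), so by `neat` some agent of `W` has `μ i = j`; let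
`WB = {i ∈ W | μ i ∈ B}`, so `WB.card = B.card` (`μ` injective on `W`, onto `B`).
For `i ∈ WB`: `p (μ i) i < p' (μ i) i ≤ p' (μ' i) i`; if `μ' i ∉ B` then
`p' (μ' i) i ≤ p (μ' i) i ≤ p (μ i) i` (by `hch`, not `SLt (p _) (p' _)` means `SLe (p' _) (p _)`),
contradiction; so `μ' i ∈ B`: `μ'` maps `WB` injectively into `B`, so onto `B` (cardinality), and
no `i ∈ W ∖ WB` has `μ' i ∈ B`.  By `linked` for `X = B` there is
`i ∈ W ∖ WB` with some `j ∈ B ∩ Dem O p i` (the filter has ≥ `B.card + 1 > WB.card` elements).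
Then `p' (μ' i) i ≥ p' j i > p j i ≥ p (μ i) i` (as `j ∈ Dem`), while `μ' i ∉ B` gives
`p' (μ' i) i ≤ p (μ' i) i ≤ p (μ i) i`: contradiction.
So `B = ∅`, i.e. `SLe (p' j) (p j)` for all `j ∈ O`, and
`p' (μ' i) i ≤ p (μ' i) i ≤ p (μ i) i` for `i ∈ W`.
-/

namespace H85.Cake

variable {G J Γ : Type} [LinearOrder Γ]

theorem Outcome.optimal [Nonempty G] {W : Finset G} {O : Finset J} {ρ p p' : J → G → Γ}
    {μ μ' : G → J} (h : Outcome W O ρ p μ)
    (hch : ∀ j ∈ O, p' j = p j ∨ SLt (p' j) (p j) ∨ SLt (p j) (p' j))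
    (hρ : ∀ j ∈ O, SLe (p' j) (ρ j)) (hm : ∀ i ∈ W, μ' i ∈ O)
    (hi : ∀ i ∈ W, ∀ i' ∈ W, μ' i = μ' i' → i = i')
    (hef : ∀ i ∈ W, ∀ j ∈ O, p' j i ≤ p' (μ' i) i) :
    (∀ j ∈ O, SLe (p' j) (p j)) ∧ ∀ i ∈ W, p' (μ' i) i ≤ p (μ i) i := by
  classical
  set B : Finset J := O.filter (fun j => SLt (p j) (p' j)) with hBdef
  have hBO : B ⊆ O := Finset.filter_subset _ _
  have hnot : ∀ j ∈ O, j ∉ B → SLe (p' j) (p j) := by
    intro j hj hjB
    rcases hch j hj with h1 | h1 | h1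
    · exact Or.inl h1
    · exact Or.inr h1
    · exact (hjB (Finset.mem_filter.2 ⟨hj, h1⟩)).elim
  suffices hB : B = ∅ by
    have hall : ∀ j ∈ O, SLe (p' j) (p j) := fun j hj => hnot j hj (by rw [hB]; exact Finset.notMem_empty _)
    refine ⟨hall, fun i hiW => ?_⟩
    exact ((hall _ (hm i hiW)).le i).trans (h.ef i hiW _ (hm i hiW))
  by_contra hne
  have hBne : B.Nonempty := Finset.nonempty_iff_ne_empty.2 hne
  have hlt : ∀ j ∈ B, SLt (p j) (p' j) := fun j hj => (Finset.mem_filter.1 hj).2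
  have hρB : ∀ j ∈ B, p j ≠ ρ j := by
    intro j hj heq
    have h1 := hlt j hj (Classical.arbitrary G)
    have h2 := (hρ j (hBO hj)).le (Classical.arbitrary G)
    rw [heq] at h1
    exact absurd h1 (not_lt.2 h2)
  set WB : Finset G := W.filter (fun i => μ i ∈ B) with hWB
  have hWBW : WB ⊆ W := Finset.filter_subset _ _
  have himg : B ⊆ WB.image μ := by
    intro j hj
    by_contra hj2
    refine hρB j hj (h.neat j (hBO hj) fun i hiW heq => hj2 ?_)
    exact Finset.mem_image.2 ⟨i, Finset.mem_filter.2 ⟨hiW, by rw [heq]; exact hj⟩, heq⟩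
  have hcard1 : B.card ≤ WB.card := (Finset.card_le_card himg).trans Finset.card_image_le
  have hcard2 : WB.card ≤ B.card := by
    refine Finset.card_le_card_of_injOn μ (fun i hi' => (Finset.mem_filter.1 hi').2) ?_
    intro i hi1 i' hi2 heq
    exact h.inj i (hWBW hi1) i' (hWBW hi2) heq
  have hμ' : ∀ i ∈ WB, μ' i ∈ B := by
    intro i hiB
    by_contra hcon
    have hiW := hWBW hiB
    have hμB : μ i ∈ B := (Finset.mem_filter.1 hiB).2
    have h1 := hlt _ hμB i
    have h2 := hef i hiW _ (hBO hμB)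
    have h3 := (hnot _ (hm i hiW) hcon).le i
    have h4 := h.ef i hiW _ (hm i hiW)
    exact absurd (h1.trans_le (h2.trans (h3.trans h4))) (lt_irrefl _)
  have himg' : WB.image μ' = B := by
    refine Finset.eq_of_subset_of_card_le ?_ ?_
    · intro j hj
      obtain ⟨i, hi1, rfl⟩ := Finset.mem_image.1 hj
      exact hμ' i hi1
    · rw [Finset.card_image_of_injOn]
      · exact hcard1
      · intro i hi1 i' hi2 heq
        exact hi i (hWBW hi1) i' (hWBW hi2) heq
  have hout : ∀ i ∈ W, i ∉ WB → μ' i ∉ B := by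
    intro i hiW hiB hcon
    rw [← himg'] at hcon
    obtain ⟨i', hi', heq⟩ := Finset.mem_image.1 hcon
    have := hi i' (hWBW hi') i hiW heq
    exact hiB (this ▸ hi')
  have hlink := h.linked B hBO hBne hρB
  have hex : ∃ i ∈ W.filter (fun i => ∃ j ∈ B, j ∈ Dem O p i), i ∉ WB := by
    by_contra hcon
    push Not at hcon
    have h1 := Finset.card_le_card (show W.filter (fun i => ∃ j ∈ B, j ∈ Dem O p i) ⊆ WB from hcon)
    omega
  obtain ⟨i, hi1, hi2⟩ := hex
  obtain ⟨hiW, j, hjB, hjD⟩ := Finset.mem_filter.1 hi1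
  have hjD' := (Finset.mem_filter.1 hjD).2 _ (h.mem i hiW)
  have h1 := hef i hiW j (hBO hjB)
  have h2 := hlt j hjB i
  have h3 := (hnot _ (hm i hiW) (hout i hiW hi2)).le i
  have h4 := h.ef i hiW _ (hm i hiW)
  exact absurd ((hjD'.trans_lt h2).trans_le (h1.trans (h3.trans h4))) (lt_irrefl _)

end H85.Cake
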