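import Pool.Agent.H85.Cake.MCtx

/-!
# Price steps: all items are lowered, growing the set of agents   (JOB CAKE-MSTRICT)

`Ctx.strict`.  Let `(q, ν)` be an outcome for agents `A ⊆ W'` on `Z` with start levels `ρA`.
Then `SLt (q j) (p j)` for all `j ∈ Z`.
PROOF.  `SLe (q j) (ρA j)` (`hout.le`), `SLe (ρA j) (M k j)` for every `k ∈ W' ∖ A`, and
`SLe (M k j) (p j)` (`mark_le`); there is such a `k` (`(hρ j hj).1`); so `SLe (q j) (p j)`.
Let `Y = {j ∈ Z | q j = p j}` and suppose it is nonempty.  Let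
`Q = {i ∈ W' | ∃ j ∈ Y, j ∈ Dem Z p i ∧ o i < p j i}`; `Q.card ≥ Y.card + 1` (`crit`).
If `i ∈ Q` (with `j`) is not in `A`: `M i j i = o i < p j i` (`high`), and
`q j i ≤ ρA j i ≤ M i j i < p j i`, contradicting `q j = p j`.  So `Q ⊆ A`.  For `i ∈ Q`:
`q (ν i) i ≥ q j i = p j i ≥ p (ν i) i ≥ q (ν i) i` (`ef`; `j ∈ Dem Z p i`; `SLe (q _) (p _)`),
so `q (ν i) i = p (ν i) i`, hence `q (ν i) = p (ν i)` (`Chain.eq_of_eq`), i.e. `ν i ∈ Y`.  So `ν` maps
`Q` injectively into `Y`: `Q.card ≤ Y.card`, contradiction.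

`Ctx.pick`: if `j ∈ Z` is not matched by `ν` then there is `k ∈ W' ∖ A` with `M k j = ρA j` and
`M k j k = o k`.  PROOF: `k` from `(hρ j hj).1`; `q j = ρA j` (`neat`), `SLt (q j) (p j)`
(`strict`), so `M k j ≠ p j` (a coordinate exists: `SLt.ne`), so not `p j k ≤ o k` (`low`), so
`high` applies.

`Ctx.grow`: keep the utilities at least `o` when `k` is added.  PROOF: let `μ'' i = j0` if `i = k`,
else `ν i`.  `(q, μ'')` is envy-free for `insert k A`: for `i ∈ A` by `hout.ef`; for `k`: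
`q j' k ≤ ρA j' k ≤ M k j' k ≤ o k` (`mark_val`) and `q j0 k = ρA j0 k = M k j0 k = o k`
(`neat` for the unmatched `j0`).  Injective since `j0` is unmatched.  `SLe (q j') (ρA' j')`:
`ρA' j' = M k' j'` for some `k' ∈ W'`, `k' ∉ insert k A`, and `SLe (q j') (ρA j')`,
`SLe (ρA j') (M k' j')`.  Apply `Outcome.optimal` to `hout'` with `p' = q`, `μ' = μ''` (`hch` from
the chain property): `q (μ'' i) i ≤ q' (ν' i) i`.
-/

namespace H85.Cake

variable {G J Γ : Type} [LinearOrder Γ]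

theorem Ctx.strict [Nonempty G] {W' : Finset G} {Z : Finset J} {p : J → G → Γ} {o : G → Γ}
    {M : G → J → G → Γ} {K : J → Set (G → Γ)} (h : Ctx W' Z p o M K) {A : Finset G}
    (hA : A ⊆ W') {ρA q : J → G → Γ} {ν : G → J} (hρ : IsRho W' Z M A ρA)
    (hq : ∀ j ∈ Z, q j ∈ K j) (hout : Outcome A Z ρA q ν) : ∀ j ∈ Z, SLt (q j) (p j) := by
  classical
  have hqρ : ∀ j ∈ Z, ∀ k ∈ W', k ∉ A → SLe (q j) (M k j) := fun j hj k hk hkA =>
    (hout.le j hj).trans ((hρ j hj).2 k hk hkA)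
  have hqp : ∀ j ∈ Z, SLe (q j) (p j) := by
    intro j hj
    obtain ⟨k, hk, hkA, -⟩ := (hρ j hj).1
    exact (hqρ j hj k hk hkA).trans (h.mark_le hk hj)
  by_contra hcon
  push Not at hcon
  have hYne : (Z.filter (fun j => q j = p j)).Nonempty := by
    obtain ⟨j, hj, hnot⟩ := hcon
    exact ⟨j, Finset.mem_filter.mpr ⟨hj, (hqp j hj).resolve_right hnot⟩⟩
  have hYZ : Z.filter (fun j => q j = p j) ⊆ Z := Finset.filter_subset _ _
  have hc := h.crit _ hYZ hYne
  have hQA : ∀ i ∈ W'.filter (fun i => ∃ j ∈ Z.filter (fun j => q j = p j),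
      j ∈ Dem Z p i ∧ o i < p j i), i ∈ A := by
    intro i hi
    obtain ⟨hiW, j, hjY, hjD, hjo⟩ := Finset.mem_filter.mp hi
    by_contra hiA
    obtain ⟨hjZ, hjq⟩ := Finset.mem_filter.mp hjY
    have h1 : q j i ≤ M i j i := (hqρ j hjZ i hiW hiA).le i
    rw [h.high i hiW j hjZ hjo, hjq] at h1
    exact absurd hjo (not_lt.2 h1)
  have hQν : ∀ i ∈ W'.filter (fun i => ∃ j ∈ Z.filter (fun j => q j = p j),
      j ∈ Dem Z p i ∧ o i < p j i), ν i ∈ Z.filter (fun j => q j = p j) := by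
    intro i hi
    obtain ⟨hiW, j, hjY, hjD, hjo⟩ := Finset.mem_filter.mp hi
    obtain ⟨hjZ, hjq⟩ := Finset.mem_filter.mp hjY
    have hiA := hQA i hi
    have hνZ := hout.mem i hiA
    have h1 : q j i ≤ q (ν i) i := hout.ef i hiA j hjZ
    have h2 : p (ν i) i ≤ p j i := (Finset.mem_filter.mp hjD).2 (ν i) hνZ
    have h3 : q (ν i) i ≤ p (ν i) i := (hqp _ hνZ).le i
    rw [hjq] at h1
    have h4 : q (ν i) i = p (ν i) i := le_antisymm h3 (h2.trans h1)
    exact Finset.mem_filter.mpr ⟨hνZ, (h.chain _).eq_of_eq (hq _ hνZ) (h.hp _ hνZ) h4⟩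
  have hcard := Finset.card_le_card_of_injOn ν hQν
    (fun i hi i' hi' he => hout.inj i (hQA i hi) i' (hQA i' hi') he)
  omega

theorem Ctx.pick [Nonempty G] {W' : Finset G} {Z : Finset J} {p : J → G → Γ} {o : G → Γ}
    {M : G → J → G → Γ} {K : J → Set (G → Γ)} (h : Ctx W' Z p o M K) {A : Finset G}
    (hA : A ⊆ W') {ρA q : J → G → Γ} {ν : G → J} (hρ : IsRho W' Z M A ρA)
    (hq : ∀ j ∈ Z, q j ∈ K j) (hout : Outcome A Z ρA q ν) {j : J} (hj : j ∈ Z)
    (hun : ∀ i ∈ A, ν i ≠ j) : ∃ k ∈ W', k ∉ A ∧ M k j = ρA j ∧ M k j k = o k := by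
  obtain ⟨k, hk, hkA, e⟩ := (hρ j hj).1
  refine ⟨k, hk, hkA, e.symm, ?_⟩
  have h1 : q j = ρA j := hout.neat j hj hun
  have h2 : SLt (q j) (p j) := h.strict hA hρ hq hout j hj
  have h3 : M k j ≠ p j := by
    rw [← e, ← h1]
    exact h2.ne
  refine h.high k hk j hj (not_le.1 fun hle => h3 (h.low k hk j hj hle))

open Classical in
theorem Ctx.grow [Nonempty G] {W' : Finset G} {Z : Finset J} {p : J → G → Γ} {o : G → Γ}
    {M : G → J → G → Γ} {K : J → Set (G → Γ)} (h : Ctx W' Z p o M K) {A : Finset G}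
    (hA : A ⊆ W') {ρA q : J → G → Γ} {ν : G → J} (hρ : IsRho W' Z M A ρA)
    (hq : ∀ j ∈ Z, q j ∈ K j) (hout : Outcome A Z ρA q ν) (ho : ∀ i ∈ A, o i ≤ q (ν i) i)
    {j0 : J} (hj : j0 ∈ Z) (hun : ∀ i ∈ A, ν i ≠ j0) {k : G} (hk : k ∈ W') (hkA : k ∉ A)
    (hk1 : M k j0 = ρA j0) (hk2 : M k j0 k = o k) {ρA' q' : J → G → Γ} {ν' : G → J}
    (hρ' : IsRho W' Z M (insert k A) ρA') (hq' : ∀ j ∈ Z, q' j ∈ K j)
    (hout' : Outcome (insert k A) Z ρA' q' ν') : ∀ i ∈ insert k A, o i ≤ q' (ν' i) i := by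
  have hq0 : q j0 = ρA j0 := hout.neat j0 hj hun
  have hok : q j0 k = o k := by rw [hq0, ← hk1, hk2]
  have hAk : ∀ i ∈ A, i ≠ k := fun i hi he => hkA (he ▸ hi)
  have key := hout'.optimal (p' := q) (μ' := fun i => if i = k then j0 else ν i)
    (fun j hj' => h.chain j (q j) (hq j hj') (q' j) (hq' j hj'))
    (by
      intro j hj'
      obtain ⟨k', hk', hk'A, e⟩ := (hρ' j hj').1
      rw [e]
      exact (hout.le j hj').trans
        ((hρ j hj').2 k' hk' (fun hcon => hk'A (Finset.mem_insert_of_mem hcon))))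
    (by
      intro i hi
      rcases Finset.mem_insert.mp hi with rfl | hi
      · simpa using hj
      · simpa [hAk i hi] using hout.mem i hi)
    (by
      intro i hi i' hi' he
      rcases Finset.mem_insert.mp hi with hik | hiA
      · rcases Finset.mem_insert.mp hi' with hik' | hiA'
        · rw [hik, hik']
        · exfalso
          simp only [hik, if_true, hAk i' hiA', if_false] at he
          exact hun i' hiA' he.symm
      · rcases Finset.mem_insert.mp hi' with hik' | hiA'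
        · exfalso
          simp only [hik', if_true, hAk i hiA, if_false] at he
          exact hun i hiA he
        · simp only [hAk i hiA, hAk i' hiA', if_false] at he
          exact hout.inj i hiA i' hiA' he)
    (by
      intro i hi j hj'
      rcases Finset.mem_insert.mp hi with rfl | hi
      · simp only [if_true]
        rw [hok]
        exact ((hout.le j hj').le i).trans
          ((((hρ j hj').2 i hk hkA).le i).trans (h.mark_val hk hj'))
      · simp only [hAk i hi, if_false]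
        exact hout.ef i hi j hj')
  intro i hi
  refine le_trans ?_ (key.2 i hi)
  rcases Finset.mem_insert.mp hi with rfl | hi
  · simp only [if_true]
    exact hok.ge
  · simp only [hAk i hi, if_false]
    exact ho i hi

end H85.Cake
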