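import Pool.Agent.H85.Cake.MCtx

/-!
# The market theorem   (proved in `MMarket.lean`; this file only isolates the statement)
-/

namespace H85.Cake

/-- The market can be solved with `T m` queries for `m` agents. -/
def MarketStatement (T : ℕ → ℕ) : Prop :=
  ∀ (G J Γ : Type) [LinearOrder Γ] [Nonempty G] [Nonempty J] (W : Finset G) (O : Finset J)
    (ρ : J → G → Γ) (K : J → Set (G → Γ)), (∀ j, Chain (K j)) → (∀ j ∈ O, ρ j ∈ K j) →
    W.card ≤ O.card →
    MForce (fun K' => ∃ (p : J → G → Γ) (μ : G → J), (∀ j ∈ O, p j ∈ K' j) ∧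
      Outcome W O ρ p μ) (T W.card) K

end H85.Cake
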