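import Mathlib

/-!
# Envy-free cake cutting: pieces, valuations, the Robertson–Webb query model (MP_e48dc1_lc)

* `IsPiece X`: `X` is a finite union of subintervals of `[0,1]` (any kind of intervals).
* `IsValuation V`: nonnegative, additive on disjoint pieces, divisible.
* `Proto n`: decision trees with CUT and EVAL queries and allocations at the leaves.
-/

namespace H85.Cake

open Set

/-- A piece: a finite union of subintervals of `[0,1]`. -/
def IsPiece (X : Set ℝ) : Prop :=
  ∃ (m : ℕ) (I : Fin m → Set ℝ), (∀ a, (I a).OrdConnected ∧ I a ⊆ Icc (0:ℝ) 1) ∧ X = ⋃ a, I a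

/-- A valuation: nonnegative, additive, divisible. -/
structure IsValuation (V : Set ℝ → ℝ) : Prop where
  nonneg : ∀ X, IsPiece X → 0 ≤ V X
  add : ∀ X Y, IsPiece X → IsPiece Y → Disjoint X Y → V (X ∪ Y) = V X + V Y
  divisible : ∀ X, IsPiece X → ∀ l ∈ Icc (0:ℝ) 1, ∃ Y, IsPiece Y ∧ Y ⊆ X ∧ V Y = l * V X

/-- An allocation: a partition of the cake `[0,1]` into disjoint pieces, one for each agent. -/
def IsAllocation {n : ℕ} (A : Fin n → Set ℝ) : Prop :=
  (∀ i, IsPiece (A i)) ∧ (∀ i j, i ≠ j → Disjoint (A i) (A j)) ∧ (⋃ i, A i) = Icc (0:ℝ) 1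

/-- A discrete protocol for `n` agents: a decision tree.  `cut i x r next` asks agent `i` for a
`y ∈ [0,1]` with `V_i([x,y]) = r`, `eval i x y next` asks for `V_i([x,y])`; the protocol goes on
with `next answer`, whatever real number the answer is; a leaf outputs an allocation. -/
inductive Proto (n : ℕ) : Type
  | leaf (A : Fin n → Set ℝ) : Proto n
  | cut (i : Fin n) (x r : ℝ) (next : ℝ → Proto n) : Proto n
  | eval (i : Fin n) (x y : ℝ) (next : ℝ → Proto n) : Proto n

namespace Proto

variable {n : ℕ}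

/-- Queries are legal and every leaf outputs an allocation. -/
def Legal : Proto n → Prop
  | leaf A => IsAllocation A
  | cut _ x r next => x ∈ Icc (0:ℝ) 1 ∧ 0 ≤ r ∧ ∀ y, (next y).Legal
  | eval _ x y next => x ∈ Icc (0:ℝ) 1 ∧ y ∈ Icc (0:ℝ) 1 ∧ ∀ v, (next v).Legal

/-- The protocol makes at most `q` queries, whatever the answers are. -/
def Within : Proto n → ℕ → Prop
  | leaf _, _ => True
  | cut _ _ _ next, q => ∃ q', q = q' + 1 ∧ ∀ y, (next y).Within q'
  | eval _ _ _ next, q => ∃ q', q = q' + 1 ∧ ∀ v, (next v).Within q'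

/-- Agent `i` with valuation `V` who answers truthfully (with any truthful answer) can always
answer, and is not envious in the output, whatever the other agents answer. -/
def NoEnvy (i : Fin n) (V : Set ℝ → ℝ) : Proto n → Prop
  | leaf A => ∀ j, V (A j) ≤ V (A i)
  | cut k x r next =>
      (k = i → ∃ y ∈ Icc (0:ℝ) 1, V (Icc x y) = r) ∧
      ∀ y, (k = i → y ∈ Icc (0:ℝ) 1 ∧ V (Icc x y) = r) → (next y).NoEnvy i V
  | eval k x y next => ∀ v, (k = i → v = V (Icc x y)) → (next v).NoEnvy i V

/-- A protocol is envy-free: every agent who answers truthfully is never envious. -/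
def EnvyFree (P : Proto n) : Prop :=
  P.Legal ∧ ∀ (i : Fin n) (V : Set ℝ → ℝ), IsValuation V → P.NoEnvy i V

end Proto

end H85.Cake
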