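import Pool.Agent.H85.Cake.EvalAll
import Pool.Agent.H85.Cake.CutEx

/-!
# One move of the split game as queries   (JOB CAKE-MOVEP)

`moveProto`: an atom is an interval `[a,b]` with recorded values `v`; the strategy wants agent `i`
to split it at value `r`.  `F` gives a protocol for every possible result `(y, v')`.
`C k V` is an arbitrary extra condition (all the rest that is known about agent `k`).

PROOF.  Case `r = 0`: use `F a 0` without any query (`V (Icc a a) = 0` by `val_singleton`,
`V (Icc a b) = v k = v k - 0`).  Case `r = v i`: use `F b v` without any query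
(`V (Icc b b) = 0 = v k - v k`).  (`Within` is monotone in the number: prove that first, by
induction on the protocol.)
Case `0 < r < v i`: `P = cut i a r (fun y => P₁ (clamp y))` where `clamp y = max a (min y b)` and
`P₁ y` is the protocol of `evalAll` for the interval `[a,y]` and the continuations
`f w = ` the protocol given by `F y v'` with `v' k = max 0 (min (w k) (v k))` for `k ≠ i` and
`v' i = r` (choose protocols with `Classical.choose`).
NoEnvy for a truthful agent `k` with valuation `V`, `V (Icc a b) = v k`, `C k V`: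
- `k = i`: the cut is answerable by `cut_exists` (`0 ≤ r ≤ v i = V (Icc a b)`).  If `y ∈ [0,1]`
  and `V (Icc a y) = r` then `a ≤ y` (else `Icc a y = ∅`, `val_empty`, `r = 0`) and `y ≤ b`
  (else `V (Icc a y) ≥ V (Icc a b) = v i > r` by `val_Icc_add` and nonneg), so `clamp y = y`,
  `V (Icc a y) = r = v' i` and `V (Icc y b) = v i - r` by `val_Icc_add`.
- `k ≠ i`: `clamp y ∈ [a,b]` whatever `y` is; the answer `w k = V (Icc a y')` is in `[0, v k]`
  by nonneg and `val_Icc_add`, so `v' k = V (Icc a y')` and `V (Icc y' b) = v k - v' k`.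
-/

namespace H85.Cake

open Set

theorem Proto.Within.mono {n : ℕ} {P : Proto n} {q q' : ℕ} (h : P.Within q) (hq : q ≤ q') :
    P.Within q' := by
  induction P generalizing q q' with
  | leaf A => trivial
  | cut i x r next ih =>
    obtain ⟨m, rfl, hm⟩ := h
    exact ⟨q' - 1, by omega, fun y => ih y (hm y) (by omega)⟩
  | eval i x r next ih =>
    obtain ⟨m, rfl, hm⟩ := h
    exact ⟨q' - 1, by omega, fun y => ih y (hm y) (by omega)⟩

theorem moveProto {n : ℕ} {a b : ℝ} (ha : 0 ≤ a) (hab : a ≤ b) (hb : b ≤ 1) (v : Fin n → ℝ)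
    (hv : 0 ≤ v) (i : Fin n) (r : ℝ) (h0 : 0 ≤ r) (h1 : r ≤ v i) (q : ℕ)
    (C : Fin n → (Set ℝ → ℝ) → Prop)
    (F : ∀ (y : ℝ) (v' : Fin n → ℝ), a ≤ y → y ≤ b → 0 ≤ v' → v' ≤ v → v' i = r →
      ∃ P : Proto n, P.Legal ∧ P.Within q ∧ ∀ (k : Fin n) (V : Set ℝ → ℝ), IsValuation V →
        V (Icc a y) = v' k → V (Icc y b) = v k - v' k → C k V → P.NoEnvy k V) :
    ∃ P : Proto n, P.Legal ∧ P.Within (q + n + 1) ∧ ∀ (k : Fin n) (V : Set ℝ → ℝ),
      IsValuation V → V (Icc a b) = v k → C k V → P.NoEnvy k V := by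
  have hnn : ∀ (V : Set ℝ → ℝ), IsValuation V → ∀ c d : ℝ, 0 ≤ c → d ≤ 1 → 0 ≤ V (Icc c d) :=
    fun V hV c d hc hd => hV.nonneg _ (isPiece_ordConnected ordConnected_Icc
      (Icc_subset_Icc hc hd))
  rcases h0.eq_or_lt with hr | hr
  · obtain ⟨P, hL, hW, hN⟩ := F a 0 le_rfl hab le_rfl hv hr
    refine ⟨P, hL, hW.mono (by omega), fun k V hV h2 h3 => hN k V hV ?_ ?_ h3⟩
    · rw [Icc_self, val_singleton hV ⟨ha, hab.trans hb⟩]
      rfl
    · rw [h2]
      simp
  rcases h1.eq_or_lt with hr1 | hr1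
  · obtain ⟨P, hL, hW, hN⟩ := F b v hab le_rfl hv le_rfl hr1.symm
    refine ⟨P, hL, hW.mono (by omega), fun k V hV h2 h3 => hN k V hV h2 ?_ h3⟩
    rw [Icc_self, val_singleton hV ⟨ha.trans hab, hb⟩]
    simp
  set cl : ℝ → ℝ := fun y => max a (min y b) with hcl
  have hcl1 : ∀ y, a ≤ cl y := fun y => le_max_left _ _
  have hcl2 : ∀ y, cl y ≤ b := fun y => max_le hab (min_le_right _ _)
  set v' : (Fin n → ℝ) → Fin n → ℝ := fun w k => if k = i then r else max 0 (min (w k) (v k))
    with hv'
  have hv'0 : ∀ w, 0 ≤ v' w := by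
    intro w k
    simp only [hv', Pi.zero_apply]
    split_ifs with hk
    · exact h0
    · exact le_max_left _ _
  have hv'1 : ∀ w, v' w ≤ v := by
    intro w k
    simp only [hv']
    split_ifs with hk
    · rw [hk]; exact h1
    · exact max_le (hv k) (min_le_right _ _)
  have hv'i : ∀ w, v' w i = r := fun w => if_pos rfl
  choose f hfL hfW hfN using fun (y : ℝ) (w : Fin n → ℝ) =>
    F (cl y) (v' w) (hcl1 y) (hcl2 y) (hv'0 w) (hv'1 w) (hv'i w)
  have hcl01 : ∀ y, cl y ∈ Icc (0 : ℝ) 1 := fun y => ⟨ha.trans (hcl1 y), (hcl2 y).trans hb⟩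
  choose P hPL hPW hPN using fun y : ℝ =>
    evalAll (x := a) (y := cl y) ⟨ha, hab.trans hb⟩ (hcl01 y) (f y) q (hfL y) (hfW y)
  refine ⟨Proto.cut i a r P, ⟨⟨ha, hab.trans hb⟩, h0, hPL⟩,
    ⟨q + n, rfl, fun y => (hPW y).mono (by omega)⟩, ?_⟩
  intro k V hV hVab hC
  refine ⟨?_, ?_⟩
  · intro hik
    subst hik
    obtain ⟨y, hy, hyV⟩ := cut_exists hV ha hab hb h0 (by rw [hVab]; exact h1)
    exact ⟨y, ⟨ha.trans hy.1, hy.2.trans hb⟩, hyV⟩
  · intro y hy
    refine hPN y k V fun w hw => ?_
    have key : V (Icc a (cl y)) = v' w k := by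
      by_cases hk : i = k
      · subst hk
        obtain ⟨hy01, hyr⟩ := hy rfl
        have hay : a ≤ y := by
          by_contra hlt
          rw [Icc_eq_empty hlt, val_empty hV] at hyr
          linarith
        have hyb : y ≤ b := by
          by_contra hlt
          push Not at hlt
          have h3 := val_Icc_add hV ha hab hlt.le hy01.2
          have h4 := hnn V hV b y (ha.trans hab) hy01.2
          rw [hyr, hVab] at h3
          linarith
        have hc : cl y = y := by
          simp only [hcl]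
          rw [min_eq_left hyb, max_eq_right hay]
        rw [hc, hyr, hv'i]
      · have h3 := val_Icc_add hV ha (hcl1 y) (hcl2 y) hb
        have h4 := hnn V hV a (cl y) ha (hcl01 y).2
        have h5 := hnn V hV (cl y) b (hcl01 y).1 hb
        rw [hVab] at h3
        simp only [hv']
        rw [if_neg (fun h => hk h.symm), hw, min_eq_left (by linarith), max_eq_right h4]
    refine hfN y w k V hV key ?_ hC
    have h3 := val_Icc_add hV ha (hcl1 y) (hcl2 y) hb
    rw [hVab, key] at h3
    linarith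

end H85.Cake
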