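import Pool.Agent.H85.Cake.Compl
import Pool.Agent.H85.Cake.Core
import Pool.Agent.H85.Cake.Fix
import Pool.Agent.H85.Cake.Select

/-!
# One phase: the number of dominations grows

`Dset β r`: pairs `k ≠ b` such that agent `k` would not envy bundle `b` even with the whole residual.
-/

namespace H85.Cake

variable {G : Type}

open Classical in
/-- The dominations. -/
noncomputable def Dset [Fintype G] (β : G → G → ℝ) (r : G → ℝ) : Finset (G × G) :=
  Finset.univ.filter (fun x => x.1 ≠ x.2 ∧ r x.1 ≤ β x.1 x.1 - β x.2 x.1)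

/-- The bound for the exponents. -/
def emax (n : ℕ) : ℕ := n + (2 * n + 4) * (n ^ 2 + 1)

/-- Cost of `shrink` with `t = emax`. -/
def shrinkCost (T : ℕ → ℕ) (n : ℕ) : ℕ := n * (n * emax n * (n + T n))

/-- Cost of `fix` with `e ≤ emax`. -/
def fixCost (T : ℕ → ℕ) (n : ℕ) : ℕ :=
  (emax n + 2 ^ Nat.clog 2 (n * n)) * (n * (n * (8 * n * emax n) ^ 2)) + T n

/-- Cost of a phase. -/
def phaseCost (T : ℕ → ℕ) (n : ℕ) : ℕ := (n + T n) + (fixCost T n + shrinkCost T n)

/-- The result of a phase for the bundles `β` and a residual with values `r`: new bundles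
`β' k = β (τ k) + y k`, envy-free, with more dominations. -/
def PhaseOut [Fintype G] (β : G → G → ℝ) (r : G → ℝ) (M' : Multiset (G → ℝ)) : Prop :=
  ∃ (τ : Equiv.Perm G) (y : G → Multiset (G → ℝ)) (R' : Multiset (G → ℝ)),
    M' = ∑ k, y k + R' ∧
    (∀ k l, β (τ l) k + (y l).sum k ≤ β (τ k) k + (y k).sum k) ∧
    (Dset β r).card + 1 ≤ (Dset (fun k a => β (τ k) a + (y k).sum a) (fun a => R'.sum a)).card

end H85.Cake
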