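import Pool.Agent.H85.Cake.Phase

/-!
# First case of a phase   (JOB CAKE-PHA)

`phaseA`: after a core step (parts `x k`, residual `R1`), some pair `k0 ≠ l0` that was not a domination
has now gap at least `z * R1.sum k0`, `z ≥ 2^{-t}`, `t = emax`; then shrinking makes it a
domination and keeps all old ones.

PROOF.  `shrink hT (emax n)` for `R1` gives `x' k`, `R'` with `R'.sum k ≤ R1.sum k / 2^t`; use
`Force.mono_inv` (atoms nonnegative, total value preserved, so also `R'.sum k ≤ R1.sum k`).  Take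
`τ = 1`, `y k = x k + x' k` — but note that the position is only `R1`; the parts `x k` are added by the
frame rule: the conclusion is about `∑ k, x k + (position)`.  EF: sums.
Dominations: old `(k,b)`: `r k ≤ β k k - β b k`; new gap
`= old gap + (x k - x b) + (x' k - x' b) ≥ old gap ≥ r k ≥ R1.sum k ≥ R'.sum k`.  The pair
`(k0,l0)`: new gap `≥ β k0 k0 - β l0 k0 + (x k0 - x l0) ≥ 2^{-t} * R1.sum k0 ≥ R'.sum k0`.  So the new
`Dset` contains `insert (k0,l0) (Dset β r)`.
-/

namespace H85.Cake

variable {G : Type}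

private theorem pa_nn_add {A B : Multiset (G → ℝ)} : NN (A + B) ↔ NN A ∧ NN B := by
  unfold NN
  constructor
  · intro h
    exact ⟨fun v hv => h v (Multiset.mem_add.2 (Or.inl hv)),
      fun v hv => h v (Multiset.mem_add.2 (Or.inr hv))⟩
  · rintro ⟨h1, h2⟩ v hv
    rcases Multiset.mem_add.1 hv with h | h
    · exact h1 v h
    · exact h2 v h

private theorem pa_nn_sum {ι : Type} [Fintype ι] {x : ι → Multiset (G → ℝ)}
    (h : NN (∑ k, x k)) (k : ι) : NN (x k) := by
  classical
  rw [← Finset.add_sum_erase _ _ (Finset.mem_univ k)] at h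
  exact (pa_nn_add.1 h).1

private theorem pa_nonneg {A : Multiset (G → ℝ)} (h : NN A) (k : G) : 0 ≤ A.sum k :=
  (Multiset.sum_nonneg h : (0 : G → ℝ) ≤ A.sum) k

private theorem pa_mem [Fintype G] {β : G → G → ℝ} {r : G → ℝ} {p : G × G} :
    p ∈ Dset β r ↔ p.1 ≠ p.2 ∧ r p.1 ≤ β p.1 p.1 - β p.2 p.1 := by
  unfold Dset
  simp only [Finset.mem_filter, Finset.mem_univ, true_and]

theorem phaseA {T : ℕ → ℕ} (hT : TrimStatement T) [Fintype G] [DecidableEq G] [Nonempty G]
    {β : G → G → ℝ} (hef : ∀ k b, β b k ≤ β k k) {r : G → ℝ} {x : G → Multiset (G → ℝ)}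
    {R1 : Multiset (G → ℝ)} (hR1 : NN R1) (hx : ∀ k l, (x l).sum k ≤ (x k).sum k)
    (hr : ∀ k, R1.sum k ≤ r k) {k0 l0 : G} (hne : k0 ≠ l0) (hnd : β k0 k0 - β l0 k0 < r k0)
    (hgap : 1 / 2 ^ emax (Fintype.card G) * R1.sum k0 ≤
      (β k0 k0 - β l0 k0) + ((x k0).sum k0 - (x l0).sum k0)) :
    Force (fun M' => PhaseOut β r (∑ k, x k + M')) (shrinkCost T (Fintype.card G)) R1 := by
  classical
  refine (shrink hT (emax (Fintype.card G)) hR1).mono_inv hR1 le_rfl ?_
  rintro M' ⟨x', R', rfl, hx', hR'⟩ hN hS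
  have hNR : NN R' := (pa_nn_add.1 hN).2
  have hle : ∀ k, R'.sum k ≤ R1.sum k := by
    intro k
    have h1 := pa_nonneg (pa_nn_add.1 hN).1 k
    rw [← hS, Multiset.sum_add, Pi.add_apply]
    linarith
  have hsum : ∀ k a, (x k + x' k).sum a = (x k).sum a + (x' k).sum a := fun k a => by
    rw [Multiset.sum_add, Pi.add_apply]
  refine ⟨1, fun k => x k + x' k, R', ?_, ?_, ?_⟩
  · rw [Finset.sum_add_distrib, add_assoc]
  · intro k l
    simp only [Equiv.Perm.coe_one, id_eq, hsum]
    have h1 := hef k l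
    have h2 := hx k l
    have h3 := hx' k l
    linarith
  · have hnot : (k0, l0) ∉ Dset β r := by
      intro h
      have h1 := (pa_mem.1 h).2
      simp only at h1
      linarith
    rw [← Finset.card_insert_of_notMem hnot]
    refine Finset.card_le_card ?_
    intro p hp
    refine pa_mem.2 ?_
    simp only [Equiv.Perm.coe_one, id_eq, hsum]
    rcases Finset.mem_insert.1 hp with rfl | hp
    · refine ⟨hne, ?_⟩
      have h1 := hR' k0
      have h2 := hx' k0 l0
      have h3 : R1.sum k0 / 2 ^ emax (Fintype.card G) =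
        1 / 2 ^ emax (Fintype.card G) * R1.sum k0 := by ring
      rw [h3] at h1
      dsimp only
      linarith
    · obtain ⟨h1, h2⟩ := pa_mem.1 hp
      refine ⟨h1, ?_⟩
      have h3 := hx p.1 p.2
      have h4 := hx' p.1 p.2
      have h5 := hle p.1
      have h6 := hr p.1
      linarith

end H85.Cake
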