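import Pool.Agent.H85.Cake.Line

/-!
# Virtual segments   (JOB CAKE-VINS)

`vinsert`: in the virtual part of a line every value of every agent below the starting value can be
reached, without any split.  PROOF.  If `lastPt q Lv i ≤ γ`: `IsLine.locate`; if no point has the
value, `Lv = L1 ++ s :: L2`, `s.1 = t • unit`, `r = re (lastPt q L1 i) - re γ ∈ [0, t * unit i]`;
use `IsLine.insert` with `a' = (r / unit i) • unit`, `a'' = (t - r / unit i) • unit`.
If `γ < lastPt q Lv i =: z i`: let `t = (re (z i) - re γ) / unit i ≥ 0` and let the new point be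
`p i = γ`, `p k = (re (z k) - t * unit k, (z k).2 - 1)` for `k ≠ i` (`lex_below`); take
`Lv' = Lv ++ [(t • unit, p)]`.
-/

namespace H85.Cake

variable {G : Type}

theorem vinsert {unit : G → ℝ} (hu : ∀ k, 0 < unit k) {q : G → ℝ ×ₗ ℝ}
    {Lv : List ((G → ℝ) × (G → ℝ ×ₗ ℝ))} (h : IsLine q Lv)
    (hv : ∀ s ∈ Lv, ∃ t : ℝ, 0 ≤ t ∧ s.1 = t • unit) (i : G) (γ : ℝ ×ₗ ℝ) (hγ : γ ≤ q i) :
    ∃ Lv' : List ((G → ℝ) × (G → ℝ ×ₗ ℝ)), IsLine q Lv' ∧
      (∀ s ∈ Lv', ∃ t : ℝ, 0 ≤ t ∧ s.1 = t • unit) ∧ pts q Lv ⊆ pts q Lv' ∧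
      ∃ x ∈ pts q Lv', x i = γ := by
  classical
  rcases le_or_gt (lastPt q Lv i) γ with h2 | h2
  · rcases h.locate i γ hγ h2 with hx | ⟨L1, L2, s, hL, h3, h4⟩
    · exact ⟨Lv, h, hv, subset_rfl, hx⟩
    · subst hL
      obtain ⟨t, ht, hst⟩ := hv s (by simp)
      obtain ⟨e1, e2, e3⟩ := h.insert i γ h3 h4
      have hui := hu i
      have hsi : s.1 i = t * unit i := by rw [hst]; rfl
      rw [hsi] at e2
      have hr0 : 0 ≤ (re (lastPt q L1 i) - re γ) / unit i := div_nonneg e1 hui.le
      have hr1 : (re (lastPt q L1 i) - re γ) / unit i ≤ t := by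
        rw [div_le_iff₀ hui]
        exact e2
      have hunit : (0 : G → ℝ) ≤ unit := fun k => (hu k).le
      obtain ⟨p, hp1, hp2⟩ := e3 (((re (lastPt q L1 i) - re γ) / unit i) • unit)
        ((t - (re (lastPt q L1 i) - re γ) / unit i) • unit)
        (smul_nonneg hr0 hunit) (smul_nonneg (by linarith) hunit)
        (by rw [← add_smul, hst]; congr 1; ring)
        (by
          show (re (lastPt q L1 i) - re γ) / unit i * unit i = _
          rw [div_mul_cancel₀ _ hui.ne'])
      refine ⟨_, hp2, ?_, ?_, p, ?_, hp1⟩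
      · intro s' hs'
        rw [List.mem_append, List.mem_cons, List.mem_cons] at hs'
        rcases hs' with hs' | rfl | rfl | hs'
        · exact hv s' (by simp [hs'])
        · exact ⟨_, hr0, rfl⟩
        · exact ⟨_, by linarith, rfl⟩
        · exact hv s' (by simp [hs'])
      · rintro x (rfl | ⟨s', hs', rfl⟩)
        · exact Or.inl rfl
        · rw [List.mem_append, List.mem_cons] at hs'
          rcases hs' with hs' | rfl | hs'
          · exact Or.inr ⟨s', by simp [hs'], rfl⟩
          · exact Or.inr ⟨((t - (re (lastPt q L1 i) - re γ) / unit i) • unit, s'.2), by simp, rfl⟩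
          · exact Or.inr ⟨s', by simp [hs'], rfl⟩
      · exact Or.inr ⟨(((re (lastPt q L1 i) - re γ) / unit i) • unit, p), by simp, rfl⟩
  · have hui := hu i
    have e1 : re γ ≤ re (lastPt q Lv i) := re_mono h2.le
    have ht : 0 ≤ (re (lastPt q Lv i) - re γ) / unit i := div_nonneg (by linarith) hui.le
    have hk : ∀ k, ∃ p : ℝ ×ₗ ℝ, (k = i → p = γ) ∧
        re p = re (lastPt q Lv k) - (re (lastPt q Lv i) - re γ) / unit i * unit k ∧
        p < lastPt q Lv k := by
      intro k
      by_cases hki : k = i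
      · subst hki
        refine ⟨γ, fun _ => rfl, ?_, h2⟩
        rw [div_mul_cancel₀ _ hui.ne']
        ring
      · obtain ⟨p, hp1, hp2⟩ := lex_below (lastPt q Lv k)
          (x := re (lastPt q Lv k) - (re (lastPt q Lv i) - re γ) / unit i * unit k)
          (by have := mul_nonneg ht (hu k).le; linarith)
        exact ⟨p, fun h => absurd h hki, hp1, hp2⟩
    choose p hp1 hp2 hp3 using hk
    refine ⟨Lv ++ [(((re (lastPt q Lv i) - re γ) / unit i) • unit, p)],
      (isLine_append q Lv _).2 ⟨h, hp3, smul_nonneg ht (fun k => (hu k).le), ?_, trivial⟩, ?_, ?_,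
      p, ?_, hp1 i rfl⟩
    · intro k
      show re (lastPt q Lv k) = re (p k) + (re (lastPt q Lv i) - re γ) / unit i * unit k
      rw [hp2 k]
      ring
    · intro s' hs'
      rw [List.mem_append, List.mem_singleton] at hs'
      rcases hs' with hs' | rfl
      · exact hv s' hs'
      · exact ⟨_, ht, rfl⟩
    · rintro x (rfl | ⟨s', hs', rfl⟩)
      · exact Or.inl rfl
      · exact Or.inr ⟨s', List.mem_append_left _ hs', rfl⟩
    · exact Or.inr ⟨_, List.mem_append_right _ (List.mem_singleton.2 rfl), rfl⟩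

end H85.Cake
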